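import Mathlib

set_option linter.unusedSectionVars false

namespace Pool.Agent.Helper996.Bisect

open Finset
open scoped Classical

variable {V : Type*} [Fintype V] [DecidableEq V]

/-- Bilinear form of the adjacency relation. -/
noncomputable def B (G : SimpleGraph V) (x y : V → ℤ) : ℤ :=
  ∑ u, ∑ v, if G.Adj u v then x u * y v else 0

theorem B_add_left (G : SimpleGraph V) (x x' y : V → ℤ) :
    B G (x + x') y = B G x y + B G x' y := by
  unfold B
  rw [← sum_add_distrib]
  refine sum_congr rfl fun u _ => ?_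
  rw [← sum_add_distrib]
  refine sum_congr rfl fun v _ => ?_
  split_ifs
  · simp [Pi.add_apply]; ring
  · simp

theorem B_comm (G : SimpleGraph V) (x y : V → ℤ) : B G x y = B G y x := by
  unfold B
  rw [sum_comm]
  refine sum_congr rfl fun u _ => sum_congr rfl fun v _ => ?_
  by_cases h : G.Adj u v
  · rw [if_pos h, if_pos h.symm]; ring
  · rw [if_neg h, if_neg (fun h' => h h'.symm)]

theorem B_add_right (G : SimpleGraph V) (x y y' : V → ℤ) :
    B G x (y + y') = B G x y + B G x y' := by
  rw [B_comm, B_add_left, B_comm G y, B_comm G y']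

theorem B_neg_left (G : SimpleGraph V) (x y : V → ℤ) : B G (-x) y = - B G x y := by
  unfold B
  rw [← sum_neg_distrib]
  refine sum_congr rfl fun u _ => ?_
  rw [← sum_neg_distrib]
  refine sum_congr rfl fun v _ => ?_
  split_ifs
  · simp
  · simp

theorem B_neg_right (G : SimpleGraph V) (x y : V → ℤ) : B G x (-y) = - B G x y := by
  rw [B_comm, B_neg_left, B_comm]

theorem B_sub_left (G : SimpleGraph V) (x x' y : V → ℤ) :
    B G (x - x') y = B G x y - B G x' y := by
  rw [sub_eq_add_neg, B_add_left, B_neg_left]; ring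

theorem B_sub_right (G : SimpleGraph V) (x y y' : V → ℤ) :
    B G x (y - y') = B G x y - B G x y' := by
  rw [sub_eq_add_neg, B_add_right, B_neg_right]; ring

/-- Indicator of a finset, as an integer function. -/
noncomputable def ind (S : Finset V) : V → ℤ := fun v => if v ∈ S then 1 else 0

theorem sum_ind (S : Finset V) : ∑ v, ind S v = S.card := by
  unfold ind
  simp

theorem B_ind (G : SimpleGraph V) (S T : Finset V) :
    B G (ind S) (ind T) = ((S ×ˢ T).filter (fun p => G.Adj p.1 p.2)).card := by
  unfold B ind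
  rw [card_filter, sum_product]
  push_cast
  rw [← sum_subset (subset_univ S)]
  · refine sum_congr rfl fun u hu => ?_
    rw [← sum_subset (subset_univ T)]
    · refine sum_congr rfl fun v hv => ?_
      simp [hu, hv]
    · intro v _ hv
      simp [hv]
  · intro u _ hu
    simp [hu]

theorem B_ind_nonneg (G : SimpleGraph V) (S T : Finset V) : 0 ≤ B G (ind S) (ind T) := by
  rw [B_ind]; positivity

/-- number of ordered adjacent pairs inside `S` is at most `|S|(|S|-1)`. -/
theorem B_ind_self_le (G : SimpleGraph V) (S : Finset V) :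
    B G (ind S) (ind S) ≤ S.card * (S.card - 1 : ℤ) := by
  rw [B_ind]
  have h : (S ×ˢ S).filter (fun p => G.Adj p.1 p.2) ⊆ S.offDiag := by
    intro p hp
    rw [mem_filter, mem_product] at hp
    rw [mem_offDiag]
    exact ⟨hp.1.1, hp.1.2, hp.2.ne⟩
  have h2 := card_le_card h
  rw [offDiag_card] at h2
  have h3 : S.card ≤ S.card * S.card := Nat.le_mul_self _
  zify [h3] at h2
  linarith

theorem B_ind_le (G : SimpleGraph V) (S T : Finset V) :
    B G (ind S) (ind T) ≤ S.card * T.card := by
  rw [B_ind]
  have h2 := card_filter_le (S ×ˢ T) (fun p => G.Adj p.1 p.2)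
  rw [card_product] at h2
  exact_mod_cast h2

/-- A balanced signing of `U` whose ordered-pair form is at most `-q`. -/
def Good (G : SimpleGraph V) (U : Finset V) (q : ℤ) : Prop :=
  ∃ x : V → ℤ, (∀ v ∈ U, x v = 1 ∨ x v = -1) ∧ (∀ v, v ∉ U → x v = 0) ∧
    ∑ v, x v = 0 ∧ B G x x ≤ -q

theorem Good.mono {G : SimpleGraph V} {U : Finset V} {q r : ℤ} (h : Good G U q) (hr : r ≤ q) :
    Good G U r := by
  obtain ⟨x, h1, h2, h3, h4⟩ := h
  exact ⟨x, h1, h2, h3, by linarith⟩

theorem Good.union {G : SimpleGraph V} {U W : Finset V} {q r : ℤ} (hU : Good G U q)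
    (hW : Good G W r) (hd : Disjoint U W) : Good G (U ∪ W) (q + r) := by
  obtain ⟨x, h1, h2, h3, h4⟩ := hU
  obtain ⟨y, k1, k2, k3, k4⟩ := hW
  have key : ∀ s : ℤ, (s = 1 ∨ s = -1) → s * B G x y ≤ 0 → Good G (U ∪ W) (q + r) := by
    intro s hs hle
    refine ⟨fun v => x v + s * y v, ?_, ?_, ?_, ?_⟩
    · intro v hv
      rw [mem_union] at hv
      rcases hv with hv | hv
      · have : y v = 0 := k2 v (fun h => (disjoint_left.mp hd hv h))
        simpa [this] using h1 v hv
      · have : x v = 0 := h2 v (fun h => (disjoint_left.mp hd h hv))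
        rcases k1 v hv with h | h <;> rcases hs with hs | hs <;> simp [this, h, hs]
    · intro v hv
      rw [mem_union, not_or] at hv
      simp [h2 v hv.1, k2 v hv.2]
    · rw [sum_add_distrib, ← mul_sum, h3, k3]; ring
    · have e : (fun v => x v + s * y v) = x + s • y := by
        ext v; simp
      rcases hs with hs | hs
      · subst hs
        rw [e, one_smul, B_add_left, B_add_right, B_add_right, B_comm G y x]
        linarith
      · subst hs
        rw [e, neg_smul, one_smul, B_add_left, B_add_right, B_add_right, B_neg_left, B_neg_left,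
          B_neg_right, B_neg_right, B_comm G y x]
        linarith
  rcases le_total (B G x y) 0 with h | h
  · exact key 1 (Or.inl rfl) (by linarith)
  · exact key (-1) (Or.inr rfl) (by linarith)

theorem good_empty (G : SimpleGraph V) : Good G ∅ 0 := by
  refine ⟨0, by simp, by simp, by simp, ?_⟩
  simp [B]

/-- two opposite disjoint sets of the same size. -/
theorem good_of_sets {G : SimpleGraph V} {S J : Finset V} (hd : Disjoint S J)
    (hc : S.card = J.card) :
    Good G (S ∪ J) (-(B G (ind S) (ind S) - 2 * B G (ind S) (ind J) + B G (ind J) (ind J))) := by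
  refine ⟨ind S - ind J, ?_, ?_, ?_, ?_⟩
  · intro v hv
    rw [mem_union] at hv
    rcases hv with hv | hv
    · have : v ∉ J := fun h => disjoint_left.mp hd hv h
      left; simp [ind, hv, this]
    · have : v ∉ S := fun h => disjoint_left.mp hd h hv
      right; simp [ind, hv, this]
  · intro v hv
    rw [mem_union, not_or] at hv
    simp [ind, hv.1, hv.2]
  · simp only [Pi.sub_apply]
    rw [sum_sub_distrib, sum_ind, sum_ind, hc]; ring
  · rw [B_sub_left, B_sub_right, B_sub_right, B_comm G (ind J) (ind S)]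
    linarith

theorem good_pair {G : SimpleGraph V} {u v : V} (h : u ≠ v) : Good G {u, v} 0 := by
  have hd : Disjoint ({u} : Finset V) {v} := by simpa using h
  have h1 := good_of_sets (G := G) hd (by simp)
  have e : ({u} ∪ {v} : Finset V) = {u, v} := by ext; simp
  rw [e] at h1
  refine h1.mono ?_
  have a1 := B_ind_self_le G {u}
  have a2 := B_ind_self_le G {v}
  have a3 := B_ind_nonneg G {u} {v}
  simp at a1 a2
  linarith

theorem good_adj {G : SimpleGraph V} {u v : V} (h : G.Adj u v) : Good G {u, v} 2 := by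
  have hd : Disjoint ({u} : Finset V) {v} := by simpa using h.ne
  have h1 := good_of_sets (G := G) hd (by simp)
  have e : ({u} ∪ {v} : Finset V) = {u, v} := by ext; simp
  rw [e] at h1
  refine h1.mono ?_
  have a1 := B_ind_self_le G {u}
  have a2 := B_ind_self_le G {v}
  have a3 : B G (ind {u}) (ind {v}) = 1 := by
    rw [B_ind]
    have : (({u} : Finset V) ×ˢ {v}).filter (fun p => G.Adj p.1 p.2) = {(u, v)} := by
      ext ⟨a, b⟩
      simp only [mem_filter, mem_product, mem_singleton, Prod.mk.injEq]
      constructor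
      · rintro ⟨⟨rfl, rfl⟩, _⟩; exact ⟨rfl, rfl⟩
      · rintro ⟨rfl, rfl⟩; exact ⟨⟨rfl, rfl⟩, h⟩
    rw [this]; simp
  simp at a1 a2
  linarith

theorem good_even (G : SimpleGraph V) : ∀ (n : ℕ) (U : Finset V), U.card = 2 * n → Good G U 0 := by
  intro n
  induction n with
  | zero =>
    intro U hU
    have : U = ∅ := by simpa using hU
    rw [this]; exact good_empty G
  | succ n ih =>
    intro U hU
    have hc : 1 < U.card := by omega
    obtain ⟨a, ha, b, hb, hab⟩ := one_lt_card.mp hc
    have hsub : ({a, b} : Finset V) ⊆ U := by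
      intro z hz
      simp only [mem_insert, mem_singleton] at hz
      rcases hz with rfl | rfl <;> assumption
    have h1 := ih (U \ {a, b}) (by
      rw [card_sdiff_of_subset hsub, card_pair hab]; omega)
    have h2 := h1.union (good_pair (G := G) hab) sdiff_disjoint
    rw [sdiff_union_of_subset hsub] at h2
    simpa using h2

theorem Good.card_even {G : SimpleGraph V} {U : Finset V} {q : ℤ} (h : Good G U q) :
    Even U.card := by
  obtain ⟨x, h1, h2, h3, _⟩ := h
  have e : ∑ v, x v = ∑ v ∈ U, x v := by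
    rw [← sum_subset (subset_univ U)]
    intro v _ hv; exact h2 v hv
  rw [e] at h3
  have h4 : ∀ v ∈ U, ∃ k : ℤ, x v = 1 + 2 * k := by
    intro v hv
    rcases h1 v hv with h | h
    · exact ⟨0, by rw [h]; ring⟩
    · exact ⟨-1, by rw [h]; ring⟩
  choose! k hk using h4
  rw [sum_congr rfl hk, sum_add_distrib, ← mul_sum] at h3
  simp at h3
  have : Even (U.card : ℤ) := ⟨- ∑ v ∈ U, k v, by linarith⟩
  exact_mod_cast this

/-- From a good partial signing to a bisection. -/
theorem bisect_of_good {G : SimpleGraph V} {U : Finset V} {q : ℤ} (h : Good G U q) :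
    ∃ A : Finset V, A.card ≤ Aᶜ.card ∧ Aᶜ.card ≤ A.card + 1 ∧
      B G 1 1 + q ≤ 4 * (((A ×ˢ Aᶜ).filter (fun p => G.Adj p.1 p.2)).card : ℤ) := by
  -- first produce a full signing
  have hfull : ∃ x : V → ℤ, (∀ v, x v = 1 ∨ x v = -1) ∧ (∑ v, x v = 0 ∨ ∑ v, x v = -1) ∧
      B G x x ≤ -q := by
    have hev := h.card_even
    rcases Nat.even_or_odd (Uᶜ).card with hc | hc
    · obtain ⟨n, hn⟩ := hc
      have h1 := h.union (good_even G n Uᶜ (by omega)) disjoint_compl_right
      rw [union_compl, add_zero] at h1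
      obtain ⟨x, h1, h2, h3, h4⟩ := h1
      exact ⟨x, fun v => h1 v (mem_univ v), Or.inl h3, h4⟩
    · obtain ⟨n, hn⟩ := hc
      have hne : (Uᶜ).Nonempty := by rw [← card_pos]; omega
      obtain ⟨v0, hv0⟩ := hne
      have hv0U : v0 ∉ U := by simpa using hv0
      have h1 := h.union (good_even G n (Uᶜ.erase v0) (by rw [card_erase_of_mem hv0]; omega))
        (by
          rw [disjoint_left]
          intro a ha hb
          rw [mem_erase, mem_compl] at hb
          exact hb.2 ha)
      rw [add_zero] at h1
      obtain ⟨x, h1, h2, h3, h4⟩ := h1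
      have hx0 : x v0 = 0 := h2 v0 (by
        rw [mem_union, not_or]; exact ⟨hv0U, notMem_erase _ _⟩)
      have hxo : ∀ v, v ≠ v0 → (x v = 1 ∨ x v = -1) := by
        intro v hv
        apply h1
        rw [mem_union]
        by_cases hvU : v ∈ U
        · exact Or.inl hvU
        · right; rw [mem_erase, mem_compl]; exact ⟨hv, hvU⟩
      -- choose the sign
      have hB0 : B G (ind {v0}) (ind {v0}) ≤ 0 := by
        have := B_ind_self_le G {v0}
        simpa using this
      rcases le_total 0 (B G x (ind {v0})) with hs | hs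
      · refine ⟨x - ind {v0}, ?_, ?_, ?_⟩
        · intro v
          by_cases hv : v = v0
          · subst hv; right; simp [ind, hx0]
          · simpa [ind, hv] using hxo v hv
        · right
          simp only [Pi.sub_apply]
          rw [sum_sub_distrib, h3, sum_ind]; simp
        · rw [B_sub_left, B_sub_right, B_sub_right, B_comm G (ind {v0}) x]
          linarith
      · refine ⟨-x - ind {v0}, ?_, ?_, ?_⟩
        · intro v
          by_cases hv : v = v0
          · subst hv; right; simp [ind, hx0]
          · rcases hxo v hv with h | h <;> simp [ind, hv, h]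
        · right
          simp only [Pi.sub_apply, Pi.neg_apply]
          rw [sum_sub_distrib, sum_neg_distrib, h3, sum_ind]; simp
        · rw [B_sub_left, B_sub_right, B_sub_right, B_comm G (ind {v0}) (-x), B_neg_left,
            B_neg_left, B_neg_right]
          linarith
  obtain ⟨x, hx, hs, hB⟩ := hfull
  set A : Finset V := univ.filter (fun v => x v = 1) with hA
  have hxA : x = ind A - ind Aᶜ := by
    ext v
    rcases hx v with h | h
    · have : v ∈ A := by rw [hA, mem_filter]; exact ⟨mem_univ v, h⟩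
      simp [ind, this, h]
    · have : v ∉ A := by rw [hA, mem_filter]; rintro ⟨_, h'⟩; rw [h] at h'; norm_num at h'
      simp [ind, this, h]
  have hsum : ∑ v, x v = (A.card : ℤ) - (Aᶜ.card : ℤ) := by
    rw [hxA]
    simp only [Pi.sub_apply]
    rw [sum_sub_distrib, sum_ind, sum_ind]
  have hone : (1 : V → ℤ) = ind A + ind Aᶜ := by
    ext v
    by_cases h : v ∈ A <;> simp [ind, h]
  refine ⟨A, by omega, by omega, ?_⟩
  rw [← B_ind]
  have e1 : B G 1 1 = B G (ind A) (ind A) + 2 * B G (ind A) (ind Aᶜ) + B G (ind Aᶜ) (ind Aᶜ) := by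
    rw [hone, B_add_left, B_add_right, B_add_right, B_comm G (ind Aᶜ) (ind A)]; ring
  have e2 : B G x x = B G (ind A) (ind A) - 2 * B G (ind A) (ind Aᶜ) + B G (ind Aᶜ) (ind Aᶜ) := by
    rw [hxA, B_sub_left, B_sub_right, B_sub_right, B_comm G (ind Aᶜ) (ind A)]; ring
  linarith

/-- twice the number of edges. -/
theorem B_one_one (G : SimpleGraph V) : B G 1 1 = 2 * (G.edgeSet.ncard : ℤ) := by
  have h := G.sum_degrees_eq_twice_card_edges
  have h1 : B G 1 1 = ∑ v, (G.degree v : ℤ) := by
    unfold B
    refine sum_congr rfl fun u _ => ?_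
    simp only [Pi.one_apply, mul_one]
    rw [← G.card_neighborFinset_eq_degree u, SimpleGraph.neighborFinset_eq_filter, card_filter]
    push_cast
    rfl
  rw [h1, ← Nat.cast_sum, h]
  have h2 : G.edgeSet.ncard = G.edgeFinset.card := by
    rw [← SimpleGraph.coe_edgeFinset, Set.ncard_coe_finset]
  rw [h2]; push_cast; ring

/-- Dependent-choice form of the Kovari-Sos-Turan argument. -/
theorem kst (G : SimpleGraph V) (K D : ℕ) :
    ∀ (t : ℕ) (U J : Finset V), J.Nonempty →
      (∀ v ∈ J, D + t ≤ (U.filter (fun u => G.Adj u v)).card) →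
      U.card ≤ K * D →
      ∃ S J' : Finset V, S ⊆ U ∧ J' ⊆ J ∧ S.card = t ∧ J.card ≤ J'.card * K ^ t ∧
        ∀ u ∈ S, ∀ v ∈ J', G.Adj u v := by
  intro t
  induction t with
  | zero =>
    intro U J _ _ _
    exact ⟨∅, J, empty_subset _, Subset.rfl, by simp, by simp, by simp⟩
  | succ t ih =>
    intro U J hJne hJ hU
    obtain ⟨v0, hv0⟩ := hJne
    have hUpos : 0 < U.card := by
      have h1 := hJ v0 hv0
      have h2 := card_filter_le U (fun u => G.Adj u v0)
      omega
    have hex : ∃ u ∈ U, J.card ≤ (J.filter (fun v => G.Adj u v)).card * K := by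
      by_contra hcon
      push Not at hcon
      have h1 : ∑ u ∈ U, (J.filter (fun v => G.Adj u v)).card * K < ∑ u ∈ U, J.card :=
        sum_lt_sum_of_nonempty (card_pos.mp hUpos) hcon
      rw [sum_const, smul_eq_mul, ← sum_mul] at h1
      have h2 : ∑ u ∈ U, (J.filter (fun v => G.Adj u v)).card
          = ∑ v ∈ J, (U.filter (fun u => G.Adj u v)).card := by
        simp_rw [card_filter]
        rw [sum_comm]
      have h3 : ∑ v ∈ J, (D + (t + 1)) ≤ ∑ v ∈ J, (U.filter (fun u => G.Adj u v)).card :=
        sum_le_sum hJ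
      rw [sum_const, smul_eq_mul] at h3
      rw [h2] at h1
      have h4 : J.card * D ≤ ∑ v ∈ J, (U.filter (fun u => G.Adj u v)).card :=
        le_trans (Nat.mul_le_mul_left _ (by omega)) h3
      have h5 : J.card * D * K ≤ (∑ v ∈ J, (U.filter (fun u => G.Adj u v)).card) * K :=
        Nat.mul_le_mul_right _ h4
      have h6 : U.card * J.card ≤ (K * D) * J.card := Nat.mul_le_mul_right _ hU
      have h7 : J.card * D * K = (K * D) * J.card := by ring
      omega
    obtain ⟨u, huU, hu⟩ := hex
    set J1 := J.filter (fun v => G.Adj u v) with hJ1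
    have hJ1ne : J1.Nonempty := by
      rw [← card_pos]
      by_contra h0
      have h0' : J1.card = 0 := by omega
      rw [h0'] at hu
      have : 0 < J.card := card_pos.mpr ⟨v0, hv0⟩
      omega
    obtain ⟨S, J', hS, hJ', hSc, hJc, hadj⟩ := ih (U.erase u) J1 hJ1ne (by
      intro v hv
      have h1 := hJ v (mem_filter.mp hv).1
      have h2 : (U.filter (fun w => G.Adj w v)).card
          ≤ ((U.erase u).filter (fun w => G.Adj w v)).card + 1 := by
        rw [filter_erase]
        have := pred_card_le_card_erase (s := U.filter (fun w => G.Adj w v)) (a := u)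
        omega
      omega) (le_trans (card_erase_le) hU)
    refine ⟨insert u S, J', ?_, hJ'.trans (filter_subset _ _), ?_, ?_, ?_⟩
    · intro w hw
      rw [mem_insert] at hw
      rcases hw with rfl | hw
      · exact huU
      · exact mem_of_mem_erase (hS hw)
    · rw [card_insert_of_notMem, hSc]
      intro h
      exact notMem_erase u U (hS h)
    · calc J.card ≤ J1.card * K := hu
        _ ≤ (J'.card * K ^ t) * K := Nat.mul_le_mul_right _ hJc
        _ = J'.card * K ^ (t + 1) := by ring
    · intro w hw v hv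
      rw [mem_insert] at hw
      rcases hw with rfl | hw
      · exact (mem_filter.mp (hJ' hv)).2
      · exact hadj w hw v hv

/-- Largest signing built from adjacent pairs; the rest is independent. -/
theorem exists_max_matching (G : SimpleGraph V) :
    ∃ U : Finset V, Good G U U.card ∧ ∀ u v, u ∉ U → v ∉ U → ¬ G.Adj u v := by
  have hne : ((univ : Finset (Finset V)).filter (fun U => Good G U U.card)).Nonempty :=
    ⟨∅, by rw [mem_filter]; exact ⟨mem_univ _, by simpa using good_empty G⟩⟩
  obtain ⟨U, hU, hmax⟩ := exists_max_image _ (fun U : Finset V => U.card) hne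
  rw [mem_filter] at hU
  refine ⟨U, hU.2, ?_⟩
  intro u v hu hv hadj
  have hd : Disjoint U {u, v} := by
    rw [disjoint_right]
    intro w hw
    simp only [mem_insert, mem_singleton] at hw
    rcases hw with rfl | rfl <;> assumption
  have h1 := hU.2.union (good_adj hadj) hd
  have hc : (U ∪ {u, v}).card = U.card + 2 := by
    rw [card_union_of_disjoint hd, card_pair hadj.ne]
  have h2 : Good G (U ∪ {u, v}) (U ∪ {u, v}).card := by
    rw [hc]; push_cast; exact h1
  have h3 := hmax (U ∪ {u, v}) (by rw [mem_filter]; exact ⟨mem_univ _, h2⟩)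
  simp only [hc] at h3
  omega

/-- A complete bipartite piece with one independent side. -/
theorem good_biclique {G : SimpleGraph V} {S J : Finset V} {t : ℕ} (hS : S.card = t)
    (hJ : J.card = t) (hadj : ∀ u ∈ S, ∀ v ∈ J, G.Adj u v)
    (hind : ∀ u ∈ J, ∀ v ∈ J, ¬ G.Adj u v) :
    Disjoint S J ∧ Good G (S ∪ J) (t * (t + 1)) := by
  have hd : Disjoint S J := by
    rw [disjoint_left]
    intro a ha hb
    exact (G.loopless.irrefl a) (hadj a ha a hb)
  refine ⟨hd, (good_of_sets hd (by rw [hS, hJ])).mono ?_⟩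
  have h1 := B_ind_self_le G S
  have h2 : B G (ind S) (ind J) = t * t := by
    rw [B_ind]
    have : (S ×ˢ J).filter (fun p => G.Adj p.1 p.2) = S ×ˢ J := by
      rw [filter_eq_self]
      intro p hp
      rw [mem_product] at hp
      exact hadj _ hp.1 _ hp.2
    rw [this, card_product, hS, hJ]; push_cast; ring
  have h3 : B G (ind J) (ind J) = 0 := by
    rw [B_ind]
    have : (J ×ˢ J).filter (fun p => G.Adj p.1 p.2) = ∅ := by
      rw [filter_eq_empty_iff]
      intro p hp
      rw [mem_product] at hp
      exact hind _ hp.1 _ hp.2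
    rw [this]; simp
  rw [hS] at h1
  rw [h2, h3]
  nlinarith

theorem B_pos_split (G : SimpleGraph V) (U I W : Finset V) :
    B G (ind U) (ind I) ≤ B G (ind (U \ W)) (ind (I \ W))
      + ((U ∩ W).card * Fintype.card V + (I ∩ W).card * Fintype.card V : ℤ) := by
  have hU : ind U = ind (U \ W) + ind (U ∩ W) := by
    ext v
    by_cases h1 : v ∈ U <;> by_cases h2 : v ∈ W <;> simp [ind, h1, h2]
  have hI : ind I = ind (I \ W) + ind (I ∩ W) := by
    ext v
    by_cases h1 : v ∈ I <;> by_cases h2 : v ∈ W <;> simp [ind, h1, h2]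
  have e : B G (ind U) (ind I) = B G (ind (U \ W)) (ind (I \ W))
      + B G (ind (U \ W)) (ind (I ∩ W)) + B G (ind (U ∩ W)) (ind I) := by
    conv_lhs => rw [hU, B_add_left]
    conv_lhs => enter [1]; rw [hI, B_add_right]
  have h1 := B_ind_le G (U \ W) (I ∩ W)
  have h2 := B_ind_le G (U ∩ W) I
  have c1 : ((U \ W).card : ℤ) ≤ Fintype.card V := by exact_mod_cast card_le_univ _
  have c2 : ((I).card : ℤ) ≤ Fintype.card V := by exact_mod_cast card_le_univ _
  have p1 : ((U \ W).card : ℤ) * (I ∩ W).card ≤ Fintype.card V * (I ∩ W).card :=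
    mul_le_mul_of_nonneg_right c1 (by positivity)
  have p2 : ((U ∩ W).card : ℤ) * I.card ≤ (U ∩ W).card * Fintype.card V :=
    mul_le_mul_of_nonneg_left c2 (by positivity)
  linarith

/-- Maximal packing by bicliques of side `t` between `U` and its independent complement. -/
theorem exists_packing (G : SimpleGraph V) (U : Finset V) (t : ℕ) (ht : 0 < t)
    (hI : ∀ u v, u ∉ U → v ∉ U → ¬ G.Adj u v) :
    ∃ (W : Finset V) (j : ℕ), W.card = 2 * t * j ∧ Good G W (t * (t + 1) * j) ∧
      ∀ S J : Finset V, S ⊆ U \ W → J ⊆ Uᶜ \ W → S.card = t → J.card = t →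
        (∀ u ∈ S, ∀ v ∈ J, G.Adj u v) → False := by
  have hne : ((univ : Finset (Finset V)).filter
      (fun W => ∃ j : ℕ, W.card = 2 * t * j ∧ Good G W (t * (t + 1) * j))).Nonempty :=
    ⟨∅, by rw [mem_filter]; exact ⟨mem_univ _, 0, by simp, by simpa using good_empty G⟩⟩
  obtain ⟨W, hW, hmax⟩ := exists_max_image _ (fun W : Finset V => W.card) hne
  rw [mem_filter] at hW
  obtain ⟨-, j, hj, hg⟩ := hW
  refine ⟨W, j, hj, hg, ?_⟩
  intro S J hS hJ hSc hJc hadj
  obtain ⟨hd, hg2⟩ := good_biclique hSc hJc hadj (by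
    intro u hu v hv
    have h1 := hJ hu
    have h2 := hJ hv
    simp only [mem_sdiff, mem_compl] at h1 h2
    exact hI u v h1.1 h2.1)
  have hdW : Disjoint W (S ∪ J) := by
    rw [disjoint_right]
    intro w hw
    rw [mem_union] at hw
    rcases hw with hw | hw
    · exact (mem_sdiff.mp (hS hw)).2
    · exact (mem_sdiff.mp (hJ hw)).2
  have h3 := hg.union hg2 hdW
  have hc : (W ∪ (S ∪ J)).card = 2 * t * (j + 1) := by
    rw [card_union_of_disjoint hdW, card_union_of_disjoint hd, hSc, hJc, hj]; ring
  have h4 := hmax (W ∪ (S ∪ J)) (by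
    rw [mem_filter]
    refine ⟨mem_univ _, j + 1, hc, ?_⟩
    refine h3.mono ?_
    push_cast; nlinarith)
  simp only [hc, hj] at h4
  nlinarith

theorem sqrt_eight : Real.sqrt 8 = 2 * Real.sqrt 2 := by
  rw [show (8 : ℝ) = 2 ^ 2 * 2 by norm_num, Real.sqrt_mul (by norm_num), Real.sqrt_sq (by norm_num)]

theorem arith1 (C θ r t j : ℝ) (hC : 0 < C) (hr : 0 < r) (ht : 0 < t) (hj : 0 ≤ j)
    (h3 : 16 * C < θ * t) (h2 : θ * r / 2 ≤ 2 * t * j * C) : 4 * r ≤ t * (t + 1) * j := by
  have a : 16 * C * r ≤ θ * t * r := mul_le_mul_of_nonneg_right h3.le hr.le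
  have b : (θ * r / 2) * (2 * t) ≤ (2 * t * j * C) * (2 * t) :=
    mul_le_mul_of_nonneg_right h2 (by positivity)
  have c : C * (4 * r) ≤ C * (t * t * j) := by linarith
  have d : 4 * r ≤ t * t * j := le_of_mul_le_mul_left c hC
  have e : 0 ≤ t * j := by positivity
  linarith

theorem arith2 (θ r : ℝ) (hθ : 0 < θ) (hr : 0 < r) :
    (1 - θ) * r / Real.sqrt 8 ≤ r := by
  have hs8 : 0 < Real.sqrt 8 := Real.sqrt_pos.mpr (by norm_num)
  rw [div_le_iff₀ hs8]
  have h8 : (1 : ℝ) ≤ Real.sqrt 8 := by
    rw [show (1 : ℝ) = Real.sqrt 1 by simp]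
    exact Real.sqrt_le_sqrt (by norm_num)
  have h1 : (1 - θ) * r ≤ 1 * r := mul_le_mul_of_nonneg_right (by linarith) hr.le
  have h2 : r * 1 ≤ r * Real.sqrt 8 := mul_le_mul_of_nonneg_left h8 hr.le
  linarith

/-- The main lower bound. -/
theorem main_lower (C θ : ℝ) (hC : 0 < C) (hθ : 0 < θ) (hθ1 : θ < 1) :
    ∃ r0 : ℝ, ∀ (V : Type) [Fintype V] [DecidableEq V] (G : SimpleGraph V) (m : ℕ),
      G.edgeSet.ncard = m → r0 ≤ Real.sqrt m → (Fintype.card V : ℝ) ≤ C * Real.sqrt m →
      ∃ A : Finset V, A.card ≤ Aᶜ.card ∧ Aᶜ.card ≤ A.card + 1 ∧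
        (m : ℝ) / 2 + (1 - θ) * Real.sqrt m / Real.sqrt 8 ≤
          (((A ×ˢ Aᶜ).filter (fun p => G.Adj p.1 p.2)).card : ℝ) := by
  obtain ⟨t, ht⟩ := exists_nat_gt (16 * C / θ)
  have htpos : 0 < t := by
    have : (0 : ℝ) < t := lt_trans (by positivity) ht
    exact_mod_cast this
  obtain ⟨K, hK⟩ := exists_nat_gt (16 * C ^ 2 / θ)
  have hKpos : (0 : ℝ) < K := lt_trans (by positivity) hK
  refine ⟨max 1 (max (8 * C * t / θ) (max (16 * C / θ) (4 * C * (t * (K : ℝ) ^ t) / θ))), ?_⟩
  intro V _ _ G m hm hr hn
  set r : ℝ := Real.sqrt m with hrdef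
  have hr1 : (1 : ℝ) ≤ r := le_trans (le_max_left _ _) hr
  have hr2 : 8 * C * t / θ ≤ r := le_trans (le_trans (le_max_left _ _) (le_max_right _ _)) hr
  have hr3 : 16 * C / θ ≤ r := le_trans (le_trans (le_trans (le_max_left _ _) (le_max_right _ _)) (le_max_right _ _)) hr
  have hr4 : 4 * C * (t * (K : ℝ) ^ t) / θ ≤ r := le_trans (le_trans (le_trans (le_max_right _ _) (le_max_right _ _)) (le_max_right _ _)) hr
  have hrpos : 0 < r := by linarith
  have hrr : r * r = m := Real.mul_self_sqrt (Nat.cast_nonneg m)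
  have hs8 : 0 < Real.sqrt 8 := Real.sqrt_pos.mpr (by norm_num)
  have h2 : Real.sqrt 2 * Real.sqrt 2 = 2 := Real.mul_self_sqrt (by norm_num)
  have hs2 : 0 < Real.sqrt 2 := Real.sqrt_pos.mpr (by norm_num)
  -- general conclusion from a good set
  have fin : ∀ (W : Finset V) (q : ℤ), Good G W q → 4 * ((1 - θ) * r / Real.sqrt 8) ≤ q →
      ∃ A : Finset V, A.card ≤ Aᶜ.card ∧ Aᶜ.card ≤ A.card + 1 ∧
        (m : ℝ) / 2 + (1 - θ) * r / Real.sqrt 8 ≤
          (((A ×ˢ Aᶜ).filter (fun p => G.Adj p.1 p.2)).card : ℝ) := by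
    intro W q hW hq
    obtain ⟨A, h1, h2, h3⟩ := bisect_of_good hW
    refine ⟨A, h1, h2, ?_⟩
    rw [B_one_one, hm] at h3
    have h4 : (2 * (m : ℝ) + q) ≤ 4 * (((A ×ˢ Aᶜ).filter (fun p => G.Adj p.1 p.2)).card : ℝ) := by
      exact_mod_cast h3
    linarith
  obtain ⟨U, hU, hI⟩ := exists_max_matching G
  set n := Fintype.card V with hndef
  set k := U.card with hk
  have hB := B_one_one G
  rw [hm] at hB
  have hone : (1 : V → ℤ) = ind U + ind Uᶜ := by
    ext v
    by_cases h : v ∈ U <;> simp [ind, h]
  have e1 : B G 1 1 = B G (ind U) (ind U) + 2 * B G (ind U) (ind Uᶜ) + B G (ind Uᶜ) (ind Uᶜ) := by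
    rw [hone, B_add_left, B_add_right, B_add_right, B_comm G (ind Uᶜ) (ind U)]; ring
  have e2 : B G (ind Uᶜ) (ind Uᶜ) = 0 := by
    rw [B_ind]
    have : (Uᶜ ×ˢ Uᶜ).filter (fun p => G.Adj p.1 p.2) = ∅ := by
      rw [filter_eq_empty_iff]
      intro p hp
      rw [mem_product, mem_compl, mem_compl] at hp
      exact hI _ _ hp.1 hp.2
    rw [this]; simp
  have e3 := B_ind_self_le G U
  by_cases hcase : 2 * (1 - θ) * m ≤ (k : ℝ) ^ 2
  · -- large matching
    apply fin U k hU
    have hk0 : (0 : ℝ) ≤ k := Nat.cast_nonneg k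
    have h5 : ((1 - θ) * (Real.sqrt 2 * r)) ^ 2 ≤ (k : ℝ) ^ 2 := by
      have : ((1 - θ) * (Real.sqrt 2 * r)) ^ 2 = (1 - θ) ^ 2 * (Real.sqrt 2 * Real.sqrt 2) * (r * r) := by ring
      rw [this, h2, hrr]
      have h6 : (1 - θ) ^ 2 ≤ 1 - θ := by nlinarith
      have h7 : (0 : ℝ) ≤ m := Nat.cast_nonneg m
      calc (1 - θ) ^ 2 * 2 * m ≤ (1 - θ) * 2 * m := by
            apply mul_le_mul_of_nonneg_right _ h7
            linarith
        _ = 2 * (1 - θ) * m := by ring
        _ ≤ _ := hcase
    have h6 : (1 - θ) * (Real.sqrt 2 * r) ≤ k := by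
      have h1θ : 0 < 1 - θ := by linarith
      exact (le_abs_self _).trans (abs_le_of_sq_le_sq h5 hk0)
    rw [sqrt_eight]
    have : 4 * ((1 - θ) * r / (2 * Real.sqrt 2)) = (1 - θ) * (Real.sqrt 2 * r) := by
      field_simp
      nlinarith
    rw [this]
    exact_mod_cast h6
  · push Not at hcase
    -- many edges between U and the independent rest
    have hBU : θ * m ≤ (B G (ind U) (ind Uᶜ) : ℝ) := by
      have h1 : (2 * (m : ℤ)) ≤ k * (k - 1) + 2 * B G (ind U) (ind Uᶜ) := by
        rw [e2] at e1; linarith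
      have h2 : (2 * (m : ℝ)) ≤ k * (k - 1) + 2 * (B G (ind U) (ind Uᶜ) : ℝ) := by exact_mod_cast h1
      have hk0 : (0 : ℝ) ≤ k := Nat.cast_nonneg k
      nlinarith
    obtain ⟨W, j, hWc, hWg, hno⟩ := exists_packing G U t htpos hI
    have hnpos : 0 < (n : ℝ) := by
      by_contra hn0
      have hn0' : n = 0 := by
        have : (n : ℝ) ≤ 0 := not_lt.mp hn0
        have : (n : ℝ) = 0 := le_antisymm this (Nat.cast_nonneg n)
        exact_mod_cast this
      have hb := B_ind_le G U Uᶜ
      have hU0 : U.card ≤ n := card_le_univ U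
      have : U.card = 0 := by omega
      rw [this] at hb
      have hb' : (B G (ind U) (ind Uᶜ) : ℝ) ≤ 0 := by exact_mod_cast (by simpa using hb)
      have : 0 < θ * m := by
        have : (0 : ℝ) < m := by rw [← hrr]; positivity
        positivity
      linarith
    by_cases hc2 : θ * m / 2 ≤ 2 * t * j * n
    · apply fin W _ hWg
      have h1 : θ * (r * r) / 2 ≤ 2 * t * j * (C * r) := by
        rw [hrr]
        refine le_trans hc2 ?_
        apply mul_le_mul_of_nonneg_left hn (by positivity)
      have h2' : θ * r / 2 ≤ 2 * t * j * C := by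
        have : (θ * r / 2) * r ≤ (2 * t * j * C) * r := by linarith
        exact le_of_mul_le_mul_right this hrpos
      have h3 : 16 * C < θ * t := by
        rw [div_lt_iff₀ hθ] at ht; linarith
      -- q = t (t+1) j ≥ t * (t j)
      have h4 : 4 * r ≤ (t : ℝ) * (t + 1) * j := by
        exact arith1 C θ r t j hC hrpos (by exact_mod_cast htpos) (Nat.cast_nonneg j) h3 h2'
      have h5 : 4 * ((1 - θ) * r / Real.sqrt 8) ≤ 4 * r := by
        have := arith2 θ r hθ hrpos
        linarith
      push_cast
      linarith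
    · push Not at hc2
      exfalso
      have hsplit := B_pos_split G U Uᶜ W
      have hWW : (U ∩ W).card + (Uᶜ ∩ W).card = W.card := by
        rw [← card_union_of_disjoint]
        · congr 1
          ext v
          simp only [mem_union, mem_inter, mem_compl]
          tauto
        · rw [disjoint_left]
          intro a ha hb
          simp only [mem_inter, mem_compl] at ha hb
          exact hb.1 ha.1
      have hsplit2 : (B G (ind U) (ind Uᶜ) : ℝ) ≤ (B G (ind (U \ W)) (ind (Uᶜ \ W)) : ℝ)
          + 2 * t * j * n := by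
        have h1 : B G (ind U) (ind Uᶜ) ≤ B G (ind (U \ W)) (ind (Uᶜ \ W)) + 2 * t * j * n := by
          refine le_trans hsplit ?_
          have : ((U ∩ W).card * (Fintype.card V : ℤ) + (Uᶜ ∩ W).card * Fintype.card V)
              = (((U ∩ W).card + (Uᶜ ∩ W).card : ℕ) : ℤ) * n := by push_cast; ring
          rw [this, hWW, hWc]
          push_cast; linarith
        exact_mod_cast h1
      have hB2 : θ * m / 2 ≤ (B G (ind (U \ W)) (ind (Uᶜ \ W)) : ℝ) := by linarith
      set U' := U \ W
      set I' := Uᶜ \ W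
      obtain ⟨D, hD1, hD2⟩ : ∃ D : ℕ, (D : ℝ) ≤ θ * r / (8 * C) ∧ θ * r / (16 * C) ≤ D := by
        refine ⟨⌊θ * r / (8 * C)⌋₊, Nat.floor_le (by positivity), ?_⟩
        have h1 := Nat.lt_floor_add_one (θ * r / (8 * C))
        have h2 : 1 ≤ θ * r / (16 * C) := by
          rw [le_div_iff₀ (by positivity)]
          rw [div_le_iff₀ hθ] at hr3
          linarith
        have h3 : θ * r / (8 * C) = θ * r / (16 * C) + θ * r / (16 * C) := by
          field_simp; ring
        linarith
      set J := I'.filter (fun v => D + t ≤ (U'.filter (fun u => G.Adj u v)).card) with hJdef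
      have hdeg : (B G (ind U') (ind I') : ℝ) ≤ J.card * n + n * (D + t) := by
        have h1 : B G (ind U') (ind I') = ∑ v ∈ I', ((U'.filter (fun u => G.Adj u v)).card : ℤ) := by
          rw [B_ind, card_filter, sum_product_right]
          push_cast
          refine sum_congr rfl fun v _ => ?_
          rw [card_filter]; push_cast; rfl
        have h2 : ∑ v ∈ I', ((U'.filter (fun u => G.Adj u v)).card : ℤ)
            ≤ ∑ v ∈ I', ((if v ∈ J then (n : ℤ) else 0) + (D + t)) := by
          refine sum_le_sum fun v hv => ?_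
          split_ifs with h
          · have : (U'.filter (fun u => G.Adj u v)).card ≤ n := card_le_univ _
            have : ((U'.filter (fun u => G.Adj u v)).card : ℤ) ≤ n := by exact_mod_cast this
            linarith
          · have : ¬ (D + t ≤ (U'.filter (fun u => G.Adj u v)).card) := by
              intro h'
              exact h (mem_filter.mpr ⟨hv, h'⟩)
            have : (U'.filter (fun u => G.Adj u v)).card ≤ D + t := by omega
            have : ((U'.filter (fun u => G.Adj u v)).card : ℤ) ≤ D + t := by exact_mod_cast this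
            linarith
        have h3 : ∑ v ∈ I', ((if v ∈ J then (n : ℤ) else 0) + (D + t))
            = J.card * n + I'.card * (D + t) := by
          rw [sum_add_distrib, sum_const, nsmul_eq_mul, ← sum_filter, sum_const, nsmul_eq_mul]
          congr 3
          congr 1
          ext v
          simp only [mem_filter, hJdef]
          tauto
        have h4 : (I'.card : ℤ) ≤ n := by exact_mod_cast card_le_univ I'
        have h5 : B G (ind U') (ind I') ≤ J.card * n + n * (D + t) := by
          rw [h1]
          refine le_trans h2 ?_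
          rw [h3]
          have : (I'.card : ℤ) * (D + t) ≤ n * (D + t) := mul_le_mul_of_nonneg_right h4 (by positivity)
          linarith
        exact_mod_cast h5
      have hJbig : θ * r / (4 * C) ≤ J.card := by
        have h1 : (n : ℝ) * (D + t) ≤ θ * m / 4 := by
          have ha : (n : ℝ) * (D + t) ≤ (C * r) * (θ * r / (8 * C) + t) := by
            apply mul_le_mul hn (by linarith) (by positivity) (by positivity)
          have hb : (C * r) * (θ * r / (8 * C) + t) = θ * (r * r) / 8 + C * t * r := by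
            field_simp
          rw [hb, hrr] at ha
          have hc : C * t * r ≤ θ * m / 8 := by
            rw [div_le_iff₀ hθ] at hr2
            have := mul_le_mul_of_nonneg_right hr2 hrpos.le
            rw [← hrr]
            linarith
          linarith
        have h2 : θ * m / 4 ≤ J.card * n := by linarith
        have h3 : θ * (r * r) / 4 ≤ J.card * (C * r) := by
          rw [hrr]
          exact le_trans h2 (mul_le_mul_of_nonneg_left hn (by positivity))
        rw [div_le_iff₀ (by positivity)]
        have h4 : (θ * r) * r ≤ (J.card * (4 * C)) * r := by linarith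
        exact le_of_mul_le_mul_right h4 hrpos
      have hJtK : (t : ℝ) * (K : ℝ) ^ t ≤ J.card := by
        refine le_trans ?_ hJbig
        rw [le_div_iff₀ (by positivity)]
        rw [div_le_iff₀ hθ] at hr4
        linarith
      have hJne : J.Nonempty := by
        rw [← card_pos]
        have : (0 : ℝ) < J.card := lt_of_lt_of_le (by positivity) hJbig
        exact_mod_cast this
      have hUKD : U'.card ≤ K * D := by
        have h1 : (U'.card : ℝ) ≤ n := by exact_mod_cast card_le_univ U'
        have h2 : (n : ℝ) ≤ K * D := by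
          refine le_trans hn ?_
          have h3 : C * r = (16 * C ^ 2 / θ) * (θ * r / (16 * C)) := by
            field_simp
          rw [h3]
          exact mul_le_mul hK.le hD2 (by positivity) hKpos.le
        exact_mod_cast le_trans h1 h2
      obtain ⟨S, J', hS, hJ', hSc, hJc, hadj⟩ := kst G K D t U' J hJne
        (fun v hv => (mem_filter.mp hv).2) hUKD
      have hJ'c : t ≤ J'.card := by
        have h1 : t * K ^ t ≤ J'.card * K ^ t := by
          have : t * K ^ t ≤ J.card := by exact_mod_cast hJtK
          exact le_trans this hJc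
        have hKt : 0 < K ^ t := by
          have : 0 < K := by exact_mod_cast hKpos
          positivity
        exact Nat.le_of_mul_le_mul_right h1 hKt
      obtain ⟨J'', hJ'', hJ''c⟩ := exists_subset_card_eq hJ'c
      exact hno S J'' hS (hJ''.trans (hJ'.trans (filter_subset _ _))) hSc hJ''c
        (fun u hu v hv => hadj u hu v (hJ'' hv))

end Pool.Agent.Helper996.Bisect
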