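import Mathlib

/-! Combinatorics on a well order with countable initial segments: a coherent sequence of
finite-to-one functions, pressing down, thinning out, countably many restrictions. -/

namespace Pool.Agent.Helper996.Dowker

/-- Coherent sequence of finite-to-one functions on a well order with countable initial segments. -/
theorem exists_coherent {W : Type*} [LinearOrder W] [WellFoundedLT W]
    (hc : ∀ a : W, (Set.Iio a).Countable) :
    ∃ e : W → W → ℕ, (∀ a k, {b | b < a ∧ e a b = k}.Finite) ∧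
      (∀ a b, b < a → {c | c < b ∧ e a c ≠ e b c}.Finite) := by
  classical
  have hz : ∀ a : W, ∃ z : ℕ → W, (∀ c, c < a → ∃ n, z n = c) ∧
      ((∃ c, c < a) → ∀ n, z n < a) := by
    intro a
    by_cases hne : (Set.Iio a).Nonempty
    · obtain ⟨z, hz⟩ := (hc a).exists_eq_range hne
      refine ⟨z, fun c hcl => ?_, fun _ n => ?_⟩
      · have : c ∈ Set.range z := by rw [← hz]; exact hcl
        exact this
      · have : z n ∈ Set.Iio a := by rw [hz]; exact ⟨n, rfl⟩
        exact this
    · exact ⟨fun _ => a, fun c hcl => (hne ⟨c, hcl⟩).elim, fun ⟨c, hcl⟩ => (hne ⟨c, hcl⟩).elim⟩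
  choose z hz1 hz2 using hz
  let nf : W → W → ℕ := fun a c => sInf {n | c ≤ z a n}
  have hnf : ∀ a c, c < a → c ≤ z a (nf a c) := by
    intro a c h
    obtain ⟨n, hn⟩ := hz1 a c h
    have : (({n | c ≤ z a n} : Set ℕ)).Nonempty := ⟨n, hn.ge⟩
    exact Nat.sInf_mem this
  have hnf2 : ∀ a c n, c ≤ z a n → nf a c ≤ n := by
    intro a c n h
    exact Nat.sInf_le h
  let F : (a : W) → ((b : W) → b < a → W → ℕ) → W → ℕ := fun a ih c =>
    if h : z a (nf a c) < a then
      (if c < z a (nf a c) then max (ih (z a (nf a c)) h c) (nf a c) else nf a c) else 0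
  let e : W → W → ℕ := wellFounded_lt.fix F
  have he : ∀ a, e a = F a (fun b _ => e b) := fun a => wellFounded_lt.fix_eq F a
  have he0 : ∀ a c, c < a → e a c =
      if c < z a (nf a c) then max (e (z a (nf a c)) c) (nf a c) else nf a c := by
    intro a c h
    have h1 := congrFun (he a) c
    rw [h1]
    have h2 : z a (nf a c) < a := hz2 a ⟨c, h⟩ _
    simp only [F, dif_pos h2]
  -- finite-to-one
  have P : ∀ a, ∀ k, {b | b < a ∧ e a b ≤ k}.Finite := by
    intro a
    induction a using WellFoundedLT.induction with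
    | _ a ih =>
      intro k
      by_cases hne : ∃ c, c < a
      · have hfin : (⋃ n ∈ Finset.range (k + 1),
            ({b | b < z a n ∧ e (z a n) b ≤ k} ∪ {z a n} : Set W)).Finite := by
          apply Set.Finite.biUnion (Finset.finite_toSet _)
          intro n _
          exact (ih (z a n) (hz2 a hne n) k).union (Set.finite_singleton _)
        refine hfin.subset ?_
        rintro b ⟨hb, hbk⟩
        rw [he0 a b hb] at hbk
        have hle := hnf a b hb
        simp only [Set.mem_iUnion, Finset.mem_range]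
        refine ⟨nf a b, ?_, ?_⟩
        · split_ifs at hbk with h
          · have := le_max_right (e (z a (nf a b)) b) (nf a b); omega
          · omega
        · split_ifs at hbk with h
          · left
            exact ⟨h, (le_max_left _ _).trans hbk⟩
          · right
            exact le_antisymm hle (not_lt.1 h)
      · refine (Set.finite_empty).subset ?_
        rintro b ⟨hb, _⟩
        exact hne ⟨b, hb⟩
  have Q : ∀ a, ∀ b, b < a → {c | c < b ∧ e a c ≠ e b c}.Finite := by
    intro a
    induction a using WellFoundedLT.induction with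
    | _ a ih =>
      intro b hb
      obtain ⟨m, hm⟩ := hz1 a b hb
      have hne : ∃ c, c < a := ⟨b, hb⟩
      have hfin : (⋃ n ∈ Finset.range (m + 1),
          (({z a n} : Set W) ∪ {c | c < b ∧ c < z a n ∧ e (z a n) c ≠ e b c}
            ∪ {c | c < b ∧ e b c ≤ n})).Finite := by
        apply Set.Finite.biUnion (Finset.finite_toSet _)
        intro n _
        refine ((Set.finite_singleton _).union ?_).union (P b n)
        rcases lt_trichotomy b (z a n) with h | h | h
        · refine (ih (z a n) (hz2 a hne n) b h).subset ?_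
          rintro c ⟨h1, _, h3⟩
          exact ⟨h1, h3⟩
        · refine (Set.finite_empty).subset ?_
          rintro c ⟨_, _, h3⟩
          exact h3 (by rw [h])
        · refine (ih b hb (z a n) h).subset ?_
          rintro c ⟨_, h2, h3⟩
          exact ⟨h2, h3.symm⟩
      refine hfin.subset ?_
      rintro c ⟨hcb, hne'⟩
      have hca : c < a := hcb.trans hb
      have hle := hnf a c hca
      have hnm : nf a c ≤ m := hnf2 a c m (by rw [hm]; exact hcb.le)
      rw [he0 a c hca] at hne'
      simp only [Set.mem_iUnion, Finset.mem_range]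
      refine ⟨nf a c, by omega, ?_⟩
      by_cases h : c < z a (nf a c)
      · rw [if_pos h] at hne'
        by_cases h2 : e b c ≤ nf a c
        · exact Or.inr ⟨hcb, h2⟩
        · left; right
          refine ⟨hcb, h, fun heq => hne' ?_⟩
          rw [heq, max_eq_left (not_le.1 h2).le]
      · left; left
        exact le_antisymm hle (not_lt.1 h)
  refine ⟨e, fun a k => ?_, Q⟩
  refine (P a k).subset ?_
  rintro b ⟨h1, h2⟩
  exact ⟨h1, h2.le⟩

/-- a weak pressing down lemma -/
theorem pressing_down {W : Type*} [LinearOrder W] [WellFoundedLT W]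
    (hc : ∀ a : W, (Set.Iio a).Countable) (hu : ¬ (Set.univ : Set W).Countable)
    (b0 : W) (f : W → W) (hf : ∀ b, b0 < b → f b < b) :
    ∃ g : W, ¬ {b | b0 < b ∧ f b = g}.Countable := by
  by_contra hcon
  push Not at hcon
  let C : ℕ → Set W := fun n => Nat.rec (Set.Iic b0) (fun _ S => S ∪ {b | b0 < b ∧ f b ∈ S}) n
  have hC0 : C 0 = Set.Iic b0 := rfl
  have hCs : ∀ n, C (n+1) = C n ∪ {b | b0 < b ∧ f b ∈ C n} := fun n => rfl
  have hcount : ∀ n, (C n).Countable := by
    intro n
    induction n with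
    | zero =>
      rw [hC0, ← Set.Iio_union_right]
      exact (hc b0).union (Set.countable_singleton b0)
    | succ n ih =>
      rw [hCs]
      refine ih.union ?_
      have : {b | b0 < b ∧ f b ∈ C n} ⊆ ⋃ g ∈ C n, {b | b0 < b ∧ f b = g} := by
        intro b hb
        simp only [Set.mem_iUnion]
        exact ⟨f b, hb.2, hb.1, rfl⟩
      exact (ih.biUnion (fun g _ => hcon g)).mono this
  have hall : ∀ b : W, ∃ n, b ∈ C n := by
    intro b
    induction b using WellFoundedLT.induction with
    | ind b ih =>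
      rcases le_or_gt b b0 with h | h
      · exact ⟨0, by rw [hC0]; exact h⟩
      · obtain ⟨n, hn⟩ := ih (f b) (hf b h)
        exact ⟨n+1, by rw [hCs]; exact Or.inr ⟨h, hn⟩⟩
  apply hu
  refine (Set.countable_iUnion hcount).mono ?_
  intro b _
  obtain ⟨n, hn⟩ := hall b
  exact Set.mem_iUnion.2 ⟨n, hn⟩

/-- thinning out an uncountable set -/
theorem thin_out {W : Type*} [LinearOrder W] [WellFoundedLT W]
    (hc : ∀ a : W, (Set.Iio a).Countable) (hu : ¬ (Set.univ : Set W).Countable)
    (T : Set W) (hT : ¬ T.Countable) (Y : W → Finset (W × ℕ)) :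
    ∃ T' ⊆ T, ¬ T'.Countable ∧ ∀ b ∈ T', ∀ b' ∈ T', b < b' → ∀ y ∈ Y b, y.1 < b' := by
  have hIic : ∀ a : W, (Set.Iic a).Countable := by
    intro a
    rw [← Set.Iio_union_right]
    exact (hc a).union (Set.countable_singleton a)
  have hbdd : ∀ A : Set W, A.Countable → ∃ d, ∀ a ∈ A, a < d := by
    intro A hA
    by_contra hcon
    push Not at hcon
    apply hu
    refine (hA.biUnion (fun a _ => hIic a)).mono ?_
    intro d _
    obtain ⟨a, ha, had⟩ := hcon d
    simp only [Set.mem_iUnion]
    exact ⟨a, ha, had⟩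
  obtain ⟨P, hP⟩ : ∃ P : W → Prop, ∀ b, P b ↔ (b ∈ T ∧ ∀ b' < b, P b' → ∀ y ∈ Y b', y.1 < b) := by
    refine ⟨(wellFounded_lt (α := W)).fix
      (fun b ih => b ∈ T ∧ ∀ b' (h : b' < b), ih b' h → ∀ y ∈ Y b', y.1 < b), fun b => ?_⟩
    conv_lhs => rw [WellFounded.fix_eq]
  refine ⟨{b | P b}, fun b hb => ((hP b).1 hb).1, ?_, ?_⟩
  · intro hS
    have h2 : (⋃ b ∈ {b | P b}, (Prod.fst '' ((Y b : Finset (W × ℕ)) : Set (W × ℕ)))).Countable :=
      hS.biUnion (fun b _ => ((Y b).countable_toSet).image _)
    obtain ⟨d, hd⟩ := hbdd _ (hS.union h2)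
    have : ∃ b ∈ T, d < b := by
      by_contra hcon
      push Not at hcon
      exact hT ((hIic d).mono (fun b hb => hcon b hb))
    obtain ⟨b, hbT, hdb⟩ := this
    have hPb : P b := by
      rw [hP]
      refine ⟨hbT, fun b' _ hPb' y hy => ?_⟩
      refine (hd y.1 (Or.inr ?_)).trans hdb
      simp only [Set.mem_iUnion]
      exact ⟨b', hPb', y, hy, rfl⟩
    exact absurd (hd b (Or.inl hPb)) (not_lt.2 hdb.le)
  · intro b hb b' hb' hbb' y hy
    exact ((hP b').1 hb').2 b hbb' hb y hy

/-- only countably many restrictions to an initial segment -/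
theorem countable_restrictions {W : Type*} [LinearOrder W]
    (hc : ∀ a : W, (Set.Iio a).Countable) (e : W → W → ℕ)
    (he : ∀ a b, b < a → {c | c < b ∧ e a c ≠ e b c}.Finite) (d : W) :
    {h : W → ℕ | ∃ a, d < a ∧ h = fun c => if c < d then e a c else 0}.Countable := by
  have hcount : ({t : Set (W × ℕ) | t.Finite ∧ t ⊆ (Set.Iio d) ×ˢ (Set.univ : Set ℕ)}).Countable :=
    Set.countable_ofPred_finite_subset ((hc d).prod Set.countable_univ)
  refine Set.MapsTo.countable_of_injOn
    (f := fun h : W → ℕ => {q : W × ℕ | q.1 < d ∧ h q.1 ≠ e d q.1 ∧ q.2 = h q.1}) ?_ ?_ hcount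
  · rintro h ⟨a, hda, rfl⟩
    refine ⟨?_, ?_⟩
    · refine ((he a d hda).image (fun c => (c, e a c))).subset ?_
      rintro ⟨c, k⟩ ⟨h1, h2, h3⟩
      simp only [h1, if_true] at h2 h3
      exact ⟨c, ⟨h1, h2⟩, by simp [h3]⟩
    · rintro ⟨c, k⟩ ⟨h1, _, _⟩
      exact ⟨h1, trivial⟩
  · rintro h ⟨a, hda, rfl⟩ g ⟨b, hdb, rfl⟩ heq
    funext c
    by_cases hcd : c < d
    · simp only [hcd, if_true]
      have key : ∀ q : W × ℕ, (q.1 < d ∧ (if q.1 < d then e a q.1 else 0) ≠ e d q.1 ∧
          q.2 = (if q.1 < d then e a q.1 else 0)) ↔ (q.1 < d ∧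
          (if q.1 < d then e b q.1 else 0) ≠ e d q.1 ∧
          q.2 = (if q.1 < d then e b q.1 else 0)) := fun q => Set.ext_iff.mp heq q
      by_cases h1 : e a c = e d c
      · by_cases h2 : e b c = e d c
        · rw [h1, h2]
        · have h3 := (key (c, e b c)).mpr ⟨hcd, by simpa [hcd] using h2, by simp [hcd]⟩
          have h4 : e b c = e a c := by
            have := h3.2.2
            simpa [hcd] using this
          exact h4.symm
      · have h3 := (key (c, e a c)).mp ⟨hcd, by simpa [hcd] using h1, by simp [hcd]⟩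
        have := h3.2.2
        simpa [hcd] using this
    · simp [hcd]

/-- simultaneous selection for finitely many finite-to-one functions -/
theorem select_seq {A ι : Type*} [Finite ι] (B : Set A) (hB : B.Infinite) (h : ι → A → ℕ)
    (hh : ∀ i k, {b | b ∈ B ∧ h i b = k}.Finite) :
    ∃ b : ℕ → A, (∀ n, b n ∈ B) ∧ ∀ i, StrictMono (fun n => h i (b n)) := by
  classical
  have key : ∀ s : Finset A, (∀ x ∈ s, x ∈ B) → ∃ y, y ∈ B ∧ ∀ x ∈ s, ∀ i, h i x < h i y := by
    intro s _
    have hfin : (⋃ x ∈ s, ⋃ i : ι, ⋃ k ∈ Finset.range (h i x + 1), {b | b ∈ B ∧ h i b = k}).Finite := by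
      refine Set.Finite.biUnion s.finite_toSet (fun x _ => ?_)
      refine Set.finite_iUnion (fun i => ?_)
      exact Set.Finite.biUnion (Finset.finite_toSet _) (fun k _ => hh i k)
    obtain ⟨y, hyB, hy⟩ := (hB.sdiff hfin).nonempty
    refine ⟨y, hyB, fun x hx i => ?_⟩
    by_contra hcon
    refine hy ?_
    simp only [Set.mem_iUnion]
    exact ⟨x, hx, i, h i y, Finset.mem_range.mpr (by omega), hyB, rfl⟩
  obtain ⟨b, hb, hb'⟩ := exists_seq_of_forall_finset_exists (fun y => y ∈ B)
    (fun x y => ∀ i, h i x < h i y) key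
  exact ⟨b, hb, fun i m n hmn => hb' m n hmn i⟩

end Pool.Agent.Helper996.Dowker
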