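import Pool.Agent.Helper996.DowkerNull
import Pool.Agent.Helper996.DowkerTree

/-! The combinatorial core of the construction. -/

namespace Pool.Agent.Helper996.Dowker

open Set MeasureTheory Topology

theorem pigeon {A V : Type*} {T : Set A} (hT : ¬ T.Countable) (f : A → V) {C : Set V}
    (hC : C.Countable) (hf : ∀ a ∈ T, f a ∈ C) : ∃ v ∈ C, ¬ {a | a ∈ T ∧ f a = v}.Countable := by
  by_contra hcon
  push Not at hcon
  apply hT
  have : T ⊆ ⋃ v ∈ C, {a | a ∈ T ∧ f a = v} := by
    intro a ha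
    simp only [Set.mem_iUnion]
    exact ⟨f a, hf a ha, ha, rfl⟩
  exact (hC.biUnion hcon).mono this

theorem countable_bdd {W : Type*} [LinearOrder W]
    (hc : ∀ a : W, (Set.Iio a).Countable) (hu : ¬ (Set.univ : Set W).Countable)
    {C : Set W} (hC : C.Countable) : ∃ d : W, ∀ c ∈ C, c < d := by
  by_contra hcon
  push Not at hcon
  apply hu
  have : (Set.univ : Set W) ⊆ ⋃ c ∈ C, Set.Iic c := by
    intro d _
    obtain ⟨c, hc1, hc2⟩ := hcon d
    simp only [Set.mem_iUnion]
    exact ⟨c, hc1, hc2⟩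
  refine (hC.biUnion fun c _ => ?_).mono this
  rw [← Set.Iio_insert]
  exact (hc c).insert c

theorem core {W : Type*} [LinearOrder W] [WellFoundedLT W]
    (hc : ∀ a : W, (Set.Iio a).Countable) (hu : ¬ (Set.univ : Set W).Countable)
    {S : Set ℝ} (hS : StrongSierpinski S) (r : W × ℕ → ℝ) (hr : Function.Injective r)
    (hrS : ∀ x, r x ∈ S)
    (e : W → W → ℕ) (he1 : ∀ a k, {b | b < a ∧ e a b = k}.Finite)
    (he2 : ∀ a b, b < a → {c | c < b ∧ e a c ≠ e b c}.Finite)
    (B T : Set W) (hB : ¬ B.Countable) (hT : ¬ T.Countable) (ξ : W)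
    (Y : W → Finset (W × ℕ)) (hY : ∀ β ∈ T, ∀ y ∈ Y β, β ≤ y.1)
    (s : W → W × ℕ → Bool)
    (H : ∀ β ∈ T, ∀ b ∈ B, ξ < b → b < β → ∃ y ∈ Y β, dig (e y.1 b) (r y) ≠ s β y) : False := by
  classical
  obtain ⟨T1, hT1T, hT1, hdisj⟩ := thin_out hc hu T hT Y
  have hIic : ∀ a : W, (Set.Iic a).Countable := fun a => by
    rw [← Set.Iio_insert]; exact (hc a).insert a
  -- B above ξ is uncountable
  have hBξ : ¬ (B ∩ Set.Ioi ξ).Countable := by
    intro h
    apply hB
    refine (h.union (hIic ξ)).mono ?_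
    intro b hb
    rcases lt_or_ge ξ b with h1 | h1
    · exact Or.inl ⟨hb, h1⟩
    · exact Or.inr h1
  have hBinf : (B ∩ Set.Ioi ξ).Infinite := fun h => hBξ h.countable
  obtain ⟨C, hCsub, hCinf, hCc⟩ : ∃ C ⊆ B ∩ Set.Ioi ξ, C.Infinite ∧ C.Countable := by
    obtain ⟨t, h1, h2, h3⟩ := hBinf.exists_subset_countable_infinite
    exact ⟨t, h1, h3, h2⟩
  obtain ⟨δ, hδ⟩ := countable_bdd hc hu hCc
  have hT2 : ¬ (T1 ∩ Set.Ioi δ).Countable := by
    intro h
    apply hT1
    refine (h.union (hIic δ)).mono ?_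
    intro b hb
    rcases lt_or_ge δ b with h1 | h1
    · exact Or.inl ⟨hb, h1⟩
    · exact Or.inr h1
  -- fix the cardinality
  obtain ⟨k, -, hk⟩ := pigeon hT2 (fun β => (Y β).card) (Set.countable_univ) (fun _ _ => Set.mem_univ _)
  set T3 := {a | a ∈ T1 ∩ Set.Ioi δ ∧ (Y a).card = k} with hT3
  have hen : ∀ β, ∃ y : Fin k → W × ℕ, β ∈ T3 →
      (Function.Injective y ∧ ∀ z, z ∈ Y β ↔ ∃ i, y i = z) := by
    intro β
    by_cases hβ : β ∈ T3
    · refine ⟨fun i => (((Y β).equivFinOfCardEq hβ.2).symm i : W × ℕ), fun _ => ⟨?_, ?_⟩⟩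
      · intro i j hij
        exact ((Y β).equivFinOfCardEq hβ.2).symm.injective (Subtype.ext hij)
      · intro z
        constructor
        · intro hz
          exact ⟨(Y β).equivFinOfCardEq hβ.2 ⟨z, hz⟩, by simp⟩
        · rintro ⟨i, rfl⟩
          exact Subtype.property _
    · exact ⟨fun _ => (δ, 0), fun h => absurd h hβ⟩
  choose y hy using hen
  -- fix signs and restrictions
  set R : Set (W → ℕ) := {h : W → ℕ | ∃ a, δ < a ∧ h = fun c => if c < δ then e a c else 0} with hR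
  have hRc : R.Countable := countable_restrictions hc e he2 δ
  have hCc2 : ((Set.univ : Set (Fin k → Bool)) ×ˢ (Set.pi Set.univ fun _ : Fin k => R)).Countable :=
    (Set.countable_univ).prod (Set.countable_univ_pi fun _ => hRc)
  obtain ⟨⟨σ, h⟩, hσh, hT4⟩ := pigeon hk
    (fun β => ((fun i => s β (y β i), fun i => (fun c => if c < δ then e (y β i).1 c else 0)) :
      (Fin k → Bool) × (Fin k → W → ℕ))) hCc2 (by
      intro β hβ
      refine ⟨Set.mem_univ _, ?_⟩
      intro i _
      refine ⟨(y β i).1, ?_, rfl⟩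
      have h1 : y β i ∈ Y β := ((hy β hβ).2 _).2 ⟨i, rfl⟩
      exact lt_of_lt_of_le hβ.1.2 (hY β (hT1T hβ.1.1) _ h1))
  set T4 := {a | a ∈ T3 ∧ ((fun i => s a (y a i), fun i => (fun c => if c < δ then e (y a i).1 c else 0)) :
      (Fin k → Bool) × (Fin k → W → ℕ)) = (σ, h)} with hT4def
  have hT4σ : ∀ β ∈ T4, ∀ i, s β (y β i) = σ i := fun β hβ i =>
    congrFun (congrArg Prod.fst hβ.2) i
  have hT4h : ∀ β ∈ T4, ∀ i c, c < δ → e (y β i).1 c = h i c := fun β hβ i c hcδ => by
    have := congrFun (congrFun (congrArg Prod.snd hβ.2) i) c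
    simpa [hcδ] using this
  have hYδ : ∀ β ∈ T4, ∀ i, β ≤ (y β i).1 := fun β hβ i =>
    hY β (hT1T hβ.1.1.1) _ (((hy β hβ.1).2 _).2 ⟨i, rfl⟩)
  obtain ⟨β0, hβ0⟩ : T4.Nonempty := by
    by_contra hne
    rw [Set.not_nonempty_iff_eq_empty] at hne
    exact hT4 (hne ▸ Set.countable_empty)
  -- the selection
  obtain ⟨b, hbC, hbmono⟩ := select_seq C hCinf h (by
    intro i m
    refine (he1 (y β0 i).1 m).subset ?_
    rintro c ⟨hc1, hc2⟩
    refine ⟨lt_of_lt_of_le (lt_trans (hδ c hc1) hβ0.1.1.2) (hYδ β0 hβ0 i), ?_⟩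
    rw [hT4h β0 hβ0 i c (hδ c hc1)]
    exact hc2)
  -- each tuple lies in the null set
  have hZ : ∀ β ∈ T4, ∀ n, ∃ i, dig (h i (b n)) (r (y β i)) ≠ σ i := by
    intro β hβ n
    have h1 := hCsub (hbC n)
    obtain ⟨z, hz, hz2⟩ := H β (hT1T hβ.1.1.1) (b n) h1.1 h1.2
      (lt_trans (hδ _ (hbC n)) hβ.1.1.2)
    obtain ⟨i, rfl⟩ := ((hy β hβ.1).2 z).1 hz
    refine ⟨i, ?_⟩
    rw [← hT4h β hβ i (b n) (hδ _ (hbC n)), ← hT4σ β hβ i]
    exact hz2
  have hsep : ∀ β ∈ T4, ∀ β' ∈ T4, β < β' → ∀ i j, y β i ≠ y β' j := by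
    intro β hβ β' hβ' hlt i j heq
    have h1 := hdisj β hβ.1.1.1 β' hβ'.1.1.1 hlt (y β i) (((hy β hβ.1).2 _).2 ⟨i, rfl⟩)
    have h2 := hYδ β' hβ' j
    rw [← heq] at h2
    exact absurd h1 (not_lt.2 h2)
  have hsep' : ∀ β ∈ T4, ∀ β' ∈ T4, β ≠ β' → ∀ i j, y β i ≠ y β' j := by
    intro β hβ β' hβ' hne i j heq
    rcases lt_or_gt_of_ne hne with h1 | h1
    · exact hsep β hβ β' hβ' h1 i j heq
    · exact hsep β' hβ' β hβ h1 j i heq.symm
  set F : Set (Fin k → ℝ) := (fun β => fun i => r (y β i)) '' T4 with hF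
  have hFnull : volume F = 0 := by
    refine measure_mono_null ?_ (null_tuples k (fun i n => h i (b n))
      (fun i => (hbmono i).injective) σ)
    rintro _ ⟨β, hβ, rfl⟩
    exact hZ β hβ
  obtain ⟨i0, -⟩ := hZ β0 hβ0 0
  refine hS.2 k F ?_ ?_ ?_ ?_ hFnull
  · intro hFc
    apply hT4
    refine (Set.countable_of_injective_of_countable_image ?_ hFc)
    intro β hβ β' hβ' heq
    by_contra hne
    exact hsep' β hβ β' hβ' hne i0 i0 (hr (congrFun heq i0))
  · rintro _ ⟨β, hβ, rfl⟩ i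
    exact hrS _
  · rintro _ ⟨β, hβ, rfl⟩ i j hij
    exact (hy β hβ.1).1 (hr hij)
  · rintro _ ⟨β, hβ, rfl⟩ _ ⟨β', hβ', rfl⟩ hne
    have hne' : β ≠ β' := by
      rintro rfl
      exact hne rfl
    refine Set.disjoint_left.2 ?_
    rintro _ ⟨i, rfl⟩ ⟨j, hj⟩
    exact hsep' β hβ β' hβ' hne' i j (hr hj.symm)

theorem exists_finset_of_notMem_closure {X ι : Type*} [TopologicalSpace X] {φ : X → ι → Bool}
    (hφ : IsInducing φ) {A : Set X} {p : X} (hp : p ∉ closure A) :
    ∃ I : Finset ι, ∀ x ∈ A, ∃ i ∈ I, φ x i ≠ φ p i := by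
  rw [hφ.closure_eq_preimage_closure_image] at hp
  have h1 : φ p ∈ (closure (φ '' A))ᶜ := hp
  obtain ⟨I, u, hu, hsub⟩ := isOpen_pi_iff.1 (isClosed_closure.isOpen_compl) (φ p) h1
  refine ⟨I, fun x hx => ?_⟩
  by_contra hcon
  push Not at hcon
  have h2 : φ x ∈ (I : Set ι).pi u := fun i hi => by
    rw [hcon i hi]
    exact (hu i hi).2
  exact hsub h2 (subset_closure ⟨x, hx, rfl⟩)

open Classical in
/-- The encoding of the points: coordinate `inl y` is the indicator of the basic set `N y`,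
coordinate `inr g` the indicator of the initial segment up to `g`. -/
noncomputable def enc {W : Type*} [LinearOrder W] (e : W → W → ℕ) (r : W × ℕ → ℝ) (x : W × ℕ) :
    (W × ℕ) ⊕ W → Bool
  | .inl y => decide (x = y ∨ (x.1 < y.1 ∧ x.2 < y.2 ∧ dig (e y.1 x.1) (r y) = true))
  | .inr g => decide (x.1 ≤ g)

theorem extract {W : Type*} [LinearOrder W] (e : W → W → ℕ) (r : W × ℕ → ℝ)
    [TopologicalSpace (W × ℕ)] (hφ : IsInducing (enc e r)) (b0 β : W) (hβ : b0 < β) (m M : ℕ)
    (hmM : m < M) (A : Set (W × ℕ)) (hp : (β, M) ∉ closure {x | x ∈ A ∧ x.2 = m}) :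
    ∃ g < β, ∃ Y : Finset (W × ℕ), (∀ y ∈ Y, β ≤ y.1) ∧ ∃ s : W × ℕ → Bool,
      ∀ b, (b, m) ∈ A → g < b → b < β → ∃ y ∈ Y, dig (e y.1 b) (r y) ≠ s y := by
  classical
  obtain ⟨I, hI⟩ := exists_finset_of_notMem_closure hφ hp
  -- the maximum of the relevant indices below β
  obtain ⟨g, hg, hgI⟩ : ∃ g < β, ∀ i ∈ I, (∀ y, i = Sum.inl y → y.1 < β → y.1 ≤ g) ∧
      (∀ w, i = Sum.inr w → w < β → w ≤ g) := by
    clear hI
    induction I using Finset.induction_on with
    | empty => exact ⟨b0, hβ, by simp⟩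
    | insert j J _ ih =>
      obtain ⟨g, hg, hgJ⟩ := ih
      rcases j with y | w
      · by_cases hy : y.1 < β
        · refine ⟨max g y.1, max_lt hg hy, ?_⟩
          intro i hi
          rcases Finset.mem_insert.1 hi with rfl | hi
          · refine ⟨?_, ?_⟩
            · intro y' hy' _
              obtain rfl := Sum.inl.inj hy'
              exact le_max_right _ _
            · intro w hw
              exact absurd hw (by simp)
          · exact ⟨fun y' h1 h2 => ((hgJ i hi).1 y' h1 h2).trans (le_max_left _ _),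
              fun w h1 h2 => ((hgJ i hi).2 w h1 h2).trans (le_max_left _ _)⟩
        · refine ⟨g, hg, ?_⟩
          intro i hi
          rcases Finset.mem_insert.1 hi with rfl | hi
          · refine ⟨?_, ?_⟩
            · intro y' hy' h
              obtain rfl := Sum.inl.inj hy'
              exact absurd h hy
            · intro w hw
              exact absurd hw (by simp)
          · exact hgJ i hi
      · by_cases hw : w < β
        · refine ⟨max g w, max_lt hg hw, ?_⟩
          intro i hi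
          rcases Finset.mem_insert.1 hi with rfl | hi
          · refine ⟨?_, ?_⟩
            · intro y' hy'
              exact absurd hy' (by simp)
            · intro w' hw' _
              obtain rfl := Sum.inr.inj hw'
              exact le_max_right _ _
          · exact ⟨fun y' h1 h2 => ((hgJ i hi).1 y' h1 h2).trans (le_max_left _ _),
              fun w h1 h2 => ((hgJ i hi).2 w h1 h2).trans (le_max_left _ _)⟩
        · refine ⟨g, hg, ?_⟩
          intro i hi
          rcases Finset.mem_insert.1 hi with rfl | hi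
          · refine ⟨?_, ?_⟩
            · intro y' hy'
              exact absurd hy' (by simp)
            · intro w' hw' h
              obtain rfl := Sum.inr.inj hw'
              exact absurd h hw
          · exact hgJ i hi
  refine ⟨g, hg, (I.toLeft).filter (fun y => β ≤ y.1), ?_, fun y => enc e r (β, M) (Sum.inl y), ?_⟩
  · intro y hy
    exact (Finset.mem_filter.1 hy).2
  · intro b hbA hgb hbβ
    obtain ⟨i, hi, hne⟩ := hI (b, m) ⟨hbA, rfl⟩
    rcases i with y | w
    · by_cases hy : y.1 < β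
      · exfalso
        apply hne
        have h1 := (hgI _ hi).1 y rfl hy
        have h2 : y.1 < b := lt_of_le_of_lt h1 hgb
        have e1 : enc e r (b, m) (Sum.inl y) = false := by
          simp only [enc, decide_eq_false_iff_not, not_or]
          exact ⟨fun h => absurd (congrArg Prod.fst h) h2.ne', fun h => absurd h.1 (not_lt.2 h2.le)⟩
        have e2 : enc e r (β, M) (Sum.inl y) = false := by
          simp only [enc, decide_eq_false_iff_not, not_or]
          exact ⟨fun h => absurd (congrArg Prod.fst h) hy.ne', fun h => absurd h.1 (not_lt.2 hy.le)⟩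
        rw [e1, e2]
      · rw [not_lt] at hy
        refine ⟨y, ?_, ?_⟩
        · rw [Finset.mem_filter, Finset.mem_toLeft]
          exact ⟨hi, hy⟩
        · intro heq0
          have heq : dig (e y.1 b) (r y) = enc e r (β, M) (Sum.inl y) := heq0
          apply hne
          show enc e r (b, m) (Sum.inl y) = enc e r (β, M) (Sum.inl y)
          rw [← heq]
          have hby : b < y.1 := lt_of_lt_of_le hbβ hy
          have hxy : (b, m) ≠ y := fun h => absurd (congrArg Prod.fst h) hby.ne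
          cases hd : dig (e y.1 b) (r y) with
          | true =>
            rw [hd] at heq
            have h3 : m < y.2 := by
              simp only [enc] at heq
              have h4 := of_decide_eq_true heq.symm
              rcases h4 with h4 | h4
              · rw [← h4]; exact hmM
              · exact hmM.trans h4.2.1
            simp only [enc, decide_eq_true_eq]
            exact Or.inr ⟨hby, h3, hd⟩
          | false =>
            simp only [enc, decide_eq_false_iff_not, not_or]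
            exact ⟨hxy, fun h => absurd (hd.symm.trans h.2.2) (by simp)⟩
    · exfalso
      apply hne
      by_cases hw : w < β
      · have h1 := (hgI _ hi).2 w rfl hw
        have h2 : w < b := lt_of_le_of_lt h1 hgb
        simp only [enc]
        rw [decide_eq_false (not_le.2 h2), decide_eq_false (not_le.2 hw)]
      · rw [not_lt] at hw
        simp only [enc]
        rw [decide_eq_true (hbβ.le.trans hw), decide_eq_true hw]

theorem key {W : Type*} [LinearOrder W] [WellFoundedLT W]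
    (hc : ∀ a : W, (Set.Iio a).Countable) (hu : ¬ (Set.univ : Set W).Countable)
    {S : Set ℝ} (hS : StrongSierpinski S) (r : W × ℕ → ℝ) (hr : Function.Injective r)
    (hrS : ∀ x, r x ∈ S)
    (e : W → W → ℕ) (he1 : ∀ a k, {b | b < a ∧ e a b = k}.Finite)
    (he2 : ∀ a b, b < a → {c | c < b ∧ e a c ≠ e b c}.Finite)
    [TopologicalSpace (W × ℕ)] (hφ : IsInducing (enc e r)) (A C : Set (W × ℕ))
    (hA : IsClosed A) (hC : IsClosed C) (hAu : ¬ A.Countable) (hCu : ¬ C.Countable) (n : ℕ) :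
    ∃ x ∈ A ∩ C, n ≤ x.2 := by
  classical
  have level : ∀ A : Set (W × ℕ), ¬ A.Countable → ∃ m, ¬ {b | (b, m) ∈ A}.Countable := by
    intro A hA
    by_contra hcon
    push Not at hcon
    apply hA
    have : A ⊆ ⋃ m, (fun b => (b, m)) '' {b | (b, m) ∈ A} := by
      rintro ⟨b, m⟩ hb
      rw [Set.mem_iUnion]
      exact ⟨m, b, hb, rfl⟩
    exact (Set.countable_iUnion fun m => (hcon m).image _).mono this
  obtain ⟨m, hm⟩ := level A hAu
  obtain ⟨m', hm'⟩ := level C hCu
  by_contra hcon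
  push Not at hcon
  set M := max (max m m') n + 1 with hM
  have hMm : m < M := by omega
  have hMm' : m' < M := by omega
  have hMn : n ≤ M := by omega
  obtain ⟨b0⟩ : Nonempty W := by
    by_contra hne
    rw [not_nonempty_iff] at hne
    exact hu (Set.countable_univ)
  have clA : closure {x | x ∈ A ∧ x.2 = m} ⊆ A := closure_minimal (fun x hx => hx.1) hA
  have clC : closure {x | x ∈ C ∧ x.2 = m'} ⊆ C := closure_minimal (fun x hx => hx.1) hC
  have hex : ∀ β, ∃ g, ∃ Y : Finset (W × ℕ), ∃ s : W × ℕ → Bool, b0 < β → (g < β ∧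
      (∀ y ∈ Y, β ≤ y.1) ∧
      ((∀ b, (b, m) ∈ A → g < b → b < β → ∃ y ∈ Y, dig (e y.1 b) (r y) ≠ s y) ∨
       (∀ b, (b, m') ∈ C → g < b → b < β → ∃ y ∈ Y, dig (e y.1 b) (r y) ≠ s y))) := by
    intro β
    by_cases hβ : b0 < β
    · by_cases h1 : (β, M) ∈ closure {x | x ∈ A ∧ x.2 = m}
      · have h2 : (β, M) ∉ closure {x | x ∈ C ∧ x.2 = m'} := by
          intro h2
          have := hcon (β, M) ⟨clA h1, clC h2⟩
          exact absurd hMn (not_le.2 this)
        obtain ⟨g, hg, Y, hY, s, hs⟩ := extract e r hφ b0 β hβ m' M hMm' C h2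
        exact ⟨g, Y, s, fun _ => ⟨hg, hY, Or.inr hs⟩⟩
      · obtain ⟨g, hg, Y, hY, s, hs⟩ := extract e r hφ b0 β hβ m M hMm A h1
        exact ⟨g, Y, s, fun _ => ⟨hg, hY, Or.inl hs⟩⟩
    · exact ⟨b0, ∅, fun _ => true, fun h => absurd h hβ⟩
  choose g Y s hg using hex
  obtain ⟨ξ, hξ⟩ := pressing_down hc hu b0 g (fun b hb => (hg b hb).1)
  have hsplit : {b | b0 < b ∧ g b = ξ} ⊆
      {β | (b0 < β ∧ g β = ξ) ∧ (∀ b, (b, m) ∈ A → g β < b → b < β →
        ∃ y ∈ Y β, dig (e y.1 b) (r y) ≠ s β y)} ∪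
      {β | (b0 < β ∧ g β = ξ) ∧ (∀ b, (b, m') ∈ C → g β < b → b < β →
        ∃ y ∈ Y β, dig (e y.1 b) (r y) ≠ s β y)} := by
    intro β hβ
    rcases (hg β hβ.1).2.2 with h | h
    · exact Or.inl ⟨hβ, h⟩
    · exact Or.inr ⟨hβ, h⟩
  by_cases h1 : {β | (b0 < β ∧ g β = ξ) ∧ (∀ b, (b, m) ∈ A → g β < b → b < β →
        ∃ y ∈ Y β, dig (e y.1 b) (r y) ≠ s β y)}.Countable
  · have h2 : ¬ {β | (b0 < β ∧ g β = ξ) ∧ (∀ b, (b, m') ∈ C → g β < b → b < β →
        ∃ y ∈ Y β, dig (e y.1 b) (r y) ≠ s β y)}.Countable := by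
      intro h2
      exact hξ ((h1.union h2).mono hsplit)
    refine core hc hu hS r hr hrS e he1 he2 {b | (b, m') ∈ C} _ hm' h2 ξ Y ?_ s ?_
    · intro β hβ y hy
      exact (hg β hβ.1.1).2.1 y hy
    · intro β hβ b hb h3 h4
      exact hβ.2 b hb (by rw [hβ.1.2]; exact h3) h4
  · refine core hc hu hS r hr hrS e he1 he2 {b | (b, m) ∈ A} _ hm h1 ξ Y ?_ s ?_
    · intro β hβ y hy
      exact (hg β hβ.1.1).2.1 y hy
    · intro β hβ b hb h3 h4
      exact hβ.2 b hb (by rw [hβ.1.2]; exact h3) h4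

end Pool.Agent.Helper996.Dowker
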