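import Mathlib

/-! Definitions for the Dowker space built from a strong Sierpinski set. -/

namespace Pool.Agent.Helper996.Dowker

open Set MeasureTheory

/-- A strong Sierpinski set: an uncountable set of reals such that, for every `n`, no uncountable
family of injective `n`-tuples of its elements with pairwise disjoint ranges is Lebesgue null in
`ℝ^n`. For `n = 1` this says that every uncountable subset is non-null, i.e. the set is a
Sierpinski set. -/
def StrongSierpinski (S : Set ℝ) : Prop :=
  ¬ S.Countable ∧ ∀ (n : ℕ) (F : Set (Fin n → ℝ)), ¬ F.Countable →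
    (∀ t ∈ F, ∀ i, t i ∈ S) → (∀ t ∈ F, Function.Injective t) →
    F.PairwiseDisjoint Set.range → volume F ≠ 0

/-- Countable paracompactness: every countable open cover has a locally finite open refinement
(again a cover). -/
def CountablyParacompact (X : Type) [TopologicalSpace X] : Prop :=
  ∀ U : ℕ → Set X, (∀ n, IsOpen (U n)) → (⋃ n, U n) = Set.univ →
    ∃ (ι : Type) (V : ι → Set X), (∀ i, IsOpen (V i)) ∧ (⋃ i, V i) = Set.univ ∧
      LocallyFinite V ∧ ∀ i, ∃ n, V i ⊆ U n

/-- A Dowker space: normal, Hausdorff, not countably paracompact. -/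
structure IsDowker (X : Type) [TopologicalSpace X] : Prop where
  t2 : T2Space X
  normal : NormalSpace X
  not_cp : ¬ CountablyParacompact X

/-- the `j`-th binary digit of a real -/
noncomputable def dig (j : ℕ) (x : ℝ) : Bool := decide (⌊(2:ℝ) ^ j * x⌋ % 2 = 1)

end Pool.Agent.Helper996.Dowker
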