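import Pool.Agent.Helper996.DowkerDefs

/-! Null sets of tuples with prescribed digits. -/

namespace Pool.Agent.Helper996.Dowker


theorem null_one_key (j : ℕ) (c : Bool) (x : ℝ) (hx : dig j x = c) (e : ℤ) (he : e = if c then -1 else 1) :
    dig j (x + e / 2 ^ j) ≠ c ∧ ∀ i, i ≠ j → dig i (x + e / 2 ^ j) = dig i x := by
  have h2j : (2 : ℝ) ^ j ≠ 0 := by positivity
  obtain ⟨a, ha⟩ : ∃ a : ℤ, a = ⌊(2 : ℝ) ^ j * x⌋ := ⟨_, rfl⟩
  have h1 : (2 : ℝ) ^ j * (x + e / 2 ^ j) = 2 ^ j * x + ((e : ℤ) : ℝ) := by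
    field_simp
  have hfl : ⌊(2 : ℝ) ^ j * (x + e / 2 ^ j)⌋ = a + e := by
    rw [h1, Int.floor_add_intCast, ha]
  have hpar : (a % 2 = 1 ↔ c = true) := by
    rw [← hx, ha]
    unfold dig
    simp
  have hhalf : (a + e) / 2 = a / 2 := by
    cases c
    · simp at hpar he
      omega
    · simp at hpar he
      omega
  constructor
  · unfold dig
    rw [hfl]
    cases c
    · simp at hpar he ⊢
      omega
    · simp at hpar he ⊢
      omega
  · intro i hij
    unfold dig
    rcases lt_or_gt_of_ne hij with h | h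
    · obtain ⟨k, rfl⟩ : ∃ k, j = i + (k + 1) := ⟨j - i - 1, by omega⟩
      have h3 : ∀ z : ℝ, ⌊(2 : ℝ) ^ i * z⌋ = ⌊(2 : ℝ) ^ (i + (k + 1)) * z⌋ / 2 / 2 ^ k := by
        intro z
        have h4 : (2 : ℝ) ^ i * z = (2 : ℝ) ^ (i + (k + 1)) * z / ((2 ^ (k + 1) : ℕ) : ℝ) := by
          push_cast
          rw [pow_add]
          field_simp
        rw [h4, Int.floor_div_natCast]
        push_cast
        rw [pow_succ', Int.ediv_ediv_of_nonneg (by norm_num)]
      rw [h3, h3, hfl, ← ha, hhalf]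
    · obtain ⟨k, rfl⟩ : ∃ k, i = j + (k + 1) := ⟨i - j - 1, by omega⟩
      have h3 : (2 : ℝ) ^ (j + (k + 1)) * (x + e / 2 ^ j) =
          2 ^ (j + (k + 1)) * x + ((2 * (e * 2 ^ k) : ℤ) : ℝ) := by
        push_cast
        rw [pow_add]
        field_simp
        ring
      rw [h3, Int.floor_add_intCast]
      congr 2
      omega

theorem measurable_dig (j : ℕ) : Measurable (dig j) := by
  have h1 : Measurable (fun x : ℝ => ⌊(2 : ℝ) ^ j * x⌋) :=
    Int.measurable_floor.comp (measurable_const_mul _)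
  have h2 : Measurable (fun a : ℤ => decide (a % 2 = 1)) := measurable_from_top
  exact h2.comp h1

theorem null_one (j : ℕ → ℕ) (hj : Function.Injective j) (c : Bool) :
    MeasureTheory.volume {x : ℝ | ∀ n, dig (j n) x = c} = 0 := by
  obtain ⟨Z, hZ⟩ : ∃ Z : Set ℝ, Z = {x : ℝ | ∀ n, dig (j n) x = c} := ⟨_, rfl⟩
  rw [← hZ]
  have hZm : MeasurableSet Z := by
    rw [hZ, Set.ofPred_forall]
    exact MeasurableSet.iInter (fun n => (measurable_dig (j n)) (measurableSet_singleton c))
  obtain ⟨e, he⟩ : ∃ e : ℤ, e = if c then -1 else 1 := ⟨_, rfl⟩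
  have hR : ∀ R : ℕ, MeasureTheory.volume (Z ∩ Set.Icc (-(R : ℝ)) R) = 0 := by
    intro R
    obtain ⟨W, hW⟩ : ∃ W : Set ℝ, W = Z ∩ Set.Icc (-(R : ℝ)) R := ⟨_, rfl⟩
    rw [← hW]
    have hWm : MeasurableSet W := by rw [hW]; exact hZm.inter measurableSet_Icc
    have hWn : ∀ n, MeasureTheory.volume ((fun y : ℝ => y + -((e : ℝ) / 2 ^ (j n))) ⁻¹' W) =
        MeasureTheory.volume W := fun n => MeasureTheory.measure_preimage_add_right _ _ _
    have hmem : ∀ n, ∀ y ∈ (fun y : ℝ => y + -((e : ℝ) / 2 ^ (j n))) ⁻¹' W,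
        dig (j n) y ≠ c ∧ ∀ m, m ≠ n → dig (j m) y = c := by
      intro n y hy
      have h1 : y + -((e : ℝ) / 2 ^ (j n)) ∈ W := hy
      rw [hW] at h1
      have h2 := h1.1
      rw [hZ] at h2
      have h3 : ∀ m, dig (j m) (y + -((e : ℝ) / 2 ^ (j n))) = c := h2
      have h4 := null_one_key (j n) c _ (h3 n) e he
      rw [neg_add_cancel_right] at h4
      refine ⟨h4.1, fun m hm => ?_⟩
      rw [h4.2 (j m) (fun h => hm (hj h))]
      exact h3 m
    have hdisj : Pairwise (Function.onFun Disjoint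
        (fun n => (fun y : ℝ => y + -((e : ℝ) / 2 ^ (j n))) ⁻¹' W)) := by
      intro n m hnm
      rw [Function.onFun, Set.disjoint_left]
      intro y hy hy'
      exact (hmem n y hy).1 ((hmem m y hy').2 n hnm)
    have hsub : (⋃ n, (fun y : ℝ => y + -((e : ℝ) / 2 ^ (j n))) ⁻¹' W) ⊆
        Set.Icc (-(R : ℝ) - 1) (R + 1) := by
      apply Set.iUnion_subset
      intro n y hy
      have h1 : y + -((e : ℝ) / 2 ^ (j n)) ∈ W := hy
      rw [hW] at h1
      have h2 := h1.2
      rw [Set.mem_Icc] at h2 ⊢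
      have h3 : |(e : ℝ) / 2 ^ (j n)| ≤ 1 := by
        rw [abs_div, abs_of_pos (by positivity : (0 : ℝ) < 2 ^ (j n)), div_le_one (by positivity)]
        have h4 : |(e : ℝ)| = 1 := by
          rw [he]
          cases c <;> simp
        rw [h4]
        exact one_le_pow₀ (by norm_num)
      rw [abs_le] at h3
      constructor <;> linarith [h2.1, h2.2, h3.1, h3.2]
    have htop : MeasureTheory.volume (⋃ n, (fun y : ℝ => y + -((e : ℝ) / 2 ^ (j n))) ⁻¹' W) ≠ ⊤ := by
      apply ne_of_lt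
      refine (MeasureTheory.measure_mono hsub).trans_lt ?_
      rw [Real.volume_Icc]
      exact ENNReal.ofReal_lt_top
    rw [MeasureTheory.measure_iUnion hdisj (fun n => (measurable_add_const _) hWm)] at htop
    by_contra hne
    apply htop
    simp_rw [hWn]
    exact ENNReal.tsum_const_eq_top_of_ne_zero hne
  have hcov : Z ⊆ ⋃ R : ℕ, Z ∩ Set.Icc (-(R : ℝ)) R := by
    intro x hx
    obtain ⟨R, hR⟩ := exists_nat_ge |x|
    rw [Set.mem_iUnion]
    exact ⟨R, hx, abs_le.1 hR⟩
  exact MeasureTheory.measure_mono_null hcov (MeasureTheory.measure_iUnion_null hR)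


theorem null_tuples
    (k : ℕ) (j : Fin k → ℕ → ℕ) (hj : ∀ i, Function.Injective (j i)) (s : Fin k → Bool) :
    MeasureTheory.volume {x : Fin k → ℝ | ∀ n, ∃ i, dig (j i n) (x i) ≠ s i} = 0 := by
  induction k with
  | zero =>
    have : {x : Fin 0 → ℝ | ∀ n, ∃ i, dig (j i n) (x i) ≠ s i} = ∅ := by
      ext x
      simp
    rw [this]
    exact MeasureTheory.measure_empty
  | succ k ih =>
    have hmp := MeasureTheory.volume_preserving_piFinSuccAbove (fun _ : Fin (k + 1) => ℝ) 0
    set W : Set (ℝ × (Fin k → ℝ)) :=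
      {p | ∀ n, dig (j 0 n) p.1 ≠ s 0 ∨ ∃ i : Fin k, dig (j i.succ n) (p.2 i) ≠ s i.succ} with hW
    have hWm : MeasurableSet W := by
      have : W = ⋂ n, ({p : ℝ × (Fin k → ℝ) | dig (j 0 n) p.1 ≠ s 0} ∪
          ⋃ i : Fin k, {p : ℝ × (Fin k → ℝ) | dig (j i.succ n) (p.2 i) ≠ s i.succ}) := by
        ext p
        simp [hW]
      rw [this]
      refine MeasurableSet.iInter fun n => MeasurableSet.union ?_ (MeasurableSet.iUnion fun i => ?_)
      · exact ((measurable_dig _).comp measurable_fst) (measurableSet_singleton (s 0)).compl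
      · exact ((measurable_dig _).comp ((measurable_pi_apply i).comp measurable_snd))
          (measurableSet_singleton (s i.succ)).compl
    have hpre : {x : Fin (k + 1) → ℝ | ∀ n, ∃ i, dig (j i n) (x i) ≠ s i}
        = (MeasurableEquiv.piFinSuccAbove (fun _ : Fin (k + 1) => ℝ) 0) ⁻¹' W := by
      ext x
      simp only [Set.mem_ofPred_eq, Set.mem_preimage, hW, Fin.exists_fin_succ]
      rfl
    rw [hpre, hmp.measure_preimage hWm.nullMeasurableSet]
    refine (MeasureTheory.Measure.measure_prod_null hWm).2 ?_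
    have hN : MeasureTheory.volume (⋃ m : ℕ, {x : ℝ | ∀ n, dig (j 0 (n + m)) x = !(s 0)}) = 0 := by
      rw [MeasureTheory.measure_iUnion_null_iff]
      intro m
      exact null_one (fun n => j 0 (n + m)) (fun a b hab => by
        have := hj 0 hab
        omega) _
    rw [MeasureTheory.measure_eq_zero_iff_ae_notMem] at hN
    filter_upwards [hN] with x0 hx0
    have hfr : ∃ᶠ n in Filter.atTop, dig (j 0 n) x0 = s 0 := by
      rw [Filter.frequently_atTop]
      intro m
      simp only [Set.mem_iUnion, Set.mem_ofPred_eq, not_exists, not_forall] at hx0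
      obtain ⟨n, hn⟩ := hx0 m
      refine ⟨n + m, by omega, ?_⟩
      revert hn
      cases dig (j 0 (n + m)) x0 <;> cases s 0 <;> simp
    obtain ⟨φ, hφ, hφ2⟩ := Filter.extraction_of_frequently_atTop hfr
    refine MeasureTheory.measure_mono_null ?_ (ih (fun i n => j i.succ (φ n))
      (fun i => (hj i.succ).comp hφ.injective) (fun i => s i.succ))
    intro x hx l
    have h1 := hx (φ l)
    rcases h1 with h1 | h1
    · exact absurd (hφ2 l) h1
    · exact h1

end Pool.Agent.Helper996.Dowker
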