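import Pool.Agent.Helper996.DowkerDefs

/-! The topological part. -/

namespace Pool.Agent.Helper996.Dowker

open Set Topology

theorem not_cp {X : Type} [TopologicalSpace X] (D : ℕ → Set X) (hD : ∀ n, IsClosed (D n))
    (hanti : Antitone D) (hemp : (⋂ n, D n) = ∅)
    (hU : ∀ U : ℕ → Set X, (∀ n, IsOpen (U n)) → (∀ n, D n ⊆ U n) → (⋂ n, U n).Nonempty) :
    ¬ CountablyParacompact X := by
  intro hcp
  obtain ⟨ι, V, hVo, hVc, hVf, hVr⟩ := hcp (fun n => (D n)ᶜ) (fun n => (hD n).isOpen_compl) (by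
    rw [← Set.compl_iInter, hemp, Set.compl_empty])
  obtain ⟨x, hx⟩ := hU (fun n => ⋃ i ∈ {i | (V i ∩ D n).Nonempty}, V i)
    (fun n => isOpen_biUnion fun i _ => hVo i) (by
      intro n y hy
      have : y ∈ ⋃ i, V i := by rw [hVc]; trivial
      obtain ⟨i, hi⟩ := Set.mem_iUnion.1 this
      exact Set.mem_biUnion (show i ∈ {i | (V i ∩ D n).Nonempty} from ⟨y, hi, hy⟩) hi)
  rw [Set.mem_iInter] at hx
  have hfin : {i | x ∈ V i}.Finite := hVf.point_finite x
  choose N hN using hVr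
  obtain ⟨M, hM⟩ := (hfin.image N).bddAbove
  have := hx M
  simp only [Set.mem_iUnion] at this
  obtain ⟨i, hi, hxi⟩ := this
  obtain ⟨z, hz1, hz2⟩ := hi
  have h1 : N i ≤ M := hM ⟨i, hxi, rfl⟩
  exact hN i hz1 (hanti h1 hz2)

/-- separating a countable closed set in a zero-dimensional-like situation -/
theorem sep_countable {X : Type} [TopologicalSpace X] [RegularSpace X] {A C I : Set X}
    (hA : IsClosed A) (hC : IsClosed C) (hAC : Disjoint A C) (hI : IsClopen I)
    (hIc : I.Countable) (hAI : A ⊆ I) : SeparatedNhds A C := by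
  have : Countable I := hIc.to_subtype
  have : NormalSpace I := NormalSpace.of_regularSpace_lindelofSpace
  have h1 : IsClosed ((Subtype.val : I → X) ⁻¹' A) := hA.preimage continuous_subtype_val
  have h2 : IsClosed ((Subtype.val : I → X) ⁻¹' C) := hC.preimage continuous_subtype_val
  obtain ⟨U, V, hU, hV, hAU, hCV, hUV⟩ := normal_separation h1 h2 (hAC.preimage _)
  refine ⟨Subtype.val '' U, (Subtype.val '' V) ∪ Iᶜ, ?_, ?_, ?_, ?_, ?_⟩
  · exact hI.isOpen.isOpenMap_subtype_val _ hU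
  · exact (hI.isOpen.isOpenMap_subtype_val _ hV).union hI.isClosed.isOpen_compl
  · intro a ha
    exact ⟨⟨a, hAI ha⟩, hAU ha, rfl⟩
  · intro c hc
    by_cases hcI : c ∈ I
    · exact Or.inl ⟨⟨c, hcI⟩, hCV hc, rfl⟩
    · exact Or.inr hcI
  · rw [Set.disjoint_left]
    rintro _ ⟨u, hu, rfl⟩ hh
    rcases hh with ⟨v, hv, hvu⟩ | hh
    · have : v = u := Subtype.ext hvu
      subst this
      exact Set.disjoint_left.1 hUV hu hv
    · exact hh u.2

theorem finish {X : Type} [TopologicalSpace X] [RegularSpace X] (lev : X → ℕ)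
    (hlev : ∀ n, IsOpen {x | lev x < n})
    (hI : ∀ A : Set X, A.Countable → ∃ I, IsClopen I ∧ I.Countable ∧ A ⊆ I)
    (hu : ¬ (Set.univ : Set X).Countable)
    (key : ∀ A C : Set X, IsClosed A → IsClosed C → ¬ A.Countable → ¬ C.Countable →
      ∀ n, ∃ x ∈ A ∩ C, n ≤ lev x) :
    NormalSpace X ∧ (∃ D : ℕ → Set X, (∀ n, IsClosed (D n)) ∧ Antitone D ∧ (⋂ n, D n) = ∅ ∧
      ∀ U : ℕ → Set X, (∀ n, IsOpen (U n)) → (∀ n, D n ⊆ U n) → (⋂ n, U n).Nonempty) := by
  constructor
  · refine ⟨fun A C hA hC hAC => ?_⟩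
    by_cases hAc : A.Countable
    · obtain ⟨I, hI1, hI2, hI3⟩ := hI A hAc
      exact sep_countable hA hC hAC hI1 hI2 hI3
    · by_cases hCc : C.Countable
      · obtain ⟨I, hI1, hI2, hI3⟩ := hI C hCc
        exact (sep_countable hC hA hAC.symm hI1 hI2 hI3).symm
      · obtain ⟨x, hx, -⟩ := key A C hA hC hAc hCc 0
        exact absurd hx.2 (Set.disjoint_left.1 hAC hx.1)
  · refine ⟨fun n => {x | n ≤ lev x}, fun n => ?_, ?_, ?_, ?_⟩
    · show IsClosed {x | n ≤ lev x}
      have : {x : X | n ≤ lev x} = {x | lev x < n}ᶜ := by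
        ext x; simp
      rw [this]
      exact (hlev n).isClosed_compl
    · intro m n hmn x hx
      exact le_trans hmn hx
    · ext x
      simp only [Set.mem_iInter, Set.mem_empty_iff_false, iff_false, not_forall]
      exact ⟨lev x + 1, fun h => absurd (show lev x + 1 ≤ lev x from h) (by omega)⟩
    · intro U hU hDU
      by_contra hne
      rw [Set.not_nonempty_iff_eq_empty] at hne
      apply hu
      have h1 : (Set.univ : Set X) ⊆ ⋃ n, (U n)ᶜ := by
        rw [← Set.compl_iInter, hne, Set.compl_empty]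
      refine (Set.countable_iUnion fun n => ?_).mono h1
      by_contra hnc
      obtain ⟨x, hx, hn⟩ := key _ _ (hU n).isClosed_compl (hU n).isClosed_compl hnc hnc n
      exact hx.1 (hDU n hn)

end Pool.Agent.Helper996.Dowker
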