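import Pool.Agent.Helper996.DowkerCore
import Pool.Agent.Helper996.DowkerTop

/-! The space: basic topological properties and the conclusion. -/

namespace Pool.Agent.Helper996.Dowker

open Set Topology

variable {W : Type} [LinearOrder W]

theorem enc_self (e : W → W → ℕ) (r : W × ℕ → ℝ) (x : W × ℕ) : enc e r x (Sum.inl x) = true := by
  simp [enc]

theorem enc_inl (e : W → W → ℕ) (r : W × ℕ → ℝ) (x y : W × ℕ) :
    enc e r x (Sum.inl y) = true → x = y ∨ (x.1 < y.1 ∧ x.2 < y.2) := by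
  intro h
  simp only [enc, decide_eq_true_eq] at h
  rcases h with h | h
  · exact Or.inl h
  · exact Or.inr ⟨h.1, h.2.1⟩

theorem enc_inr (e : W → W → ℕ) (r : W × ℕ → ℝ) (x : W × ℕ) (g : W) :
    enc e r x (Sum.inr g) = true ↔ x.1 ≤ g := by
  simp [enc]

theorem enc_injective (e : W → W → ℕ) (r : W × ℕ → ℝ) : Function.Injective (enc e r) := by
  intro x y hxy
  have h1 : x.1 ≤ y.1 := by
    rw [← enc_inr e r x y.1, hxy, enc_inr]
  have h2 : y.1 ≤ x.1 := by
    rw [← enc_inr e r y x.1, ← hxy, enc_inr]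
  have h3 : enc e r x (Sum.inl y) = true := by rw [hxy]; exact enc_self e r y
  rcases enc_inl e r x y h3 with h | h
  · exact h
  · exact absurd h.1 (not_lt.2 h2)

variable [TopologicalSpace (W × ℕ)]

theorem isClopen_coord {e : W → W → ℕ} {r : W × ℕ → ℝ} (hφ : IsInducing (enc e r))
    (i : (W × ℕ) ⊕ W) : IsClopen {x | enc e r x i = true} := by
  have h1 : Continuous (fun x => enc e r x i) := (continuous_apply i).comp hφ.continuous
  exact (isClopen_discrete ({true} : Set Bool)).preimage h1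

theorem isClopen_initial {e : W → W → ℕ} {r : W × ℕ → ℝ} (hφ : IsInducing (enc e r)) (g : W) :
    IsClopen {x : W × ℕ | x.1 ≤ g} := by
  have h := isClopen_coord hφ (Sum.inr g)
  have h2 : {x : W × ℕ | enc e r x (Sum.inr g) = true} = {x | x.1 ≤ g} := by
    ext x
    exact enc_inr e r x g
  rwa [h2] at h

theorem isOpen_levels {e : W → W → ℕ} {r : W × ℕ → ℝ} (hφ : IsInducing (enc e r)) (n : ℕ) :
    IsOpen {x : W × ℕ | x.2 < n} := by
  rw [isOpen_iff_mem_nhds]
  intro x hx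
  refine Filter.mem_of_superset ((isClopen_coord hφ (Sum.inl x)).isOpen.mem_nhds
    (enc_self e r x)) ?_
  intro y hy
  rcases enc_inl e r y x hy with h | h
  · rw [h]; exact hx
  · exact h.2.trans hx

theorem discrete_level {e : W → W → ℕ} {r : W × ℕ → ℝ} (hφ : IsInducing (enc e r)) (n : ℕ) :
    DiscreteTopology {x : W × ℕ | x.2 = n} := by
  rw [discreteTopology_iff_isOpen_singleton]
  intro x
  have h1 : IsOpen ((Subtype.val : {x : W × ℕ | x.2 = n} → W × ℕ) ⁻¹'
      {y | enc e r y (Sum.inl x.1) = true}) :=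
    (isClopen_coord hφ (Sum.inl x.1)).isOpen.preimage continuous_subtype_val
  have h2 : (Subtype.val : {x : W × ℕ | x.2 = n} → W × ℕ) ⁻¹'
      {y | enc e r y (Sum.inl x.1) = true} = {x} := by
    ext y
    constructor
    · intro hy
      rcases enc_inl e r y.1 x.1 hy with h | h
      · exact Subtype.ext h
      · have h3 : y.1.2 = n := y.2
        have h4 : x.1.2 = n := x.2
        exact absurd h.2 (by rw [h3, h4]; exact lt_irrefl n)
    · rintro rfl
      exact enc_self e r _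
  rwa [h2] at h1

omit [TopologicalSpace (W × ℕ)] in
theorem countable_initial (hc : ∀ a : W, (Set.Iio a).Countable) (g : W) :
    {x : W × ℕ | x.1 ≤ g}.Countable := by
  have h1 : (Set.Iic g).Countable := by
    rw [← Set.Iio_insert]; exact (hc g).insert g
  refine (h1.prod (Set.countable_univ (α := ℕ))).mono ?_
  intro x hx
  exact ⟨hx, trivial⟩

theorem clopen_base {e : W → W → ℕ} {r : W × ℕ → ℝ} (hφ : IsInducing (enc e r))
    (hc : ∀ a : W, (Set.Iio a).Countable) (x : W × ℕ) (U : Set (W × ℕ)) (hU : IsOpen U)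
    (hx : x ∈ U) : ∃ V : Set (W × ℕ), IsClopen V ∧ V.Countable ∧ x ∈ V ∧ V ⊆ U := by
  obtain ⟨U', hU', rfl⟩ := hφ.isOpen_iff.1 hU
  obtain ⟨V', hV', hxV, hVU⟩ := compact_exists_isClopen_in_isOpen hU' hx
  refine ⟨enc e r ⁻¹' V' ∩ {y | y.1 ≤ x.1},
    (hV'.preimage hφ.continuous).inter (isClopen_initial hφ x.1),
    (countable_initial hc x.1).mono Set.inter_subset_right, ⟨hxV, le_refl x.1⟩, ?_⟩
  exact fun y hy => hVU hy.1

theorem conclusion [WellFoundedLT W] (hc : ∀ a : W, (Set.Iio a).Countable)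
    (hu : ¬ (Set.univ : Set W).Countable)
    {S : Set ℝ} (hS : StrongSierpinski S) (r : W × ℕ → ℝ) (hr : Function.Injective r)
    (hrS : ∀ x, r x ∈ S)
    (e : W → W → ℕ) (he1 : ∀ a k, {b | b < a ∧ e a b = k}.Finite)
    (he2 : ∀ a b, b < a → {c | c < b ∧ e a c ≠ e b c}.Finite)
    (hφ : IsInducing (enc e r)) :
    T2Space (W × ℕ) ∧ NormalSpace (W × ℕ) ∧ ¬ CountablyParacompact (W × ℕ) ∧
      (∀ (x : W × ℕ) (U : Set (W × ℕ)), IsOpen U → x ∈ U →
        ∃ V : Set (W × ℕ), IsClopen V ∧ V.Countable ∧ x ∈ V ∧ V ⊆ U) ∧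
      (∃ L : ℕ → Set (W × ℕ), (∀ n, DiscreteTopology (L n)) ∧ (⋃ n, L n) = Set.univ) := by
  have hT2 : T2Space (W × ℕ) := T2Space.of_injective_continuous (enc_injective e r) hφ.continuous
  have hreg : RegularSpace (W × ℕ) := hφ.regularSpace
  have hI : ∀ A : Set (W × ℕ), A.Countable → ∃ I, IsClopen I ∧ I.Countable ∧ A ⊆ I := by
    intro A hA
    obtain ⟨d, hd⟩ := countable_bdd hc hu (hA.image Prod.fst)
    exact ⟨{x | x.1 ≤ d}, isClopen_initial hφ d, countable_initial hc d,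
      fun a ha => (hd a.1 ⟨a, ha, rfl⟩).le⟩
  have hu2 : ¬ (Set.univ : Set (W × ℕ)).Countable := by
    intro h
    apply hu
    refine (h.image Prod.fst).mono ?_
    intro w _
    exact ⟨(w, 0), trivial, rfl⟩
  obtain ⟨hn, D, hD1, hD2, hD3, hD4⟩ := finish (fun x : W × ℕ => x.2) (isOpen_levels hφ) hI hu2
    (fun A C hA hC hAu hCu n => key hc hu hS r hr hrS e he1 he2 hφ A C hA hC hAu hCu n)
  refine ⟨hT2, hn, not_cp D hD1 hD2 hD3 hD4, clopen_base hφ hc,
    fun n => {x | x.2 = n}, discrete_level hφ, ?_⟩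
  ext x
  simp

end Pool.Agent.Helper996.Dowker
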