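import Mathlib
import Pool.Agent.Helper996.Bisect

set_option linter.unusedSectionVars false

namespace Pool.Agent.Helper996.Twin

open Finset
open scoped Classical
open Pool.Agent.Helper996.Bisect

variable {V : Type*} [Fintype V] [DecidableEq V]

theorem B_ind_zero {G : SimpleGraph V} {S T : Finset V} (h : ∀ u ∈ S, ∀ v ∈ T, ¬ G.Adj u v) :
    B G (ind S) (ind T) = 0 := by
  rw [B_ind]
  have : (S ×ˢ T).filter (fun p => G.Adj p.1 p.2) = ∅ := by
    rw [filter_eq_empty_iff]
    intro p hp
    rw [mem_product] at hp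
    exact h _ hp.1 _ hp.2
  rw [this]; simp

theorem good_biUnion {G : SimpleGraph V} {ι : Type*} [DecidableEq ι] (b : ι → Finset V)
    (q : ι → ℤ) (s : Finset ι) (hd : ∀ i ∈ s, ∀ j ∈ s, i ≠ j → Disjoint (b i) (b j))
    (hg : ∀ i ∈ s, Good G (b i) (q i)) : Good G (s.biUnion b) (∑ i ∈ s, q i) := by
  induction s using Finset.induction_on with
  | empty => simpa using good_empty G
  | insert i s hi ih =>
    rw [biUnion_insert, sum_insert hi]
    refine (hg i (mem_insert_self _ _)).union
      (ih (fun a ha c hc hac => hd a (mem_insert_of_mem ha) c (mem_insert_of_mem hc) hac)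
        (fun a ha => hg a (mem_insert_of_mem ha))) ?_
    rw [disjoint_biUnion_right]
    intro j hj
    exact hd i (mem_insert_self _ _) j (mem_insert_of_mem hj) (fun h => hi (h ▸ hj))

theorem good_star {G : SimpleGraph V} {u e : V} {R R' : Finset V} (hR : ∀ v ∈ R, G.Adj u v)
    (hR' : ∀ v ∈ R', ¬ G.Adj u v) (hc : R.card = R'.card)
    (hind : ∀ v ∈ insert e (R ∪ R'), ∀ w ∈ insert e (R ∪ R'), ¬ G.Adj v w)
    (hd : Disjoint R R') (he : e ∉ R ∪ R') (hu : u ∉ insert e (R ∪ R')) :
    Good G (insert u (insert e (R ∪ R'))) (2 * R.card) := by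
  rw [mem_union, not_or] at he
  rw [mem_insert, mem_union, not_or, not_or] at hu
  obtain ⟨hue, huR, huR'⟩ := hu
  have hdis : Disjoint (insert u R') (insert e R) := by
    rw [disjoint_insert_left, disjoint_insert_right]
    refine ⟨?_, he.2, hd.symm⟩
    rw [mem_insert, not_or]; exact ⟨hue, huR⟩
  have h1 := good_of_sets (G := G) hdis (by
    rw [card_insert_of_notMem huR', card_insert_of_notMem he.1, hc])
  have e1 : insert u R' ∪ insert e R = insert u (insert e (R ∪ R')) := by
    ext v; simp only [mem_union, mem_insert]; tauto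
  rw [e1] at h1
  refine h1.mono ?_
  have z1 : B G (ind (insert u R')) (ind (insert u R')) = 0 := by
    apply B_ind_zero
    intro v hv w hw
    rw [mem_insert] at hv hw
    rcases hv with rfl | hv <;> rcases hw with rfl | hw
    · exact G.loopless.irrefl _
    · exact hR' w hw
    · exact fun h => hR' v hv h.symm
    · exact hind v (by simp [hv]) w (by simp [hw])
  have z2 : B G (ind (insert e R)) (ind (insert e R)) = 0 := by
    apply B_ind_zero
    intro v hv w hw
    rw [mem_insert] at hv hw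
    refine hind v ?_ w ?_
    · rw [mem_insert, mem_union]; tauto
    · rw [mem_insert, mem_union]; tauto
  have z3 : (R.card : ℤ) ≤ B G (ind (insert u R')) (ind (insert e R)) := by
    rw [B_ind]
    have : R.image (fun v => (u, v)) ⊆
        ((insert u R') ×ˢ (insert e R)).filter (fun p => G.Adj p.1 p.2) := by
      intro p hp
      rw [mem_image] at hp
      obtain ⟨v, hv, rfl⟩ := hp
      rw [mem_filter, mem_product]
      exact ⟨⟨mem_insert_self _ _, mem_insert_of_mem hv⟩, hR v hv⟩
    have h2 := card_le_card this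
    rw [card_image_of_injective _ (fun a b h => (Prod.mk.inj h).2)] at h2
    exact_mod_cast h2
  rw [z1, z2]
  linarith

/-- Many disjoint pairs of non-twins. -/
theorem exists_pairs (G : SimpleGraph V) (I : Finset V) (p : ℕ)
    (h : ∀ w0 ∈ I, 2 * p ≤ (I.filter (fun w => ¬ ∀ u, (G.Adj u w ↔ G.Adj u w0))).card + 1)
    (hI : 2 * p ≤ I.card) :
    ∀ j ≤ p, ∃ P : Finset (V × V), P.card = j ∧ (∀ r ∈ P, r.1 ∈ I ∧ r.2 ∈ I) ∧
      (∀ r ∈ P, ∀ r' ∈ P, r.1 = r'.1 → r = r') ∧ (∀ r ∈ P, ∀ r' ∈ P, r.2 = r'.2 → r = r') ∧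
      (∀ r ∈ P, ∀ r' ∈ P, r.1 ≠ r'.2) ∧ (∀ r ∈ P, ∃ u, G.Adj u r.1 ∧ ¬ G.Adj u r.2) := by
  intro j
  induction j with
  | zero =>
    intro _
    exact ⟨∅, by simp⟩
  | succ j ih =>
    intro hj
    obtain ⟨P, hc, h1, h2, h3, h4, h5⟩ := ih (by omega)
    set used := P.image Prod.fst ∪ P.image Prod.snd with hused
    have hu : used.card ≤ 2 * j := by
      refine (card_union_le _ _).trans ?_
      have a1 := card_image_le (s := P) (f := Prod.fst)
      have a2 := card_image_le (s := P) (f := Prod.snd)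
      omega
    have hex0 : ∃ w0 ∈ I, w0 ∉ used := by
      by_contra hcon
      push Not at hcon
      have := card_le_card (show I ⊆ used from hcon)
      omega
    obtain ⟨w0, hw0, hw0u⟩ := hex0
    have hex1 : ∃ w ∈ I.filter (fun w => ¬ ∀ u, (G.Adj u w ↔ G.Adj u w0)), w ∉ used := by
      by_contra hcon
      have a1 : (I.filter (fun w => ¬ ∀ u, (G.Adj u w ↔ G.Adj u w0))).card ≤ used.card := by
        apply card_le_card
        intro w hw
        by_contra hwu
        exact hcon ⟨w, hw, hwu⟩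
      have a2 := h w0 hw0
      omega
    obtain ⟨w, hw, hwu⟩ := hex1
    rw [mem_filter] at hw
    obtain ⟨hwI, hwn⟩ := hw
    push Not at hwn
    have key : ∀ a b : V, a ∈ I → b ∈ I → a ∉ used → b ∉ used → a ≠ b →
        (∃ u, G.Adj u a ∧ ¬ G.Adj u b) →
        ∃ P : Finset (V × V), P.card = j + 1 ∧ (∀ r ∈ P, r.1 ∈ I ∧ r.2 ∈ I) ∧
      (∀ r ∈ P, ∀ r' ∈ P, r.1 = r'.1 → r = r') ∧ (∀ r ∈ P, ∀ r' ∈ P, r.2 = r'.2 → r = r') ∧
      (∀ r ∈ P, ∀ r' ∈ P, r.1 ≠ r'.2) ∧ (∀ r ∈ P, ∃ u, G.Adj u r.1 ∧ ¬ G.Adj u r.2) := by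
      intro a b ha hb hau hbu hab hadj
      have na : ∀ r ∈ P, r.1 ≠ a ∧ r.2 ≠ a := by
        intro r hr
        constructor
        · rintro rfl; exact hau (mem_union_left _ (mem_image_of_mem _ hr))
        · rintro rfl; exact hau (mem_union_right _ (mem_image_of_mem _ hr))
      have nb : ∀ r ∈ P, r.1 ≠ b ∧ r.2 ≠ b := by
        intro r hr
        constructor
        · rintro rfl; exact hbu (mem_union_left _ (mem_image_of_mem _ hr))
        · rintro rfl; exact hbu (mem_union_right _ (mem_image_of_mem _ hr))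
      have nP : (a, b) ∉ P := fun hh => (na _ hh).1 rfl
      refine ⟨insert (a, b) P, by rw [card_insert_of_notMem nP, hc], ?_, ?_, ?_, ?_, ?_⟩
      · intro r hr
        rw [mem_insert] at hr
        rcases hr with rfl | hr
        · exact ⟨ha, hb⟩
        · exact h1 r hr
      · intro r hr r' hr' heq
        rw [mem_insert] at hr hr'
        rcases hr with rfl | hr <;> rcases hr' with rfl | hr'
        · rfl
        · exact absurd heq.symm (na r' hr').1
        · exact absurd heq (na r hr).1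
        · exact h2 r hr r' hr' heq
      · intro r hr r' hr' heq
        rw [mem_insert] at hr hr'
        rcases hr with rfl | hr <;> rcases hr' with rfl | hr'
        · rfl
        · exact absurd heq.symm (nb r' hr').2
        · exact absurd heq (nb r hr).2
        · exact h3 r hr r' hr' heq
      · intro r hr r' hr'
        rw [mem_insert] at hr hr'
        rcases hr with rfl | hr <;> rcases hr' with rfl | hr'
        · exact hab
        · exact fun hh => (na r' hr').2 hh.symm
        · exact (nb r hr).1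
        · exact h4 r hr r' hr'
      · intro r hr
        rw [mem_insert] at hr
        rcases hr with rfl | hr
        · exact hadj
        · exact h5 r hr
    obtain ⟨u, hu'⟩ := hwn
    rcases hu' with ⟨ha, hb⟩ | ⟨ha, hb⟩
    · refine key w w0 hwI hw0 hwu hw0u ?_ ⟨u, ha, hb⟩
      rintro rfl; exact hb ha
    · refine key w0 w hw0 hwI hw0u hwu ?_ ⟨u, hb, ha⟩
      rintro rfl; exact ha hb

theorem exists_good_of_pairs (G : SimpleGraph V) (U : Finset V) (p : ℕ)
    (hind : ∀ u v, u ∉ U → v ∉ U → ¬ G.Adj u v)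
    (h : ∀ w0 ∈ Uᶜ, 2 * p ≤ ((Uᶜ).filter (fun w => ¬ ∀ u, (G.Adj u w ↔ G.Adj u w0))).card + 1)
    (hcard : U.card + 2 * p ≤ (Uᶜ).card) :
    ∃ W : Finset V, Good G W (2 * p) := by
  obtain ⟨P, hc, h1, h2, h3, h4, h5⟩ := exists_pairs G Uᶜ p h (by omega) p le_rfl
  have h5' : ∀ r : V × V, ∃ u, r ∈ P → (G.Adj u r.1 ∧ ¬ G.Adj u r.2) := by
    intro r
    by_cases hr : r ∈ P
    · obtain ⟨u, hu⟩ := h5 r hr
      exact ⟨u, fun _ => hu⟩
    · exact ⟨r.1, fun h => absurd h hr⟩
  choose c hc0 using h5'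
  have hc1 : ∀ r ∈ P, G.Adj (c r) r.1 := fun r hr => (hc0 r hr).1
  have hc2 : ∀ r ∈ P, ¬ G.Adj (c r) r.2 := fun r hr => (hc0 r hr).2
  have hcU : ∀ r ∈ P, c r ∈ U := by
    intro r hr
    by_contra hcon
    exact hind _ _ hcon (by simpa using (h1 r hr).1) (hc1 r hr)
  set used := P.image Prod.fst ∪ P.image Prod.snd with hused
  have hu : used.card ≤ 2 * p := by
    refine (card_union_le _ _).trans ?_
    have a1 := card_image_le (s := P) (f := Prod.fst)
    have a2 := card_image_le (s := P) (f := Prod.snd)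
    omega
  have husub : used ⊆ Uᶜ := by
    intro v hv
    rw [hused, mem_union, mem_image, mem_image] at hv
    rcases hv with ⟨r, hr, rfl⟩ | ⟨r, hr, rfl⟩
    · exact (h1 r hr).1
    · exact (h1 r hr).2
  have hcard2 : U.card ≤ (Uᶜ \ used).card := by
    rw [card_sdiff_of_subset husub]; omega
  obtain ⟨emb⟩ : Nonempty (U ↪ (Uᶜ \ used : Finset V)) :=
    Function.Embedding.nonempty_of_card_le (by
      rw [Fintype.card_coe, Fintype.card_coe]; exact hcard2)
  set e : V → V := fun v => if hv : v ∈ U then (emb ⟨v, hv⟩ : V) else v with he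
  have he1 : ∀ v ∈ U, e v ∈ Uᶜ \ used := by
    intro v hv
    rw [he]; simp only [hv, dif_pos]
    exact (emb ⟨v, hv⟩).2
  have he2 : ∀ v ∈ U, ∀ w ∈ U, e v = e w → v = w := by
    intro v hv w hw hvw
    rw [he] at hvw
    simp only [hv, hw, dif_pos] at hvw
    have := emb.injective (Subtype.ext hvw)
    exact congrArg Subtype.val this
  set R : V → Finset V := fun u => (P.filter (fun r => c r = u)).image Prod.fst with hR
  set R' : V → Finset V := fun u => (P.filter (fun r => c r = u)).image Prod.snd with hR'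
  have mR : ∀ u v, v ∈ R u ↔ ∃ r ∈ P, c r = u ∧ r.1 = v := by
    intro u v
    simp only [hR, mem_image, mem_filter]
    constructor
    · rintro ⟨r, ⟨hr, hcr⟩, hv⟩; exact ⟨r, hr, hcr, hv⟩
    · rintro ⟨r, hr, hcr, hv⟩; exact ⟨r, ⟨hr, hcr⟩, hv⟩
  have mR' : ∀ u v, v ∈ R' u ↔ ∃ r ∈ P, c r = u ∧ r.2 = v := by
    intro u v
    simp only [hR', mem_image, mem_filter]
    constructor
    · rintro ⟨r, ⟨hr, hcr⟩, hv⟩; exact ⟨r, hr, hcr, hv⟩
    · rintro ⟨r, hr, hcr, hv⟩; exact ⟨r, ⟨hr, hcr⟩, hv⟩
  have cR : ∀ u, (R u).card = (P.filter (fun r => c r = u)).card := by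
    intro u
    apply card_image_of_injOn
    intro r hr r' hr' heq
    simp only [coe_filter, Set.mem_ofPred_eq] at hr hr'
    exact h2 r hr.1 r' hr'.1 heq
  have cR' : ∀ u, (R' u).card = (P.filter (fun r => c r = u)).card := by
    intro u
    apply card_image_of_injOn
    intro r hr r' hr' heq
    simp only [coe_filter, Set.mem_ofPred_eq] at hr hr'
    exact h3 r hr.1 r' hr'.1 heq
  have RU : ∀ u, ∀ v ∈ R u, v ∈ used ∧ v ∉ U := by
    intro u v hv
    rw [mR] at hv
    obtain ⟨r, hr, _, rfl⟩ := hv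
    exact ⟨mem_union_left _ (mem_image_of_mem _ hr), by simpa using (h1 r hr).1⟩
  have R'U : ∀ u, ∀ v ∈ R' u, v ∈ used ∧ v ∉ U := by
    intro u v hv
    rw [mR'] at hv
    obtain ⟨r, hr, _, rfl⟩ := hv
    exact ⟨mem_union_right _ (mem_image_of_mem _ hr), by simpa using (h1 r hr).2⟩
  have eU : ∀ u ∈ U, e u ∉ used ∧ e u ∉ U := by
    intro u hu
    have := he1 u hu
    rw [mem_sdiff, mem_compl] at this
    exact ⟨this.2, this.1⟩
  refine ⟨U.biUnion (fun u => insert u (insert (e u) (R u ∪ R' u))), ?_⟩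
  have hg := good_biUnion (G := G) (fun u => insert u (insert (e u) (R u ∪ R' u)))
    (fun u => 2 * ((R u).card : ℤ)) U ?_ ?_
  · refine hg.mono ?_
    rw [← mul_sum]
    have : ∑ u ∈ U, ((R u).card : ℤ) = p := by
      rw [← hc, card_eq_sum_card_fiberwise (f := c) (t := U) (fun r hr => hcU r hr)]
      push_cast
      exact sum_congr rfl fun u _ => by rw [cR u]
    rw [this]
  · intro u hu u' hu' hne
    rw [disjoint_left]
    intro v hv hv'
    simp only [mem_insert, mem_union] at hv hv'
    rcases hv with rfl | rfl | hv | hv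
    · rcases hv' with rfl | hv' | hv' | hv'
      · exact hne rfl
      · exact (eU u' hu').2 (hv' ▸ hu)
      · exact (RU u' _ hv').2 hu
      · exact (R'U u' _ hv').2 hu
    · rcases hv' with hv' | hv' | hv' | hv'
      · exact (eU u hu).2 (hv' ▸ hu')
      · exact hne (he2 u hu u' hu' hv')
      · exact (eU u hu).1 (RU u' _ hv').1
      · exact (eU u hu).1 (R'U u' _ hv').1
    · rcases hv' with hv' | hv' | hv' | hv'
      · exact (RU u _ hv).2 (hv' ▸ hu')
      · exact (eU u' hu').1 (hv' ▸ (RU u _ hv).1)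
      · rw [mR] at hv hv'
        obtain ⟨r, hr, hcr, hrv⟩ := hv
        obtain ⟨r', hr', hcr', hrv'⟩ := hv'
        have := h2 r hr r' hr' (hrv.trans hrv'.symm)
        exact hne (by rw [← hcr, ← hcr', this])
      · rw [mR] at hv
        rw [mR'] at hv'
        obtain ⟨r, hr, hcr, hrv⟩ := hv
        obtain ⟨r', hr', hcr', hrv'⟩ := hv'
        exact h4 r hr r' hr' (hrv.trans hrv'.symm)
    · rcases hv' with hv' | hv' | hv' | hv'
      · exact (R'U u _ hv).2 (hv' ▸ hu')
      · exact (eU u' hu').1 (hv' ▸ (R'U u _ hv).1)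
      · rw [mR'] at hv
        rw [mR] at hv'
        obtain ⟨r, hr, hcr, hrv⟩ := hv
        obtain ⟨r', hr', hcr', hrv'⟩ := hv'
        exact h4 r' hr' r hr (hrv'.trans hrv.symm)
      · rw [mR'] at hv hv'
        obtain ⟨r, hr, hcr, hrv⟩ := hv
        obtain ⟨r', hr', hcr', hrv'⟩ := hv'
        have := h3 r hr r' hr' (hrv.trans hrv'.symm)
        exact hne (by rw [← hcr, ← hcr', this])
  · intro u hu
    apply good_star
    · intro v hv
      rw [mR] at hv
      obtain ⟨r, hr, hcr, rfl⟩ := hv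
      rw [← hcr]; exact hc1 r hr
    · intro v hv
      rw [mR'] at hv
      obtain ⟨r, hr, hcr, rfl⟩ := hv
      rw [← hcr]; exact hc2 r hr
    · rw [cR, cR']
    · have nU : ∀ v ∈ insert (e u) (R u ∪ R' u), v ∉ U := by
        intro v hv
        rw [mem_insert, mem_union] at hv
        rcases hv with rfl | hv | hv
        · exact (eU u hu).2
        · exact (RU u v hv).2
        · exact (R'U u v hv).2
      intro v hv w hw
      exact hind v w (nU v hv) (nU w hw)
    · rw [disjoint_left]
      intro v hv hv'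
      rw [mR] at hv
      rw [mR'] at hv'
      obtain ⟨r, hr, hcr, hrv⟩ := hv
      obtain ⟨r', hr', hcr', hrv'⟩ := hv'
      exact h4 r hr r' hr' (hrv.trans hrv'.symm)
    · intro hh
      rw [mem_union] at hh
      rcases hh with hh | hh
      · exact (eU u hu).1 (RU u _ hh).1
      · exact (eU u hu).1 (R'U u _ hh).1
    · intro hh
      rw [mem_insert, mem_union] at hh
      rcases hh with hh | hh | hh
      · exact (eU u hu).2 (hh ▸ hu)
      · exact (RU u _ hh).2 hu
      · exact (R'U u _ hh).2 hu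

end Pool.Agent.Helper996.Twin
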