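import Mathlib
import Pool.Agent.Helper996.Twin

set_option linter.unusedSectionVars false

namespace Pool.Agent.Helper996.Struct

open Finset
open scoped Classical
open Pool.Agent.Helper996.Bisect Pool.Agent.Helper996.Twin

variable {V : Type*} [Fintype V] [DecidableEq V]

/-- A signing of `U` (no balance condition) whose ordered-pair form is at most `-q`. -/
def Sgn (G : SimpleGraph V) (U : Finset V) (q : ℤ) : Prop :=
  ∃ x : V → ℤ, (∀ v ∈ U, x v = 1 ∨ x v = -1) ∧ (∀ v, v ∉ U → x v = 0) ∧ B G x x ≤ -q

theorem Sgn.mono {G : SimpleGraph V} {U : Finset V} {q r : ℤ} (h : Sgn G U q) (hr : r ≤ q) :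
    Sgn G U r := by
  obtain ⟨x, h1, h2, h4⟩ := h
  exact ⟨x, h1, h2, by linarith⟩

theorem Sgn.union {G : SimpleGraph V} {U W : Finset V} {q r : ℤ} (hU : Sgn G U q)
    (hW : Sgn G W r) (hd : Disjoint U W) : Sgn G (U ∪ W) (q + r) := by
  obtain ⟨x, h1, h2, h4⟩ := hU
  obtain ⟨y, k1, k2, k4⟩ := hW
  have key : ∀ s : ℤ, (s = 1 ∨ s = -1) → s * B G x y ≤ 0 → Sgn G (U ∪ W) (q + r) := by
    intro s hs hle
    refine ⟨fun v => x v + s * y v, ?_, ?_, ?_⟩
    · intro v hv
      rw [mem_union] at hv
      rcases hv with hv | hv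
      · have : y v = 0 := k2 v (fun h => (disjoint_left.mp hd hv h))
        simpa [this] using h1 v hv
      · have : x v = 0 := h2 v (fun h => (disjoint_left.mp hd h hv))
        rcases k1 v hv with h | h <;> rcases hs with hs | hs <;> simp [this, h, hs]
    · intro v hv
      rw [mem_union, not_or] at hv
      simp [h2 v hv.1, k2 v hv.2]
    · have e : (fun v => x v + s * y v) = x + s • y := by
        ext v; simp
      rcases hs with hs | hs
      · subst hs
        rw [e, one_smul, B_add_left, B_add_right, B_add_right, B_comm G y x]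
        linarith
      · subst hs
        rw [e, neg_smul, one_smul, B_add_left, B_add_right, B_add_right, B_neg_left, B_neg_left,
          B_neg_right, B_neg_right, B_comm G y x]
        linarith
  rcases le_total (B G x y) 0 with h | h
  · exact key 1 (Or.inl rfl) (by linarith)
  · exact key (-1) (Or.inr rfl) (by linarith)

theorem sgn_empty (G : SimpleGraph V) : Sgn G ∅ 0 := by
  refine ⟨0, by simp, by simp, ?_⟩
  simp [B]

theorem sgn_biUnion {G : SimpleGraph V} {ι : Type*} [DecidableEq ι] (b : ι → Finset V)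
    (q : ι → ℤ) (s : Finset ι) (hd : ∀ i ∈ s, ∀ j ∈ s, i ≠ j → Disjoint (b i) (b j))
    (hg : ∀ i ∈ s, Sgn G (b i) (q i)) : Sgn G (s.biUnion b) (∑ i ∈ s, q i) := by
  induction s using Finset.induction_on with
  | empty => simpa using sgn_empty G
  | insert i s hi ih =>
    rw [biUnion_insert, sum_insert hi]
    refine (hg i (mem_insert_self _ _)).union
      (ih (fun a ha c hc hac => hd a (mem_insert_of_mem ha) c (mem_insert_of_mem hc) hac)
        (fun a ha => hg a (mem_insert_of_mem ha))) ?_
    rw [disjoint_biUnion_right]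
    intro j hj
    exact hd i (mem_insert_self _ _) j (mem_insert_of_mem hj) (fun h => hi (h ▸ hj))

theorem sgn_of_sets {G : SimpleGraph V} {S J : Finset V} (hd : Disjoint S J) :
    Sgn G (S ∪ J) (-(B G (ind S) (ind S) - 2 * B G (ind S) (ind J) + B G (ind J) (ind J))) := by
  refine ⟨ind S - ind J, ?_, ?_, ?_⟩
  · intro v hv
    rw [mem_union] at hv
    rcases hv with hv | hv
    · have : v ∉ J := fun h => disjoint_left.mp hd hv h
      left; simp [ind, hv, this]
    · have : v ∉ S := fun h => disjoint_left.mp hd h hv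
      right; simp [ind, hv, this]
  · intro v hv
    rw [mem_union, not_or] at hv
    simp [ind, hv.1, hv.2]
  · rw [B_sub_left, B_sub_right, B_sub_right, B_comm G (ind J) (ind S)]
    linarith

theorem B_sum_left (G : SimpleGraph V) {ι : Type*} (s : Finset ι) (f : ι → V → ℤ) (y : V → ℤ) :
    B G (∑ i ∈ s, f i) y = ∑ i ∈ s, B G (f i) y := by
  induction s using Finset.cons_induction with
  | empty => simp [B]
  | cons a s ha ih => rw [sum_cons, sum_cons, B_add_left, ih]

theorem B_sum_right (G : SimpleGraph V) {ι : Type*} (s : Finset ι) (f : ι → V → ℤ) (y : V → ℤ) :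
    B G y (∑ i ∈ s, f i) = ∑ i ∈ s, B G y (f i) := by
  rw [B_comm, B_sum_left]
  exact sum_congr rfl fun i _ => B_comm _ _ _

theorem sgn_of_coloring (G : SimpleGraph V) (X : Finset V) (q : ℕ) [NeZero q] (C : V → ZMod q)
    (hC : ∀ u ∈ X, ∀ v ∈ X, G.Adj u v → C u ≠ C v) (c : ZMod q) :
    Sgn G X (∑ i : ZMod q, B G (ind (X.filter (fun v => C v = i)))
      (ind (X.filter (fun v => C v = c - i)))) := by
  set Y : ZMod q → Finset V := fun i => X.filter (fun v => C v = i) with hY
  have hYY : ∀ i, B G (ind (Y i)) (ind (Y i)) = 0 := by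
    intro i
    apply B_ind_zero
    intro u hu v hv hadj
    rw [hY, mem_filter] at hu hv
    exact hC u hu.1 v hv.1 hadj (hu.2.trans hv.2.symm)
  have hYd : ∀ i j, i ≠ j → Disjoint (Y i) (Y j) := by
    intro i j hij
    rw [disjoint_left]
    intro v hv hv'
    rw [hY, mem_filter] at hv hv'
    exact hij (hv.2.symm.trans hv'.2)
  set reps : Finset (ZMod q) := univ.filter (fun i => i.val ≤ (c - i).val) with hreps
  have inv : ∀ i : ZMod q, c - (c - i) = i := fun i => by ring
  have hXu : X = reps.biUnion (fun i => Y i ∪ Y (c - i)) := by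
    ext v
    rw [mem_biUnion]
    constructor
    · intro hv
      rcases le_total (C v).val (c - C v).val with h | h
      · refine ⟨C v, by rw [hreps, mem_filter]; exact ⟨mem_univ _, h⟩, ?_⟩
        rw [mem_union]; left; rw [hY, mem_filter]; exact ⟨hv, rfl⟩
      · refine ⟨c - C v, by rw [hreps, mem_filter, inv]; exact ⟨mem_univ _, h⟩, ?_⟩
        rw [mem_union]; right; rw [hY, mem_filter, inv]; exact ⟨hv, rfl⟩
    · rintro ⟨i, _, hv⟩
      rw [mem_union, hY, mem_filter, mem_filter] at hv
      rcases hv with hv | hv <;> exact hv.1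
  have hg := sgn_biUnion (G := G) (fun i => Y i ∪ Y (c - i))
    (fun i => if i = c - i then 0 else 2 * B G (ind (Y i)) (ind (Y (c - i)))) reps ?_ ?_
  · rw [← hXu] at hg
    refine hg.mono (le_of_eq ?_)
    -- the sum over all colours equals the sum over representatives
    have hsplit : ∑ i : ZMod q, B G (ind (Y i)) (ind (Y (c - i)))
        = ∑ i ∈ reps, B G (ind (Y i)) (ind (Y (c - i)))
          + ∑ i ∈ univ.filter (fun i => ¬ i.val ≤ (c - i).val),
              B G (ind (Y i)) (ind (Y (c - i))) := by
      rw [hreps, sum_filter_add_sum_filter_not]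
    have hother : ∑ i ∈ univ.filter (fun i : ZMod q => ¬ i.val ≤ (c - i).val),
              B G (ind (Y i)) (ind (Y (c - i)))
        = ∑ i ∈ reps.filter (fun i => i ≠ c - i), B G (ind (Y i)) (ind (Y (c - i))) := by
      refine sum_nbij' (fun i => c - i) (fun i => c - i) ?_ ?_ ?_ ?_ ?_
      · intro i hi
        rw [mem_filter] at hi
        rw [mem_filter, hreps, mem_filter, inv]
        refine ⟨⟨mem_univ _, by omega⟩, ?_⟩
        intro h
        have := hi.2
        rw [h] at this
        exact this le_rfl
      · intro i hi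
        rw [mem_filter, hreps, mem_filter] at hi
        rw [mem_filter, inv]
        refine ⟨mem_univ _, ?_⟩
        intro h
        have h1 : i.val = (c - i).val := le_antisymm hi.1.2 h
        exact hi.2 (ZMod.val_injective q h1)
      · intro i _; exact inv i
      · intro i _; exact inv i
      · intro i _
        rw [inv, B_comm]
    have hz : ∑ i ∈ reps, B G (ind (Y i)) (ind (Y (c - i)))
        = ∑ i ∈ reps.filter (fun i => i ≠ c - i), B G (ind (Y i)) (ind (Y (c - i))) := by
      rw [show ∑ i ∈ reps.filter (fun i => i ≠ c - i), B G (ind (Y i)) (ind (Y (c - i)))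
        = ∑ i ∈ reps, (if i ≠ c - i then B G (ind (Y i)) (ind (Y (c - i))) else 0)
        from sum_filter _ _]
      refine sum_congr rfl fun i _ => ?_
      by_cases h : i = c - i
      · rw [if_neg (by simpa using h)]
        rw [← h]; exact hYY i
      · rw [if_pos h]
    have hlhs : ∑ i ∈ reps, (if i = c - i then (0 : ℤ) else 2 * B G (ind (Y i)) (ind (Y (c - i))))
        = 2 * ∑ i ∈ reps.filter (fun i => i ≠ c - i), B G (ind (Y i)) (ind (Y (c - i))) := by
      rw [show ∑ i ∈ reps.filter (fun i => i ≠ c - i), B G (ind (Y i)) (ind (Y (c - i)))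
        = ∑ i ∈ reps, (if i ≠ c - i then B G (ind (Y i)) (ind (Y (c - i))) else 0)
        from sum_filter _ _, mul_sum]
      refine sum_congr rfl fun i _ => ?_
      by_cases h : i = c - i
      · rw [if_pos h, if_neg (by simpa using h), mul_zero]
      · rw [if_neg h, if_pos h]
    rw [hlhs, hsplit, hother, hz]; ring
  · intro i hi j hj hij
    rw [hreps, mem_filter] at hi hj
    have hne : i ≠ c - j := by
      intro h
      have h2 : c - i = j := by rw [h, inv]
      have h3 : i.val ≤ j.val := by rw [← h2]; exact hi.2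
      have h4 : j.val ≤ i.val := by rw [h]; exact hj.2
      exact hij (ZMod.val_injective q (le_antisymm h3 h4))
    have hne2 : c - i ≠ j := by
      intro h
      exact hne (by rw [← h, inv])
    have hne3 : c - i ≠ c - j := by
      intro h
      exact hij (by rw [← inv i, h, inv])
    rw [disjoint_union_left, disjoint_union_right, disjoint_union_right]
    exact ⟨⟨hYd _ _ hij, hYd _ _ hne⟩, hYd _ _ hne2, hYd _ _ hne3⟩
  · intro i hi
    by_cases h : i = c - i
    · rw [if_pos h, ← h, union_self]
      have h1 := sgn_of_sets (G := G) (disjoint_empty_right (Y i))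
      rw [union_empty] at h1
      refine h1.mono ?_
      have h0 : (ind (∅ : Finset V)) = 0 := by ext v; simp [ind]
      rw [hYY, h0]
      simp [B]
    · rw [if_neg h]
      refine (sgn_of_sets (G := G) (hYd _ _ h)).mono ?_
      rw [hYY, hYY]; linarith

/-- Edwards type bound: some number of colours `q` with `q(q-1) ≤ B(X,X)` and a signing with
`-B ≥ r`, `q r ≥ B(X,X)`. -/
theorem edwards (G : SimpleGraph V) (X : Finset V) :
    ∃ (q : ℕ) (r : ℤ), 0 ≤ r ∧ (q : ℤ) * (q - 1) ≤ B G (ind X) (ind X) ∧
      B G (ind X) (ind X) ≤ q * r ∧ Sgn G X r := by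
  rcases X.eq_empty_or_nonempty with rfl | hXne
  · refine ⟨0, 0, le_rfl, ?_, ?_, sgn_empty G⟩
    · exact_mod_cast B_ind_nonneg G ∅ ∅
    · rw [B_ind_zero (by simp)]; simp
  -- proper colourings with colours in V, minimise the number of colours used
  have hne : ((univ : Finset (V → V)).filter
      (fun C => ∀ u ∈ X, ∀ v ∈ X, G.Adj u v → C u ≠ C v)).Nonempty :=
    ⟨id, by rw [mem_filter]; exact ⟨mem_univ _, fun u _ v _ h => h.ne⟩⟩
  obtain ⟨C, hC, hmin⟩ := exists_min_image _ (fun C : V → V => (X.image C).card) hne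
  rw [mem_filter] at hC
  obtain ⟨-, hC⟩ := hC
  set D := X.image C with hD
  set q := D.card with hq
  have hqpos : 0 < q := card_pos.mpr (hXne.image C)
  have : NeZero q := ⟨hqpos.ne'⟩
  -- between two colour classes there is an edge
  have hedge : ∀ i ∈ D, ∀ j ∈ D, i ≠ j →
      1 ≤ B G (ind (X.filter (fun v => C v = i))) (ind (X.filter (fun v => C v = j))) := by
    intro i hi j hj hij
    by_contra hcon
    have h0 : B G (ind (X.filter (fun v => C v = i))) (ind (X.filter (fun v => C v = j))) = 0 :=
      le_antisymm (by omega) (B_ind_nonneg _ _ _)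
    have hno : ∀ u ∈ X, ∀ v ∈ X, C u = i → C v = j → ¬ G.Adj u v := by
      intro u hu v hv hui hvj hadj
      rw [B_ind] at h0
      have h1 : ((X.filter (fun v => C v = i)) ×ˢ (X.filter (fun v => C v = j))).filter
          (fun p => G.Adj p.1 p.2) = ∅ := by
        rw [← card_eq_zero]; exact_mod_cast h0
      have h2 : (u, v) ∈ ((X.filter (fun v => C v = i)) ×ˢ (X.filter (fun v => C v = j))).filter
          (fun p => G.Adj p.1 p.2) := by
        rw [mem_filter, mem_product, mem_filter, mem_filter]
        exact ⟨⟨⟨hu, hui⟩, hv, hvj⟩, hadj⟩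
      rw [h1] at h2
      simp at h2
    set C' : V → V := fun v => if C v = j then i else C v with hC'
    have hC'p : ∀ u ∈ X, ∀ v ∈ X, G.Adj u v → C' u ≠ C' v := by
      intro u hu v hv hadj
      rw [hC']
      simp only
      split_ifs with h1 h2 h2
      · exact fun _ => hC u hu v hv hadj (h1.trans h2.symm)
      · exact fun h => hno v hv u hu h.symm h1 hadj.symm
      · exact fun h => hno u hu v hv h h2 hadj
      · exact hC u hu v hv hadj
    have h3 := hmin C' (by rw [mem_filter]; exact ⟨mem_univ _, hC'p⟩)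
    have h4 : X.image C' ⊆ D.erase j := by
      intro z hz
      rw [mem_image] at hz
      obtain ⟨v, hv, rfl⟩ := hz
      rw [mem_erase, hC']
      simp only
      split_ifs with h1
      · exact ⟨hij, hi⟩
      · exact ⟨h1, mem_image_of_mem _ hv⟩
    have h5 := card_le_card h4
    rw [card_erase_of_mem hj] at h5
    omega
  have hindX : ind X = ∑ i ∈ D, ind (X.filter (fun v => C v = i)) := by
    ext v
    rw [Finset.sum_apply]
    by_cases hv : v ∈ X
    · rw [sum_eq_single (C v)]
      · simp [ind, hv]
      · intro b _ hb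
        simp [ind, hv, Ne.symm hb]
      · intro h
        exact absurd (mem_image_of_mem C hv) h
    · simp [ind, hv]
  have hBX : B G (ind X) (ind X) = ∑ i ∈ D, ∑ j ∈ D,
      B G (ind (X.filter (fun v => C v = i))) (ind (X.filter (fun v => C v = j))) := by
    conv_lhs => rw [hindX]
    rw [B_sum_left]
    exact sum_congr rfl fun i _ => B_sum_right _ _ _ _
  have hlow : (q : ℤ) * (q - 1) ≤ B G (ind X) (ind X) := by
    rw [hBX]
    have : ∀ i ∈ D, (q : ℤ) - 1 ≤ ∑ j ∈ D,
        B G (ind (X.filter (fun v => C v = i))) (ind (X.filter (fun v => C v = j))) := by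
      intro i hi
      rw [← sum_erase_add _ _ hi]
      have h1 : ∑ j ∈ D.erase i, (1 : ℤ) ≤ ∑ j ∈ D.erase i,
          B G (ind (X.filter (fun v => C v = i))) (ind (X.filter (fun v => C v = j))) := by
        refine sum_le_sum fun j hj => ?_
        rw [mem_erase] at hj
        exact hedge i hi j hj.2 (Ne.symm hj.1)
      rw [sum_const, card_erase_of_mem hi, nsmul_eq_mul, mul_one] at h1
      have h2 := B_ind_nonneg G (X.filter (fun v => C v = i)) (X.filter (fun v => C v = i))
      have h3 : ((D.card - 1 : ℕ) : ℤ) = (q : ℤ) - 1 := by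
        rw [← hq]; push_cast [Nat.cast_sub (show 1 ≤ q from hqpos)]; ring
      rw [h3] at h1
      linarith
    calc (q : ℤ) * (q - 1) = ∑ i ∈ D, ((q : ℤ) - 1) := by rw [sum_const, nsmul_eq_mul]
      _ ≤ _ := sum_le_sum this
  -- transfer the colours to ZMod q
  obtain ⟨φ⟩ : Nonempty (D ≃ ZMod q) := by
    refine ⟨Fintype.equivOfCardEq ?_⟩
    rw [Fintype.card_coe, ZMod.card]
  set C2 : V → ZMod q := fun v => if h : C v ∈ D then φ ⟨C v, h⟩ else 0 with hC2
  have hC2p : ∀ u ∈ X, ∀ v ∈ X, C2 u = C2 v → C u = C v := by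
    intro u hu v hv h
    have h1 : C u ∈ D := mem_image_of_mem _ hu
    have h2 : C v ∈ D := mem_image_of_mem _ hv
    rw [hC2] at h
    simp only [h1, h2, dif_pos] at h
    have := φ.injective h
    exact congrArg Subtype.val this
  have hindX2 : ind X = ∑ i : ZMod q, ind (X.filter (fun v => C2 v = i)) := by
    ext v
    rw [Finset.sum_apply]
    by_cases hv : v ∈ X
    · rw [sum_eq_single (C2 v)]
      · simp [ind, hv]
      · intro b _ hb
        simp [ind, hv, Ne.symm hb]
      · intro h
        exact absurd (mem_univ _) h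
    · simp [ind, hv]
  have hBX2 : B G (ind X) (ind X) = ∑ c : ZMod q, ∑ i : ZMod q,
      B G (ind (X.filter (fun v => C2 v = i))) (ind (X.filter (fun v => C2 v = c - i))) := by
    conv_lhs => rw [hindX2]
    rw [B_sum_left, sum_comm]
    refine sum_congr rfl fun i _ => ?_
    rw [B_sum_right]
    exact (Equiv.sum_comp (Equiv.subRight i)
      (fun j => B G (ind (X.filter (fun v => C2 v = i))) (ind (X.filter (fun v => C2 v = j))))).symm
  obtain ⟨c, -, hc⟩ := exists_max_image (univ : Finset (ZMod q)) (fun c => ∑ i : ZMod q,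
      B G (ind (X.filter (fun v => C2 v = i))) (ind (X.filter (fun v => C2 v = c - i))))
      ⟨0, mem_univ _⟩
  refine ⟨q, ∑ i : ZMod q, B G (ind (X.filter (fun v => C2 v = i)))
    (ind (X.filter (fun v => C2 v = c - i))), ?_, hlow, ?_, ?_⟩
  · exact sum_nonneg fun i _ => B_ind_nonneg _ _ _
  · rw [hBX2]
    calc _ ≤ ∑ _c : ZMod q, ∑ i : ZMod q, B G (ind (X.filter (fun v => C2 v = i)))
          (ind (X.filter (fun v => C2 v = c - i))) := sum_le_sum fun d hd => hc d hd
      _ = _ := by rw [sum_const, nsmul_eq_mul, card_univ, ZMod.card]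
  · apply sgn_of_coloring
    intro u hu v hv hadj h
    exact hC u hu v hv hadj (hC2p u hu v hv h)

end Pool.Agent.Helper996.Struct
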