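import Mathlib
import Pool.Agent.Helper996.Struct

set_option linter.unusedSectionVars false

namespace Pool.Agent.Helper996.Final

open Finset
open scoped Classical
open Pool.Agent.Helper996.Bisect Pool.Agent.Helper996.Twin Pool.Agent.Helper996.Struct

variable {V : Type*} [Fintype V] [DecidableEq V]

/-- crossing number of a set and its complement, as a form. -/
noncomputable def cr (G : SimpleGraph V) (A : Finset V) : ℕ :=
  ((A ×ˢ Aᶜ).filter (fun p => G.Adj p.1 p.2)).card

theorem cr_formula (G : SimpleGraph V) (A : Finset V) :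
    4 * (cr G A : ℤ) = B G 1 1 - B G (ind A - ind Aᶜ) (ind A - ind Aᶜ) := by
  unfold cr
  rw [← B_ind]
  have hone : (1 : V → ℤ) = ind A + ind Aᶜ := by
    ext v
    by_cases h : v ∈ A <;> simp [ind, h]
  have e1 : B G 1 1 = B G (ind A) (ind A) + 2 * B G (ind A) (ind Aᶜ) + B G (ind Aᶜ) (ind Aᶜ) := by
    rw [hone, B_add_left, B_add_right, B_add_right, B_comm G (ind Aᶜ) (ind A)]; ring
  have e2 : B G (ind A - ind Aᶜ) (ind A - ind Aᶜ)
      = B G (ind A) (ind A) - 2 * B G (ind A) (ind Aᶜ) + B G (ind Aᶜ) (ind Aᶜ) := by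
    rw [B_sub_left, B_sub_right, B_sub_right, B_comm G (ind Aᶜ) (ind A)]; ring
  linarith

theorem bisect_of_signing (G : SimpleGraph V) (x : V → ℤ) (hx : ∀ v, x v = 1 ∨ x v = -1)
    (hs : ∑ v, x v = 0 ∨ ∑ v, x v = -1) :
    ∃ A : Finset V, A.card ≤ Aᶜ.card ∧ Aᶜ.card ≤ A.card + 1 ∧
      4 * (cr G A : ℤ) = B G 1 1 - B G x x := by
  set A : Finset V := univ.filter (fun v => x v = 1) with hA
  have hxA : x = ind A - ind Aᶜ := by
    ext v
    rcases hx v with h | h
    · have : v ∈ A := by rw [hA, mem_filter]; exact ⟨mem_univ v, h⟩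
      simp [ind, this, h]
    · have : v ∉ A := by rw [hA, mem_filter]; rintro ⟨_, h'⟩; rw [h] at h'; norm_num at h'
      simp [ind, this, h]
  have hsum : ∑ v, x v = (A.card : ℤ) - (Aᶜ.card : ℤ) := by
    rw [hxA]
    simp only [Pi.sub_apply]
    rw [sum_sub_distrib, sum_ind, sum_ind]
  refine ⟨A, by omega, by omega, ?_⟩
  rw [cr_formula, ← hxA]

theorem B_zero_of_support (G : SimpleGraph V) (y z : V → ℤ)
    (h : ∀ u v, G.Adj u v → y u = 0 ∨ z v = 0) : B G y z = 0 := by
  unfold B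
  refine sum_eq_zero fun u _ => sum_eq_zero fun v _ => ?_
  split_ifs with hadj
  · rcases h u v hadj with h | h <;> rw [h] <;> ring
  · rfl

/-- The balance correction. -/
noncomputable def sg (V : Type*) [Fintype V] : ℤ := if Even (Fintype.card V) then 0 else -1

theorem sg_cases (V : Type*) [Fintype V] : sg V = 0 ∨ sg V = -1 := by
  unfold sg; split_ifs <;> simp

theorem twin_signing (G : SimpleGraph V) (T A : Finset V)
    (hT : ∀ w ∈ T, ∀ u, (G.Adj u w ↔ u ∈ A)) (y : V → ℤ)
    (hy1 : ∀ v, v ∉ T ∪ A → (y v = 1 ∨ y v = -1)) (hy0 : ∀ v ∈ T ∪ A, y v = 0)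
    (hbig : ((T ∪ A)ᶜ).card + A.card + 1 ≤ T.card) :
    ∃ x : V → ℤ, (∀ v, x v = 1 ∨ x v = -1) ∧ ∑ v, x v = sg V ∧
      B G x x = B G (ind A) (ind A) + 2 * B G (ind A) y + B G y y
        + 2 * A.card * (-(A.card : ℤ) - ∑ v, y v + sg V) := by
  have hTA : Disjoint T A := by
    rw [disjoint_left]
    intro w hw hwA
    exact G.loopless.irrefl w ((hT w hw w).mpr hwA)
  set X := (T ∪ A)ᶜ with hX
  set s := ∑ v, y v with hs
  have hsX : s = ∑ v ∈ X, y v := by
    rw [hs, ← sum_subset (subset_univ X)]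
    intro v _ hv
    refine hy0 v ?_
    by_contra h
    exact hv (by rw [hX, mem_compl]; exact h)
  have hyX : ∀ v ∈ X, y v = 1 ∨ y v = -1 := fun v hv => hy1 v (by simpa [hX] using hv)
  have hs1 : s ≤ X.card := by
    rw [hsX]
    calc ∑ v ∈ X, y v ≤ ∑ v ∈ X, (1 : ℤ) := sum_le_sum fun v hv => by
          rcases hyX v hv with h | h <;> omega
      _ = X.card := by simp
  have hs2 : -(X.card : ℤ) ≤ s := by
    rw [hsX]
    calc -(X.card : ℤ) = ∑ v ∈ X, (-1 : ℤ) := by simp
      _ ≤ ∑ v ∈ X, y v := sum_le_sum fun v hv => by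
          rcases hyX v hv with h | h <;> omega
  have hspar : ∃ k : ℤ, s = X.card + 2 * k := by
    have h4 : ∀ v ∈ X, ∃ k : ℤ, y v = 1 + 2 * k := by
      intro v hv
      rcases hyX v hv with h | h
      · exact ⟨0, by rw [h]; ring⟩
      · exact ⟨-1, by rw [h]; ring⟩
    choose! k hk using h4
    refine ⟨∑ v ∈ X, k v, ?_⟩
    rw [hsX, sum_congr rfl hk, sum_add_distrib, ← mul_sum]
    simp
  have hn : Fintype.card V = T.card + A.card + X.card := by
    rw [hX, card_compl, card_union_of_disjoint hTA]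
    have : (T ∪ A).card ≤ Fintype.card V := card_le_univ _
    rw [card_union_of_disjoint hTA] at this
    omega
  have hsgc := sg_cases V
  have hpar : ∃ k : ℤ, (Fintype.card V : ℤ) + sg V = 2 * k := by
    unfold sg
    split_ifs with h
    · obtain ⟨k, hk⟩ := h
      exact ⟨k, by rw [hk]; push_cast; ring⟩
    · rw [Nat.not_even_iff_odd] at h
      obtain ⟨k, hk⟩ := h
      exact ⟨k, by rw [hk]; push_cast; ring⟩
  obtain ⟨k, hk1, hk2⟩ : ∃ k : ℕ, 2 * (k : ℤ) = T.card - A.card - s + sg V ∧ k ≤ T.card := by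
    obtain ⟨k1, hk1⟩ := hspar
    obtain ⟨k2, hk2⟩ := hpar
    have h1 : (T.card : ℤ) - A.card - s + sg V = 2 * (k2 - A.card - X.card - k1) := by
      rw [hk1]
      have : (Fintype.card V : ℤ) = T.card + A.card + X.card := by exact_mod_cast hn
      rw [this] at hk2
      linarith
    have h2 : (0 : ℤ) ≤ k2 - A.card - X.card - k1 := by
      have : (0 : ℤ) ≤ (T.card : ℤ) - A.card - s + sg V := by
        have : ((X.card : ℤ) + A.card + 1) ≤ T.card := by exact_mod_cast hbig
        rcases hsgc with h | h <;> rw [h] <;> linarith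
      linarith
    obtain ⟨k, hk⟩ := Int.eq_ofNat_of_zero_le h2
    refine ⟨k, by rw [h1, hk], ?_⟩
    have h3 : 2 * (k : ℤ) ≤ 2 * T.card := by
      rw [← hk, ← h1]
      have : ((X.card : ℤ) + A.card + 1) ≤ T.card := by exact_mod_cast hbig
      rcases hsgc with h | h <;> rw [h] <;> linarith
    omega
  obtain ⟨Tp, hTp, hTpc⟩ := exists_subset_card_eq hk2
  set t : V → ℤ := ind Tp - ind (T \ Tp) with ht
  have hts : ∑ v, t v = -(A.card : ℤ) - s + sg V := by
    rw [ht]
    simp only [Pi.sub_apply]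
    rw [sum_sub_distrib, sum_ind, sum_ind, card_sdiff_of_subset hTp, hTpc, Nat.cast_sub hk2]
    linarith
  have hBAT : ∀ T' ⊆ T, B G (ind A) (ind T') = A.card * T'.card := by
    intro T' hT'
    rw [B_ind]
    have : (A ×ˢ T').filter (fun p => G.Adj p.1 p.2) = A ×ˢ T' := by
      rw [filter_eq_self]
      intro p hp
      rw [mem_product] at hp
      exact (hT p.2 (hT' hp.2) p.1).mpr hp.1
    rw [this, card_product]; push_cast; ring
  have hBAt : B G (ind A) t = A.card * (-(A.card : ℤ) - s + sg V) := by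
    rw [ht, B_sub_right, hBAT _ hTp, hBAT _ sdiff_subset, ← hts, ht]
    simp only [Pi.sub_apply]
    rw [sum_sub_distrib, sum_ind, sum_ind]; ring
  have htsupp : ∀ v, v ∉ T → t v = 0 := by
    intro v hv
    have h1 : v ∉ Tp := fun h => hv (hTp h)
    simp [ht, ind, h1, hv]
  have hBtt : B G t t = 0 := by
    apply B_zero_of_support
    intro u v hadj
    by_cases hv : v ∈ T
    · left
      apply htsupp
      intro hu
      exact disjoint_left.mp hTA hu ((hT v hv u).mp hadj)
    · right; exact htsupp v hv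
  have hByt : B G y t = 0 := by
    apply B_zero_of_support
    intro u v hadj
    by_cases hv : v ∈ T
    · left
      exact hy0 u (mem_union_right _ ((hT v hv u).mp hadj))
    · right; exact htsupp v hv
  refine ⟨ind A + y + t, ?_, ?_, ?_⟩
  · intro v
    by_cases hvA : v ∈ A
    · have h1 : v ∉ T := fun h => disjoint_left.mp hTA h hvA
      have h2 : y v = 0 := hy0 v (mem_union_right _ hvA)
      left
      simp [ind, hvA, h2, htsupp v h1]
    · by_cases hvT : v ∈ T
      · have h2 : y v = 0 := hy0 v (mem_union_left _ hvT)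
        by_cases hvp : v ∈ Tp
        · left; simp [ind, hvA, h2, ht, hvp]
        · right; simp [ind, hvA, h2, ht, hvp, hvT]
      · have h3 : v ∉ T ∪ A := by simp [hvA, hvT]
        have := hy1 v h3
        simpa [ind, hvA, htsupp v hvT] using this
  · simp only [Pi.add_apply]
    rw [sum_add_distrib, sum_add_distrib, sum_ind, hts]
    ring
  · have e : B G (ind A + y + t) (ind A + y + t) = B G (ind A) (ind A) + 2 * B G (ind A) y
        + B G y y + 2 * B G (ind A) t + 2 * B G y t + B G t t := by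
      simp only [B_add_left, B_add_right]
      rw [B_comm G y (ind A), B_comm G t (ind A), B_comm G t y]
      ring
    rw [e, hBtt, hByt, hBAt]
    ring

/-- total form in the twin structure. -/
theorem twin_total (G : SimpleGraph V) (T A : Finset V)
    (hT : ∀ w ∈ T, ∀ u, (G.Adj u w ↔ u ∈ A)) :
    B G 1 1 = B G (ind A) (ind A) + 2 * A.card * T.card + 2 * B G (ind A) (ind (T ∪ A)ᶜ)
      + B G (ind (T ∪ A)ᶜ) (ind (T ∪ A)ᶜ) := by
  have hTA : Disjoint T A := by
    rw [disjoint_left]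
    intro w hw hwA
    exact G.loopless.irrefl w ((hT w hw w).mpr hwA)
  have hone : (1 : V → ℤ) = ind A + ind (T ∪ A)ᶜ + ind T := by
    ext v
    by_cases h : v ∈ A
    · have h1 : v ∉ T := fun h' => disjoint_left.mp hTA h' h
      simp [ind, h, h1]
    · by_cases h1 : v ∈ T <;> simp [ind, h, h1]
  have hBAT : B G (ind A) (ind T) = A.card * T.card := by
    rw [B_ind]
    have : (A ×ˢ T).filter (fun p => G.Adj p.1 p.2) = A ×ˢ T := by
      rw [filter_eq_self]
      intro p hp
      rw [mem_product] at hp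
      exact (hT p.2 hp.2 p.1).mpr hp.1
    rw [this, card_product]; push_cast; ring
  have hTT : B G (ind T) (ind T) = 0 := by
    apply B_ind_zero
    intro u hu v hv hadj
    exact disjoint_left.mp hTA hu ((hT v hv u).mp hadj)
  have hXT : B G (ind (T ∪ A)ᶜ) (ind T) = 0 := by
    apply B_ind_zero
    intro u hu v hv hadj
    rw [mem_compl, mem_union, not_or] at hu
    exact hu.2 ((hT v hv u).mp hadj)
  conv_lhs => rw [hone]
  simp only [B_add_left, B_add_right]
  rw [B_comm G (ind (T ∪ A)ᶜ) (ind A), B_comm G (ind T) (ind A), B_comm G (ind T) (ind (T ∪ A)ᶜ),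
    hBAT, hTT, hXT]
  ring

/-- First lower bound in the twin structure. -/
theorem twin_lower_one (G : SimpleGraph V) (T A : Finset V)
    (hT : ∀ w ∈ T, ∀ u, (G.Adj u w ↔ u ∈ A))
    (hbig : ((T ∪ A)ᶜ).card + A.card + 1 ≤ T.card) :
    ∃ S : Finset V, S.card ≤ Sᶜ.card ∧ Sᶜ.card ≤ S.card + 1 ∧
      4 * (cr G S : ℤ) = 2 * A.card * (Fintype.card V - sg V) := by
  have hTA : Disjoint T A := by
    rw [disjoint_left]
    intro w hw hwA
    exact G.loopless.irrefl w ((hT w hw w).mpr hwA)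
  obtain ⟨x, hx1, hx2, hx3⟩ := twin_signing G T A hT (ind (T ∪ A)ᶜ)
    (fun v hv => by left; simp [ind] at *; tauto)
    (fun v hv => by simp [ind] at *; tauto) hbig
  obtain ⟨S, h1, h2, h3⟩ := bisect_of_signing G x hx1 (by
    rw [hx2]; exact sg_cases V)
  refine ⟨S, h1, h2, ?_⟩
  rw [h3, hx3, twin_total G T A hT, sum_ind]
  have hn : (Fintype.card V : ℤ) = T.card + A.card + ((T ∪ A)ᶜ).card := by
    have : Fintype.card V = T.card + A.card + ((T ∪ A)ᶜ).card := by
      rw [card_compl, card_union_of_disjoint hTA]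
      have : (T ∪ A).card ≤ Fintype.card V := card_le_univ _
      rw [card_union_of_disjoint hTA] at this
      omega
    exact_mod_cast this
  rw [hn]; ring

/-- Second lower bound in the twin structure. -/
theorem twin_lower_two (G : SimpleGraph V) (T A : Finset V)
    (hT : ∀ w ∈ T, ∀ u, (G.Adj u w ↔ u ∈ A))
    (hbig : ((T ∪ A)ᶜ).card + A.card + 1 ≤ T.card) :
    ∃ S : Finset V, S.card ≤ Sᶜ.card ∧ Sᶜ.card ≤ S.card + 1 ∧
      ∃ (q : ℕ) (r H : ℤ), 0 ≤ r ∧ (q : ℤ) * (q - 1) ≤ H ∧ H ≤ q * r ∧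
        B G 1 1 ≤ A.card * (A.card - 1 : ℤ) + 2 * A.card * (Fintype.card V - A.card) + H ∧
        B G 1 1 + A.card * (A.card + 1 : ℤ) - 2 * A.card * sg V + r ≤ 4 * (cr G S : ℤ) := by
  have hTA : Disjoint T A := by
    rw [disjoint_left]
    intro w hw hwA
    exact G.loopless.irrefl w ((hT w hw w).mpr hwA)
  have hn : (Fintype.card V : ℤ) = T.card + A.card + ((T ∪ A)ᶜ).card := by
    have : Fintype.card V = T.card + A.card + ((T ∪ A)ᶜ).card := by
      rw [card_compl, card_union_of_disjoint hTA]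
      have : (T ∪ A).card ≤ Fintype.card V := card_le_univ _
      rw [card_union_of_disjoint hTA] at this
      omega
    exact_mod_cast this
  obtain ⟨q, r, hr0, hq1, hq2, y, hy1, hy2, hy3⟩ := edwards G (T ∪ A)ᶜ
  -- choose the sign of y
  have key : ∀ z : V → ℤ, (∀ v ∈ (T ∪ A)ᶜ, z v = 1 ∨ z v = -1) → (∀ v, v ∉ (T ∪ A)ᶜ → z v = 0) →
      B G z z ≤ -r → B G (ind A) z - A.card * ∑ v, z v ≤ 0 →
      ∃ S : Finset V, S.card ≤ Sᶜ.card ∧ Sᶜ.card ≤ S.card + 1 ∧
        B G 1 1 + A.card * (A.card + 1 : ℤ) - 2 * A.card * sg V + r ≤ 4 * (cr G S : ℤ) := by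
    intro z hz1 hz2 hz3 hz4
    obtain ⟨x, hx1, hx2, hx3⟩ := twin_signing G T A hT z
      (fun v hv => hz1 v (by rw [mem_compl]; exact hv))
      (fun v hv => hz2 v (by rw [mem_compl, not_not]; exact hv)) hbig
    obtain ⟨S, h1, h2, h3⟩ := bisect_of_signing G x hx1 (by
      rw [hx2]; exact sg_cases V)
    refine ⟨S, h1, h2, ?_⟩
    rw [h3, hx3]
    have h4 := B_ind_self_le G A
    linarith
  have hS : ∃ S : Finset V, S.card ≤ Sᶜ.card ∧ Sᶜ.card ≤ S.card + 1 ∧
        B G 1 1 + A.card * (A.card + 1 : ℤ) - 2 * A.card * sg V + r ≤ 4 * (cr G S : ℤ) := by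
    rcases le_total (B G (ind A) y - A.card * ∑ v, y v) 0 with h | h
    · exact key y hy1 hy2 hy3 h
    · refine key (-y) ?_ ?_ ?_ ?_
      · intro v hv
        rcases hy1 v hv with h | h <;> simp [h]
      · intro v hv
        simp [hy2 v hv]
      · rw [B_neg_left, B_neg_right, neg_neg]; exact hy3
      · rw [B_neg_right]
        simp only [Pi.neg_apply]
        rw [sum_neg_distrib]
        linarith
  obtain ⟨S, h1, h2, h3⟩ := hS
  refine ⟨S, h1, h2, q, r, _, hr0, hq1, hq2, ?_, h3⟩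
  rw [twin_total G T A hT]
  have h4 := B_ind_self_le G A
  have h5 := B_ind_le G A (T ∪ A)ᶜ
  rw [hn]
  linarith

/-- The dichotomy for `n² ≥ 64 m`. -/
theorem dichotomy (G : SimpleGraph V) (m : ℕ) (hm : G.edgeSet.ncard = m)
    (hn : 64 * m ≤ (Fintype.card V) ^ 2) :
    (∃ S : Finset V, S.card ≤ Sᶜ.card ∧ Sᶜ.card ≤ S.card + 1 ∧
      ∃ ρ : ℕ, 2 * m ≤ ρ ^ 2 ∧ 2 * (m : ℤ) + ρ ≤ 4 * (cr G S : ℤ)) ∨
    (∃ (T A : Finset V) (w0 : V), w0 ∈ T ∧ (∀ w ∈ T, ∀ u, (G.Adj u w ↔ u ∈ A)) ∧
      ((T ∪ A)ᶜ).card + A.card + 1 ≤ T.card) := by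
  have hB := B_one_one G
  rw [hm] at hB
  obtain ⟨U, hU, hI⟩ := exists_max_matching G
  set n := Fintype.card V with hndef
  set k := U.card with hk
  by_cases hcase : 2 * m ≤ k ^ 2
  · left
    obtain ⟨S, h1, h2, h3⟩ := bisect_of_good hU
    refine ⟨S, h1, h2, k, hcase, ?_⟩
    rw [hB] at h3
    exact h3
  · push Not at hcase
    have hmpos : 0 < m := by
      rcases Nat.eq_zero_or_pos m with h | h
      · subst h; simp at hcase
      · exact h
    -- choose p
    have hexp : ∃ p : ℕ, m ≤ 2 * p ^ 2 := ⟨m, by nlinarith⟩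
    set p := Nat.find hexp with hp
    have hp1 : m ≤ 2 * p ^ 2 := Nat.find_spec hexp
    have hppos : 0 < p := by
      rcases Nat.eq_zero_or_pos p with h | h
      · rw [h] at hp1; simp at hp1; omega
      · exact h
    have hp2 : 2 * (p - 1) ^ 2 < m := by
      have := Nat.find_min hexp (m := p - 1) (by omega)
      omega
    -- size inequalities
    have hsize : 2 * k + 4 * p ≤ n + 3 ∧ 2 * k + 2 * p ≤ n := by
      have hk' : (k : ℝ) ^ 2 ≤ 2 * m := by exact_mod_cast hcase.le
      have hp' : 2 * ((p : ℝ) - 1) ^ 2 ≤ m := by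
        have : (2 * (p - 1) ^ 2 : ℕ) ≤ m := hp2.le
        have h2 : ((2 * (p - 1) ^ 2 : ℕ) : ℝ) ≤ m := by exact_mod_cast this
        rw [Nat.cast_mul, Nat.cast_pow, Nat.cast_sub hppos] at h2
        simpa using h2
      have hn' : 64 * (m : ℝ) ≤ (n : ℝ) ^ 2 := by exact_mod_cast hn
      set r := Real.sqrt m with hr
      have hrr : r ^ 2 = m := Real.sq_sqrt (Nat.cast_nonneg m)
      have hr1 : 1 ≤ r := by
        rw [hr, show (1 : ℝ) = Real.sqrt 1 by simp]
        exact Real.sqrt_le_sqrt (by exact_mod_cast hmpos)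
      have hk2 : (k : ℝ) ≤ 1.415 * r := by
        apply abs_le_of_sq_le_sq' _ (by positivity) |>.2
        rw [mul_pow, hrr]
        have : (0 : ℝ) ≤ m := Nat.cast_nonneg m
        nlinarith
      have hp3 : (p : ℝ) - 1 ≤ 0.708 * r := by
        apply abs_le_of_sq_le_sq' _ (by positivity) |>.2
        rw [mul_pow, hrr]
        have : (0 : ℝ) ≤ m := Nat.cast_nonneg m
        nlinarith
      have hn2 : 8 * r ≤ n := by
        apply le_of_sq_le_sq _ (Nat.cast_nonneg n)
        rw [mul_pow, hrr]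
        linarith
      constructor
      · have : (2 * k + 4 * p : ℝ) ≤ n + 3 := by linarith
        exact_mod_cast this
      · have : (2 * k + 2 * p : ℝ) ≤ n := by linarith
        exact_mod_cast this
    have hUc : (Uᶜ).card = n - k := by rw [card_compl]
    by_cases hpairs : ∀ w0 ∈ Uᶜ,
        2 * p ≤ ((Uᶜ).filter (fun w => ¬ ∀ u, (G.Adj u w ↔ G.Adj u w0))).card + 1
    · left
      obtain ⟨W, hW⟩ := exists_good_of_pairs G U p hI hpairs (by omega)
      obtain ⟨S, h1, h2, h3⟩ := bisect_of_good hW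
      refine ⟨S, h1, h2, 2 * p, by nlinarith, ?_⟩
      rw [hB] at h3
      push_cast
      exact h3
    · right
      rw [not_forall] at hpairs
      obtain ⟨w0, hpairs⟩ := hpairs
      rw [Classical.not_imp, not_le] at hpairs
      obtain ⟨hw0, hlt⟩ := hpairs
      set T := (Uᶜ).filter (fun w => ∀ u, (G.Adj u w ↔ G.Adj u w0)) with hT
      set A : Finset V := univ.filter (fun u => G.Adj u w0) with hA
      have hw0T : w0 ∈ T := by rw [hT, mem_filter]; exact ⟨hw0, fun u => Iff.rfl⟩
      have hTadj : ∀ w ∈ T, ∀ u, (G.Adj u w ↔ u ∈ A) := by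
        intro w hw u
        rw [hT, mem_filter] at hw
        rw [hw.2 u, hA, mem_filter]
        simp
      refine ⟨T, A, w0, hw0T, hTadj, ?_⟩
      have hTA : Disjoint T A := by
        rw [disjoint_left]
        intro w hw hwA
        exact G.loopless.irrefl w ((hTadj w hw w).mpr hwA)
      have hTc : T.card + ((Uᶜ).filter (fun w => ¬ ∀ u, (G.Adj u w ↔ G.Adj u w0))).card
          = (Uᶜ).card := by
        rw [hT]
        exact card_filter_add_card_filter_not _
      have hlt' : ((Uᶜ).filter (fun w => ¬ ∀ u, (G.Adj u w ↔ G.Adj u w0))).card + 1 < 2 * p := hlt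
      have hn3 : n = T.card + A.card + ((T ∪ A)ᶜ).card := by
        rw [card_compl, card_union_of_disjoint hTA]
        have : (T ∪ A).card ≤ Fintype.card V := card_le_univ _
        rw [card_union_of_disjoint hTA] at this
        omega
      have hkn : k ≤ n := card_le_univ U
      omega

end Pool.Agent.Helper996.Final
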