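import Mathlib
import Pool.Agent.Helper996.Final

set_option linter.unusedSectionVars false

namespace Pool.Agent.Helper996.Upper

open Finset
open scoped Classical
open Pool.Agent.Helper996.Bisect Pool.Agent.Helper996.Twin Pool.Agent.Helper996.Struct
open Pool.Agent.Helper996.Final

variable {V : Type*} [Fintype V] [DecidableEq V]

/-- all pairs meeting `A`. -/
def GA (A : Finset V) : SimpleGraph V where
  Adj u v := u ≠ v ∧ (u ∈ A ∨ v ∈ A)
  symm := ⟨fun _ _ h => ⟨h.1.symm, h.2.symm⟩⟩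
  loopless := ⟨fun _ h => h.1 rfl⟩

/-- complete graph on `X`. -/
def GK (X : Finset V) : SimpleGraph V where
  Adj u v := u ≠ v ∧ u ∈ X ∧ v ∈ X
  symm := ⟨fun _ _ h => ⟨h.1.symm, h.2.2, h.2.1⟩⟩
  loopless := ⟨fun _ h => h.1 rfl⟩

theorem B_GA (A : Finset V) (x : V → ℤ) :
    B (GA A) x x = 2 * (∑ v ∈ A, x v) * (∑ v, x v) - (∑ v ∈ A, x v) ^ 2 - ∑ v ∈ A, x v * x v := by
  set f : V → ℤ := fun v => if v ∈ A then x v else 0 with hf
  set g : V → ℤ := fun v => if v ∈ A then 0 else x v with hg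
  have h1 : ∀ u v, (if (GA A).Adj u v then x u * x v else 0)
      = f u * f v + f u * g v + g u * f v - (if u = v then f u * f v else 0) := by
    intro u v
    by_cases huv : u = v
    · subst huv
      by_cases hu : u ∈ A <;> simp [GA, hf, hg, hu]
    · by_cases hu : u ∈ A <;> by_cases hv : v ∈ A <;> simp [GA, hf, hg, hu, hv, huv]
  have hsf : ∑ v, f v = ∑ v ∈ A, x v := by rw [hf, ← sum_filter]; simp
  have hsx : ∑ v, x v = ∑ v, f v + ∑ v, g v := by
    rw [← sum_add_distrib]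
    refine sum_congr rfl fun v _ => ?_
    by_cases hv : v ∈ A <;> simp [hf, hg, hv]
  have hff : ∑ v, f v * f v = ∑ v ∈ A, x v * x v := by
    rw [show ∑ v ∈ A, x v * x v = ∑ v, if v ∈ A then x v * x v else 0 by rw [← sum_filter]; simp]
    refine sum_congr rfl fun v _ => ?_
    by_cases hv : v ∈ A <;> simp [hf, hv]
  unfold B
  simp_rw [h1, sum_sub_distrib, sum_add_distrib, ← mul_sum, ← sum_mul]
  simp only [sum_ite_eq, mem_univ, if_true]
  rw [hff, hsx, ← hsf]
  ring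

theorem B_GK (X : Finset V) (x : V → ℤ) :
    B (GK X) x x = (∑ v ∈ X, x v) ^ 2 - ∑ v ∈ X, x v * x v := by
  set f : V → ℤ := fun v => if v ∈ X then x v else 0 with hf
  have h1 : ∀ u v, (if (GK X).Adj u v then x u * x v else 0)
      = f u * f v - (if u = v then f u * f v else 0) := by
    intro u v
    by_cases huv : u = v
    · subst huv
      by_cases hu : u ∈ X <;> simp [GK, hf, hu]
    · by_cases hu : u ∈ X <;> by_cases hv : v ∈ X <;> simp [GK, hf, hu, hv, huv]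
  have hsf : ∑ v, f v = ∑ v ∈ X, x v := by rw [hf, ← sum_filter]; simp
  have hff : ∑ v, f v * f v = ∑ v ∈ X, x v * x v := by
    rw [show ∑ v ∈ X, x v * x v = ∑ v, if v ∈ X then x v * x v else 0 by rw [← sum_filter]; simp]
    refine sum_congr rfl fun v _ => ?_
    by_cases hv : v ∈ X <;> simp [hf, hv]
  unfold B
  simp_rw [h1, sum_sub_distrib, ← mul_sum, ← sum_mul]
  simp only [sum_ite_eq, mem_univ, if_true]
  rw [hff, ← hsf]
  ring

theorem B_sup (G H : SimpleGraph V) (h : ∀ u v, G.Adj u v → ¬ H.Adj u v) (x y : V → ℤ) :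
    B (G ⊔ H) x y = B G x y + B H x y := by
  unfold B
  rw [← sum_add_distrib]
  refine sum_congr rfl fun u _ => ?_
  rw [← sum_add_distrib]
  refine sum_congr rfl fun v _ => ?_
  rw [SimpleGraph.sup_adj]
  by_cases h1 : G.Adj u v
  · have h2 := h u v h1
    simp [h1, h2]
  · simp [h1]

/-- for signings the form is at least `-2e`. -/
theorem B_ge (G : SimpleGraph V) (x : V → ℤ) (hx : ∀ v, x v = 1 ∨ x v = -1) :
    -(2 * (G.edgeSet.ncard : ℤ)) ≤ B G x x := by
  rw [← B_one_one]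
  unfold B
  rw [← sum_neg_distrib]
  refine sum_le_sum fun u _ => ?_
  rw [← sum_neg_distrib]
  refine sum_le_sum fun v _ => ?_
  split_ifs
  · rcases hx u with h1 | h1 <;> rcases hx v with h2 | h2 <;> rw [h1, h2] <;> simp
  · simp

theorem B_le (G : SimpleGraph V) (x : V → ℤ) (hx : ∀ v, x v = 1 ∨ x v = -1) :
    B G x x ≤ 2 * (G.edgeSet.ncard : ℤ) := by
  rw [← B_one_one]
  unfold B
  refine sum_le_sum fun u _ => ?_
  refine sum_le_sum fun v _ => ?_
  split_ifs
  · rcases hx u with h1 | h1 <;> rcases hx v with h2 | h2 <;> rw [h1, h2] <;> simp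
  · simp

theorem exists_subgraph (H : SimpleGraph V) (j : ℕ) (hj : j ≤ H.edgeSet.ncard) :
    ∃ G : SimpleGraph V, G ≤ H ∧ G.edgeSet.ncard = j := by
  obtain ⟨T, hT, hc⟩ := Set.exists_subset_card_eq hj
  have hd : T \ Sym2.diagSet = T := by
    rw [sdiff_eq_left, Set.disjoint_left]
    intro e he hd
    exact SimpleGraph.not_isDiag_of_mem_edgeSet _ (hT he) (by simpa using hd)
  refine ⟨SimpleGraph.fromEdgeSet T, ?_, ?_⟩
  · rw [← SimpleGraph.edgeSet_subset_edgeSet, SimpleGraph.edgeSet_fromEdgeSet, hd]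
    exact hT
  · rw [SimpleGraph.edgeSet_fromEdgeSet, hd, hc]

theorem signing_of_bisection (S : Finset V) (h1 : S.card ≤ Sᶜ.card) (h2 : Sᶜ.card ≤ S.card + 1) :
    (∀ v, (ind S - ind Sᶜ) v = 1 ∨ (ind S - ind Sᶜ) v = -1) ∧
      ∑ v, (ind S - ind Sᶜ) v = sg V := by
  constructor
  · intro v
    by_cases hv : v ∈ S <;> simp [ind, hv]
  · simp only [Pi.sub_apply]
    rw [sum_sub_distrib, sum_ind, sum_ind]
    have hn : S.card + (Sᶜ).card = Fintype.card V := card_add_card_compl S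
    unfold sg
    split_ifs with h
    · obtain ⟨k, hk⟩ := h
      omega
    · rw [Nat.not_even_iff_odd] at h
      obtain ⟨k, hk⟩ := h
      omega

theorem sum_sq_signing (x : V → ℤ) (hx : ∀ v, x v = 1 ∨ x v = -1) (A : Finset V) :
    ∑ v ∈ A, x v * x v = A.card := by
  rw [sum_congr rfl (fun v _ => show x v * x v = 1 by rcases hx v with h | h <;> rw [h] <;> ring)]
  simp

theorem sum_le_signing (x : V → ℤ) (hx : ∀ v, x v = 1 ∨ x v = -1) (A : Finset V) :
    ∑ v ∈ A, x v ≤ A.card ∧ -(A.card : ℤ) ≤ ∑ v ∈ A, x v := by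
  constructor
  · calc ∑ v ∈ A, x v ≤ ∑ v ∈ A, (1 : ℤ) := sum_le_sum fun v _ => by
          rcases hx v with h | h <;> omega
      _ = A.card := by simp
  · calc -(A.card : ℤ) = ∑ v ∈ A, (-1 : ℤ) := by simp
      _ ≤ ∑ v ∈ A, x v := sum_le_sum fun v _ => by
          rcases hx v with h | h <;> omega

theorem GA_bound (A : Finset V) (x : V → ℤ) (hx : ∀ v, x v = 1 ∨ x v = -1)
    (hs : ∑ v, x v = sg V) :
    -((A.card : ℤ) * (A.card + 1) - 2 * A.card * sg V) ≤ B (GA A) x x := by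
  rw [B_GA, sum_sq_signing x hx, hs]
  obtain ⟨h1, h2⟩ := sum_le_signing x hx A
  set s := ∑ v ∈ A, x v
  have h3 : s ^ 2 ≤ (A.card : ℤ) ^ 2 := by
    rw [sq_le_sq]
    rw [abs_le]
    constructor
    · rw [Nat.abs_cast]; exact h2
    · rw [Nat.abs_cast]; exact h1
  rcases sg_cases V with h | h <;> rw [h] <;> nlinarith

theorem GK_bound (X : Finset V) (x : V → ℤ) (hx : ∀ v, x v = 1 ∨ x v = -1) :
    -(2 * ((X.card / 2 : ℕ) : ℤ)) ≤ B (GK X) x x := by
  rw [B_GK, sum_sq_signing x hx]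
  have hpar : ∃ k : ℤ, ∑ v ∈ X, x v = X.card + 2 * k := by
    have h4 : ∀ v ∈ X, ∃ k : ℤ, x v = 1 + 2 * k := by
      intro v hv
      rcases hx v with h | h
      · exact ⟨0, by rw [h]; ring⟩
      · exact ⟨-1, by rw [h]; ring⟩
    choose! k hk using h4
    refine ⟨∑ v ∈ X, k v, ?_⟩
    rw [sum_congr rfl hk, sum_add_distrib, ← mul_sum]
    simp
  obtain ⟨k, hk⟩ := hpar
  rw [hk]
  rcases Nat.even_or_odd' X.card with ⟨c, hc | hc⟩
  · have : X.card / 2 = c := by omega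
    rw [this, hc]
    push_cast
    nlinarith [sq_nonneg ((2 * (c : ℤ)) + 2 * k)]
  · have : X.card / 2 = c := by omega
    rw [this, hc]
    push_cast
    have h5 : 1 ≤ (2 * (c : ℤ) + 1 + 2 * k) ^ 2 := by
      have : (2 * (c : ℤ) + 1 + 2 * k) ≠ 0 := by omega
      have := sq_pos_of_ne_zero this
      omega
    linarith

theorem card_GA (A : Finset V) :
    2 * ((GA A).edgeSet.ncard : ℤ) = 2 * A.card * (Fintype.card V - A.card) + A.card * (A.card - 1) := by
  rw [← B_one_one, B_GA]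
  simp only [Pi.one_apply, sum_const, nsmul_eq_mul, mul_one, card_univ]
  ring

theorem card_GK (X : Finset V) :
    2 * ((GK X).edgeSet.ncard : ℤ) = X.card * (X.card - 1) := by
  rw [← B_one_one, B_GK]
  simp only [Pi.one_apply, sum_const, nsmul_eq_mul, mul_one]
  ring

/-- Construction with a surplus of edges. -/
theorem construct_pos (a s1 s2 s3 j3 : ℕ) (hsz : a + s1 + s2 + s3 ≤ Fintype.card V)
    (hj3 : 2 * j3 ≤ s3 * (s3 - 1)) :
    ∃ G : SimpleGraph V, 2 * (G.edgeSet.ncard : ℤ) = 2 * a * (Fintype.card V - a) + a * (a - 1)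
        + s1 * (s1 - 1) + s2 * (s2 - 1) + 2 * j3 ∧
      ∀ S : Finset V, S.card ≤ Sᶜ.card → Sᶜ.card ≤ S.card + 1 →
        4 * (cr G S : ℤ) ≤ 2 * (G.edgeSet.ncard : ℤ) + a * (a + 1) - 2 * a * sg V
          + 2 * ((s1 / 2 : ℕ) : ℤ) + 2 * ((s2 / 2 : ℕ) : ℤ) + 2 * j3 := by
  obtain ⟨A, -, hA⟩ := exists_subset_card_eq (s := (univ : Finset V)) (n := a)
    (by rw [card_univ]; omega)
  obtain ⟨X1, hX1s, hX1⟩ := exists_subset_card_eq (s := Aᶜ) (n := s1)
    (by rw [card_compl]; omega)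
  have d1 : Disjoint A X1 := disjoint_compl_right.mono_right hX1s
  obtain ⟨X2, hX2s, hX2⟩ := exists_subset_card_eq (s := (A ∪ X1)ᶜ) (n := s2)
    (by rw [card_compl, card_union_of_disjoint d1]; omega)
  have d2 : Disjoint (A ∪ X1) X2 := disjoint_compl_right.mono_right hX2s
  obtain ⟨X3, hX3s, hX3⟩ := exists_subset_card_eq (s := (A ∪ X1 ∪ X2)ᶜ) (n := s3)
    (by rw [card_compl, card_union_of_disjoint d2, card_union_of_disjoint d1]; omega)
  have d3 : Disjoint (A ∪ X1 ∪ X2) X3 := disjoint_compl_right.mono_right hX3s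
  obtain ⟨G3, hG3, hG3c⟩ := exists_subgraph (GK X3) j3 (by
    have h1 := card_GK X3
    rw [hX3] at h1
    have h2 : 2 * ((GK X3).edgeSet.ncard : ℤ) = ((s3 * (s3 - 1) : ℕ) : ℤ) := by
      rw [h1]
      rcases Nat.eq_zero_or_pos s3 with h | h
      · rw [h]; simp
      · push_cast [Nat.cast_sub (show 1 ≤ s3 from h)]; ring
    have h3 : 2 * (GK X3).edgeSet.ncard = s3 * (s3 - 1) := by exact_mod_cast h2
    omega)
  have a1 : ∀ v ∈ A, v ∉ X1 := fun v hv h => disjoint_left.mp d1 hv h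
  have a2 : ∀ v ∈ A, v ∉ X2 := fun v hv h => disjoint_left.mp d2 (mem_union_left _ hv) h
  have a3 : ∀ v ∈ A, v ∉ X3 := fun v hv h =>
    disjoint_left.mp d3 (mem_union_left _ (mem_union_left _ hv)) h
  have b2 : ∀ v ∈ X1, v ∉ X2 := fun v hv h => disjoint_left.mp d2 (mem_union_right _ hv) h
  have b3 : ∀ v ∈ X1, v ∉ X3 := fun v hv h =>
    disjoint_left.mp d3 (mem_union_left _ (mem_union_right _ hv)) h
  have c3 : ∀ v ∈ X2, v ∉ X3 := fun v hv h => disjoint_left.mp d3 (mem_union_right _ hv) h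
  have hG3' : ∀ u v, G3.Adj u v → u ∈ X3 ∧ v ∈ X3 := fun u v h => (hG3 h).2
  set G := GA A ⊔ GK X1 ⊔ GK X2 ⊔ G3 with hG
  have hB : ∀ x : V → ℤ, B G x x = B (GA A) x x + B (GK X1) x x + B (GK X2) x x + B G3 x x := by
    intro x
    rw [hG, B_sup, B_sup, B_sup]
    · rintro u v ⟨_, h⟩ ⟨_, h1, h2⟩
      rcases h with h | h
      · exact a1 _ h h1
      · exact a1 _ h h2
    · intro u v h
      rintro ⟨_, h1, h2⟩
      rw [SimpleGraph.sup_adj] at h
      rcases h with ⟨_, h | h⟩ | ⟨_, h3, _⟩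
      · exact a2 _ h h1
      · exact a2 _ h h2
      · exact b2 _ h3 h1
    · intro u v h h4
      obtain ⟨h1, h2⟩ := hG3' _ _ h4
      rw [SimpleGraph.sup_adj, SimpleGraph.sup_adj] at h
      rcases h with (⟨_, h | h⟩ | ⟨_, h3, _⟩) | ⟨_, h3, _⟩
      · exact a3 _ h h1
      · exact a3 _ h h2
      · exact b3 _ h3 h1
      · exact c3 _ h3 h1
  have hcard : 2 * (G.edgeSet.ncard : ℤ) = 2 * a * (Fintype.card V - a) + a * (a - 1)
        + s1 * (s1 - 1) + s2 * (s2 - 1) + 2 * j3 := by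
    rw [← B_one_one, hB 1, B_one_one, B_one_one, B_one_one, B_one_one, card_GA, card_GK, card_GK,
      hG3c, hA, hX1, hX2]
  refine ⟨G, hcard, ?_⟩
  intro S h1 h2
  obtain ⟨hx, hs⟩ := signing_of_bisection S h1 h2
  rw [cr_formula, B_one_one, hB]
  have e1 := GA_bound A _ hx hs
  have e2 := GK_bound X1 _ hx
  have e3 := GK_bound X2 _ hx
  have e4 := B_ge G3 _ hx
  rw [hA] at e1
  rw [hX1] at e2
  rw [hX2] at e3
  rw [hG3c] at e4
  linarith

/-- Construction with a deficit of edges. -/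
theorem construct_neg (a i : ℕ) (ha : a ≤ Fintype.card V)
    (hi : 2 * (i : ℤ) ≤ 2 * a * (Fintype.card V - a) + a * (a - 1)) :
    ∃ G : SimpleGraph V, 2 * (G.edgeSet.ncard : ℤ) = 2 * a * (Fintype.card V - a) + a * (a - 1)
        - 2 * i ∧
      ∀ S : Finset V, S.card ≤ Sᶜ.card → Sᶜ.card ≤ S.card + 1 →
        4 * (cr G S : ℤ) ≤ 2 * (G.edgeSet.ncard : ℤ) + a * (a + 1) - 2 * a * sg V + 2 * i := by
  obtain ⟨A, -, hA⟩ := exists_subset_card_eq (s := (univ : Finset V)) (n := a)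
    (by rw [card_univ]; exact ha)
  have hc := card_GA A
  rw [hA] at hc
  obtain ⟨D, hD, hDc⟩ := exists_subgraph (GA A) i (by
    have : 2 * (i : ℤ) ≤ 2 * ((GA A).edgeSet.ncard : ℤ) := by rw [hc]; exact hi
    have h2 : 2 * i ≤ 2 * (GA A).edgeSet.ncard := by exact_mod_cast this
    omega)
  set G := GA A \ D with hG
  have hsup : GA A = G ⊔ D := by
    rw [hG, sdiff_sup_cancel hD]
  have hB : ∀ x : V → ℤ, B (GA A) x x = B G x x + B D x x := by
    intro x
    conv_lhs => rw [hsup]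
    apply B_sup
    intro u v h h'
    rw [hG, SimpleGraph.sdiff_adj] at h
    exact h.2 h'
  have hcard : 2 * (G.edgeSet.ncard : ℤ) = 2 * a * (Fintype.card V - a) + a * (a - 1)
        - 2 * i := by
    have h1 := hB 1
    rw [B_one_one, B_one_one, B_one_one, hDc, hc] at h1
    linarith
  refine ⟨G, hcard, ?_⟩
  intro S h1 h2
  obtain ⟨hx, hs⟩ := signing_of_bisection S h1 h2
  have e1 := GA_bound A _ hx hs
  have e2 := B_le D _ hx
  have e3 := hB (ind S - ind Sᶜ)
  rw [cr_formula, B_one_one]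
  rw [hA] at e1
  rw [hDc] at e2
  linarith

end Pool.Agent.Helper996.Upper
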