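import Mathlib
import Pool.Agent.Helper996.Upper

set_option linter.unusedSectionVars false

namespace Pool.Agent.Helper996.MinDeg

open Finset
open scoped Classical
open Pool.Agent.Helper996.Bisect Pool.Agent.Helper996.Twin Pool.Agent.Helper996.Struct
open Pool.Agent.Helper996.Final Pool.Agent.Helper996.Upper

variable {V : Type*} [Fintype V] [DecidableEq V]

noncomputable def ps (j : ℝ) : ℝ := (Real.sqrt (8 * j + 1) - 1) / 8

theorem ps_nonneg {j : ℝ} (h : 0 ≤ j) : 0 ≤ ps j := by
  unfold ps
  have : 1 ≤ Real.sqrt (8 * j + 1) := Real.one_le_sqrt.mpr (by linarith)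
  linarith

theorem ps_mono {i j : ℝ} (h : i ≤ j) : ps i ≤ ps j := by
  unfold ps
  have : Real.sqrt (8 * i + 1) ≤ Real.sqrt (8 * j + 1) := Real.sqrt_le_sqrt (by linarith)
  linarith

theorem ps_le_half {j : ℝ} (h : 0 ≤ j) : ps j ≤ j / 2 := by
  unfold ps
  have : Real.sqrt (8 * j + 1) ≤ 4 * j + 1 := by
    apply Real.sqrt_le_iff.mpr
    constructor
    · linarith
    · nlinarith
  linarith

theorem ps_le_of_color {j H q r : ℝ} (hj : 2 * j ≤ H) (hq : 0 ≤ q) (hr : 0 ≤ r)
    (h1 : q * (q - 1) ≤ H) (h2 : H ≤ q * r) (hj0 : 0 ≤ j) : ps j ≤ r / 4 := by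
  unfold ps
  set S := Real.sqrt (8 * j + 1) with hS
  have hS2 : S ^ 2 = 8 * j + 1 := Real.sq_sqrt (by linarith)
  have hS1 : 1 ≤ S := Real.one_le_sqrt.mpr (by linarith)
  by_contra hcon
  push Not at hcon
  have hr' : r < (S - 1) / 2 := by linarith
  have hH : (S ^ 2 - 1) / 4 ≤ H := by linarith
  have hqpos : 0 < q := by
    rcases hq.lt_or_eq with h | h
    · exact h
    · exfalso
      rw [← h] at h2
      have : S ^ 2 ≤ 1 := by linarith
      have hS' : S = 1 := by nlinarith
      rw [hS'] at hr'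
      linarith
  have hrq : q - 1 ≤ r := by
    have : q * (q - 1) ≤ q * r := h1.trans h2
    exact le_of_mul_le_mul_left this hqpos
  have hq2 : q < (S + 1) / 2 := by linarith
  have h3 : q * r < (S + 1) / 2 * ((S - 1) / 2) := by
    have h4 : q * r ≤ (S + 1) / 2 * r := mul_le_mul_of_nonneg_right hq2.le hr
    have h5 : (S + 1) / 2 * r < (S + 1) / 2 * ((S - 1) / 2) :=
      mul_lt_mul_of_pos_left hr' (by linarith)
    linarith
  have h6 : (S + 1) / 2 * ((S - 1) / 2) = (S ^ 2 - 1) / 4 := by ring
  linarith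

/-- `m ≤ |U| n` for the vertex set `U` of a maximal matching. -/
theorem edges_le (G : SimpleGraph V) (U : Finset V) (hI : ∀ u v, u ∉ U → v ∉ U → ¬ G.Adj u v) :
    G.edgeSet.ncard ≤ U.card * Fintype.card V := by
  have hB := B_one_one G
  have hone : (1 : V → ℤ) = ind U + ind Uᶜ := by
    ext v
    by_cases h : v ∈ U <;> simp [ind, h]
  have e1 : B G 1 1 = B G (ind U) (ind U) + 2 * B G (ind U) (ind Uᶜ) + B G (ind Uᶜ) (ind Uᶜ) := by
    rw [hone, B_add_left, B_add_right, B_add_right, B_comm G (ind Uᶜ) (ind U)]; ring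
  have e2 : B G (ind Uᶜ) (ind Uᶜ) = 0 := by
    apply B_ind_zero
    intro u hu v hv
    rw [mem_compl] at hu hv
    exact hI u v hu hv
  have e3 := B_ind_self_le G U
  have e4 := B_ind_le G U Uᶜ
  have hn : (U.card : ℤ) + (Uᶜ).card = Fintype.card V := by exact_mod_cast card_add_card_compl U
  have h5 : 2 * (G.edgeSet.ncard : ℤ) ≤ 2 * (U.card * Fintype.card V) := by
    rw [← hB, e1, e2, ← hn]
    have : (0 : ℤ) ≤ U.card := Nat.cast_nonneg _
    nlinarith
  have h6 : (G.edgeSet.ncard : ℤ) ≤ ((U.card * Fintype.card V : ℕ) : ℤ) := by push_cast; linarith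
  exact_mod_cast h6

/-- Lower bound for graphs with minimum degree at least `d`. -/
theorem lower (G : SimpleGraph V) (d m t j : ℕ) (hd : 2 ≤ d) (hm : G.edgeSet.ncard = m)
    (hm2 : 400 * d ^ 4 ≤ m) (hdeg : ∀ v, d ≤ (univ.filter (fun u => G.Adj u v)).card)
    (htj : 2 * d * t + j = m + d * (d + 1) / 2) (hj : j < 2 * d) :
    ∃ S : Finset V, S.card ≤ Sᶜ.card ∧ Sᶜ.card ≤ S.card + 1 ∧
      (d : ℝ) * t + min ((j : ℝ) / 2 + ps j) d ≤ (cr G S : ℝ) := by
  have hB := B_one_one G
  rw [hm] at hB
  have hdr : (2 : ℝ) ≤ d := by exact_mod_cast hd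
  have hj0 : (0 : ℝ) ≤ j := Nat.cast_nonneg j
  have hjd : (j : ℝ) < 2 * d := by exact_mod_cast hj
  -- m/2 + d(d+1)/4 = d t + j/2
  have htjr : 2 * (d : ℝ) * t + j = m + (d : ℝ) * (d + 1) / 2 := by
    obtain ⟨c, hc⟩ := Nat.even_mul_succ_self d
    have h1 : d * (d + 1) / 2 = c := by omega
    rw [h1] at htj
    have h2 : 2 * (d : ℝ) * t + j = m + c := by exact_mod_cast htj
    have h3 : (d : ℝ) * (d + 1) = c + c := by exact_mod_cast hc
    linarith
  -- a bound by d(d+3)/4 is enough
  have hmin : min ((j : ℝ) / 2 + ps j) d ≤ j / 2 + d / 2 := by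
    rcases le_total (j : ℝ) d with h | h
    · have := ps_le_half hj0
      exact (min_le_left _ _).trans (by linarith)
    · exact (min_le_right _ _).trans (by linarith)
  have enough : ∀ (S : Finset V) (ρ : ℝ), 2 * (m : ℝ) + ρ ≤ 4 * (cr G S : ℝ) →
      (d : ℝ) ^ 2 + 3 * d ≤ ρ → (d : ℝ) * t + min ((j : ℝ) / 2 + ps j) d ≤ (cr G S : ℝ) := by
    intro S ρ h1 h2
    nlinarith
  have hm2r : 400 * (d : ℝ) ^ 4 ≤ m := by exact_mod_cast hm2
  have hd4 : (0 : ℝ) < (d : ℝ) ^ 2 := by positivity
  by_cases hn : 64 * m ≤ (Fintype.card V) ^ 2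
  · rcases dichotomy G m hm hn with ⟨S, h1, h2, ρ, h3, h4⟩ | ⟨T, A, w0, hw0, hT, hbig⟩
    · refine ⟨S, h1, h2, enough S ρ (by
        have := (Int.cast_le (R := ℝ)).mpr h4
        push_cast at this
        exact this) ?_⟩
      have h5 : 2 * (m : ℝ) ≤ (ρ : ℝ) ^ 2 := by exact_mod_cast h3
      have h6 : (5 * (d : ℝ) ^ 2) ^ 2 ≤ (ρ : ℝ) ^ 2 := by nlinarith
      have h7 : 5 * (d : ℝ) ^ 2 ≤ ρ := by
        have := abs_le_of_sq_le_sq h6 (Nat.cast_nonneg ρ)
        exact (le_abs_self _).trans this
      nlinarith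
    · have hA : d ≤ A.card := by
        refine (hdeg w0).trans (card_le_card ?_)
        intro u hu
        rw [mem_filter] at hu
        exact (hT w0 hw0 u).mp hu.2
      have hAr : (d : ℝ) ≤ A.card := by exact_mod_cast hA
      obtain ⟨S, h1, h2, q, r, H, hr0, hq1, hq2, hH, h3⟩ := twin_lower_two G T A hT hbig
      rw [hB] at hH h3
      have hH' : 2 * (m : ℝ) ≤ A.card * (A.card - 1) + 2 * A.card * (Fintype.card V - A.card) + H := by
        have := (Int.cast_le (R := ℝ)).mpr hH
        push_cast at this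
        exact this
      have h3' : 2 * (m : ℝ) + A.card * (A.card + 1) - 2 * A.card * ((sg V : ℤ) : ℝ) + r
          ≤ 4 * (cr G S : ℝ) := by
        have := (Int.cast_le (R := ℝ)).mpr h3
        push_cast at this
        exact this
      have hr0' : (0 : ℝ) ≤ r := by exact_mod_cast hr0
      rcases eq_or_lt_of_le hA with hAd | hAd
      · -- |A| = d
        rw [← hAd] at hH' h3'
        by_cases hev : Even (Fintype.card V)
        · have hsg : ((sg V : ℤ) : ℝ) = 0 := by unfold sg; rw [if_pos hev]; simp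
          rw [hsg] at h3'
          obtain ⟨c, hc⟩ := hev
          -- m - e_d(n) = j + 2 d (t - c)
          have hcr : (Fintype.card V : ℝ) = 2 * c := by rw [hc]; push_cast; ring
          rw [hcr] at hH'
          rcases le_total c t with hct | hct
          · -- surplus of edges
            have hctr : (c : ℝ) ≤ t := by exact_mod_cast hct
            have hps : ps j ≤ (r : ℝ) / 4 := by
              refine ps_le_of_color (H := H) (q := q) ?_ (Nat.cast_nonneg q) hr0'
                (by exact_mod_cast hq1) (by exact_mod_cast hq2) hj0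
              have : (d : ℝ) * c ≤ d * t := mul_le_mul_of_nonneg_left hctr (by linarith)
              nlinarith
            refine ⟨S, h1, h2, ?_⟩
            have := min_le_left ((j : ℝ) / 2 + ps j) (d : ℝ)
            nlinarith
          · -- deficit or c = t
            rcases eq_or_lt_of_le hct with hct' | hct'
            · -- same as before
              have hctr : (c : ℝ) ≤ t := by rw [hct']
              have hps : ps j ≤ (r : ℝ) / 4 := by
                refine ps_le_of_color (H := H) (q := q) ?_ (Nat.cast_nonneg q) hr0'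
                  (by exact_mod_cast hq1) (by exact_mod_cast hq2) hj0
                have : (d : ℝ) * c ≤ d * t := mul_le_mul_of_nonneg_left hctr (by linarith)
                nlinarith
              refine ⟨S, h1, h2, ?_⟩
              have := min_le_left ((j : ℝ) / 2 + ps j) (d : ℝ)
              nlinarith
            · obtain ⟨S', h1', h2', h4'⟩ := twin_lower_one G T A hT hbig
              rw [← hAd] at h4'
              refine ⟨S', h1', h2', ?_⟩
              have h5 : 4 * (cr G S' : ℝ) = 2 * d * ((Fintype.card V : ℝ) - ((sg V : ℤ) : ℝ)) := by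
                have := congrArg (Int.cast : ℤ → ℝ) h4'
                push_cast at this
                exact this
              rw [hsg, hcr] at h5
              have hctr : (t : ℝ) + 1 ≤ c := by exact_mod_cast hct'
              have := min_le_right ((j : ℝ) / 2 + ps j) (d : ℝ)
              nlinarith
        · have hsg : ((sg V : ℤ) : ℝ) = -1 := by unfold sg; rw [if_neg hev]; simp
          rw [hsg] at h3'
          refine ⟨S, h1, h2, enough S ((d : ℝ) ^ 2 + 3 * d) ?_ le_rfl⟩
          nlinarith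
      · have hAd' : (d : ℝ) + 1 ≤ A.card := by exact_mod_cast hAd
        have hsg : ((sg V : ℤ) : ℝ) ≤ 0 := by
          rcases sg_cases V with h | h <;> rw [h] <;> norm_num
        refine ⟨S, h1, h2, enough S ((d : ℝ) ^ 2 + 3 * d) ?_ le_rfl⟩
        have h8 : 0 ≤ -(2 * (A.card : ℝ) * ((sg V : ℤ) : ℝ)) := by
          have : (0 : ℝ) ≤ A.card := Nat.cast_nonneg _
          nlinarith
        nlinarith
  · push Not at hn
    obtain ⟨U, hU, hI⟩ := exists_max_matching G
    obtain ⟨S, h1, h2, h3⟩ := bisect_of_good hU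
    have hk := edges_le G U hI
    rw [hm] at hk
    refine ⟨S, h1, h2, enough S (U.card : ℝ) ?_ ?_⟩
    · rw [hB] at h3
      have h4 : 2 * (m : ℤ) + U.card ≤ 4 * (cr G S : ℤ) := h3
      have := (Int.cast_le (R := ℝ)).mpr h4
      push_cast at this
      exact this
    · have hkr : (m : ℝ) ≤ U.card * Fintype.card V := by exact_mod_cast hk
      have hnr : (Fintype.card V : ℝ) ^ 2 < 64 * m := by exact_mod_cast hn
      have hmpos : (0 : ℝ) < m := by
        have : (0 : ℝ) < 400 * (d : ℝ) ^ 4 := by positivity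
        linarith
      set k : ℝ := (U.card : ℝ) with hkdef
      set n : ℝ := (Fintype.card V : ℝ) with hndef
      have hk0 : 0 ≤ k := Nat.cast_nonneg _
      have h5 : (m : ℝ) ^ 2 ≤ k ^ 2 * (64 * m) := by
        have h6 : (m : ℝ) ^ 2 ≤ (k * n) ^ 2 := by
          have := mul_self_le_mul_self hmpos.le hkr
          nlinarith
        have h7 : (k * n) ^ 2 = k ^ 2 * n ^ 2 := by ring
        rw [h7] at h6
        exact h6.trans (mul_le_mul_of_nonneg_left hnr.le (by positivity))
      have h6 : (m : ℝ) ≤ 64 * k ^ 2 := by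
        have : m * (m : ℝ) ≤ (64 * k ^ 2) * m := by nlinarith
        exact le_of_mul_le_mul_right this hmpos
      have h7 : (5 / 2 * (d : ℝ) ^ 2) ^ 2 ≤ k ^ 2 := by nlinarith
      have h8 : 5 / 2 * (d : ℝ) ^ 2 ≤ k := by
        have := abs_le_of_sq_le_sq h7 hk0
        exact (le_abs_self _).trans this
      nlinarith

end Pool.Agent.Helper996.MinDeg
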