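import Mathlib
import Pool.Agent.Helper996.MinDeg

set_option linter.unusedSectionVars false

namespace Pool.Agent.Helper996.MinDegUpper

open Finset
open scoped Classical
open Pool.Agent.Helper996.Bisect Pool.Agent.Helper996.Twin Pool.Agent.Helper996.Struct
open Pool.Agent.Helper996.Final Pool.Agent.Helper996.Upper

variable {V : Type*} [Fintype V] [DecidableEq V]
variable {W : Type*} [Fintype W] [DecidableEq W]

theorem B_map (e : W ↪ V) (H : SimpleGraph W) (x : V → ℤ) :
    B (H.map e) x x = B H (x ∘ e) (x ∘ e) := by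
  unfold B
  symm
  apply Fintype.sum_of_injective e e.injective
  · intro a ha
    apply sum_eq_zero
    intro b _
    rw [if_neg]
    rw [SimpleGraph.map_adj]
    rintro ⟨u, v, _, hu, _⟩
    exact ha ⟨u, hu⟩
  · intro u
    apply Fintype.sum_of_injective e e.injective
    · intro b hb
      rw [if_neg]
      rw [SimpleGraph.map_adj]
      rintro ⟨u', v', _, _, hv⟩
      exact hb ⟨v', hv⟩
    · intro v
      have : (H.map e).Adj (e u) (e v) ↔ H.Adj u v := by
        rw [SimpleGraph.map_adj]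
        constructor
        · rintro ⟨u', v', h, hu, hv⟩
          rw [← e.injective hu, ← e.injective hv]; exact h
        · intro h; exact ⟨u, v, h, rfl, rfl⟩
      by_cases h : H.Adj u v
      · rw [if_pos h, if_pos (this.mpr h)]; rfl
      · rw [if_neg h, if_neg (fun h' => h (this.mp h'))]

/-- copy a graph into a large set of vertices. -/
theorem transport (H : SimpleGraph W) (X : Finset V) (hX : Fintype.card W ≤ X.card) :
    ∃ H' : SimpleGraph V, (∀ u v, H'.Adj u v → u ∈ X ∧ v ∈ X) ∧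
      H'.edgeSet.ncard = H.edgeSet.ncard ∧ ∀ S : Finset V, ∃ S' : Finset W, cr H' S = cr H S' := by
  obtain ⟨φ⟩ : Nonempty (W ↪ X) :=
    Function.Embedding.nonempty_of_card_le (by rw [Fintype.card_coe]; exact hX)
  set e : W ↪ V := φ.trans (Function.Embedding.subtype _) with he
  have heX : ∀ w, e w ∈ X := fun w => (φ w).2
  have hcard : (H.map e).edgeSet.ncard = H.edgeSet.ncard := by
    have h1 := B_one_one (H.map e)
    have h2 := B_one_one H
    rw [B_map] at h1
    have h3 : ((1 : V → ℤ) ∘ e) = 1 := rfl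
    rw [h3, h2] at h1
    have : (H.edgeSet.ncard : ℤ) = (H.map e).edgeSet.ncard := by linarith
    exact_mod_cast this.symm
  refine ⟨H.map e, ?_, hcard, ?_⟩
  · intro u v h
    rw [SimpleGraph.map_adj] at h
    obtain ⟨u', v', _, rfl, rfl⟩ := h
    exact ⟨heX u', heX v'⟩
  · intro S
    set S' : Finset W := univ.filter (fun w => e w ∈ S) with hS'
    refine ⟨S', ?_⟩
    have h1 := cr_formula (H.map e) S
    have h2 := cr_formula H S'
    rw [B_one_one, hcard, B_map] at h1
    rw [B_one_one] at h2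
    have h3 : ((ind S - ind Sᶜ : V → ℤ) ∘ e) = ind S' - ind S'ᶜ := by
      ext w
      by_cases hw : e w ∈ S
      · have : w ∈ S' := by rw [hS', mem_filter]; exact ⟨mem_univ _, hw⟩
        simp [ind, hw, this]
      · have : w ∉ S' := by rw [hS', mem_filter]; exact fun h => hw h.2
        simp [ind, hw, this]
    rw [h3] at h1
    have : (cr (H.map e) S : ℤ) = cr H S' := by linarith
    exact_mod_cast this

theorem join_upper (A : Finset V) (H : SimpleGraph V) (hH : ∀ u v, H.Adj u v → u ∉ A ∧ v ∉ A) :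
    2 * ((GA A ⊔ H).edgeSet.ncard : ℤ)
        = 2 * A.card * (Fintype.card V - A.card) + A.card * (A.card - 1) + 2 * H.edgeSet.ncard ∧
      ∀ S : Finset V, S.card ≤ Sᶜ.card → Sᶜ.card ≤ S.card + 1 →
        4 * (cr (GA A ⊔ H) S : ℤ) ≤ 2 * A.card * (Fintype.card V - sg V) + 4 * cr H S := by
  have hB : ∀ x : V → ℤ, B (GA A ⊔ H) x x = B (GA A) x x + B H x x := by
    intro x
    apply B_sup
    rintro u v ⟨_, h⟩ h2
    rcases h with h | h
    · exact (hH u v h2).1 h
    · exact (hH u v h2).2 h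
  have hc : 2 * ((GA A ⊔ H).edgeSet.ncard : ℤ)
        = 2 * A.card * (Fintype.card V - A.card) + A.card * (A.card - 1) + 2 * H.edgeSet.ncard := by
    rw [← B_one_one, hB, B_one_one, B_one_one, card_GA]
  refine ⟨hc, ?_⟩
  intro S h1 h2
  obtain ⟨hx, hs⟩ := signing_of_bisection S h1 h2
  have e1 := GA_bound A _ hx hs
  have e2 := cr_formula H S
  rw [cr_formula, B_one_one, hB, hc]
  rw [B_one_one] at e2
  linarith

theorem deg_join (A : Finset V) (H : SimpleGraph V) (hA : A.card < Fintype.card V) :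
    ∀ v, A.card ≤ (univ.filter (fun u => (GA A ⊔ H).Adj u v)).card := by
  intro v
  by_cases hv : v ∈ A
  · have : univ.erase v ⊆ univ.filter (fun u => (GA A ⊔ H).Adj u v) := by
      intro u hu
      rw [mem_filter, SimpleGraph.sup_adj]
      exact ⟨mem_univ _, Or.inl ⟨(mem_erase.mp hu).1, Or.inr hv⟩⟩
    have h2 := card_le_card this
    rw [card_erase_of_mem (mem_univ _), card_univ] at h2
    omega
  · apply card_le_card
    intro u hu
    rw [mem_filter, SimpleGraph.sup_adj]
    refine ⟨mem_univ _, Or.inl ⟨?_, Or.inl hu⟩⟩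
    rintro rfl; exact hv hu

/-- deficit of edges, removed inside the hub. -/
theorem neg_upper (A : Finset V) (i : ℕ) (hi : 2 * i ≤ A.card * (A.card - 1))
    (hA : 2 * A.card ≤ Fintype.card V) :
    ∃ G : SimpleGraph V, 2 * (G.edgeSet.ncard : ℤ)
        = 2 * A.card * (Fintype.card V - A.card) + A.card * (A.card - 1) - 2 * i ∧
      (∀ v, A.card ≤ (univ.filter (fun u => G.Adj u v)).card) ∧
      ∀ S : Finset V, S.card ≤ Sᶜ.card → Sᶜ.card ≤ S.card + 1 →
        4 * (cr G S : ℤ) ≤ 2 * A.card * (Fintype.card V - sg V) := by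
  have hc := card_GA A
  obtain ⟨D, hD, hDc⟩ := exists_subgraph (GK A) i (by
    have h1 := card_GK A
    have h2 : 2 * ((GK A).edgeSet.ncard : ℤ) = ((A.card * (A.card - 1) : ℕ) : ℤ) := by
      rw [h1]
      rcases Nat.eq_zero_or_pos A.card with h | h
      · rw [h]; simp
      · push_cast [Nat.cast_sub h]; ring
    have h3 : 2 * (GK A).edgeSet.ncard = A.card * (A.card - 1) := by exact_mod_cast h2
    omega)
  have hDA : ∀ u v, D.Adj u v → u ∈ A ∧ v ∈ A := fun u v h => (hD h).2
  have hDG : D ≤ GA A := by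
    intro u v h
    exact ⟨h.ne, Or.inl (hDA u v h).1⟩
  obtain ⟨G, hG⟩ : ∃ G : SimpleGraph V, G = GA A \ D := ⟨_, rfl⟩
  have hsup : GA A = G ⊔ D := by
    rw [hG, sdiff_sup_cancel hDG]
  have hB : ∀ x : V → ℤ, B (GA A) x x = B G x x + B D x x := by
    intro x
    conv_lhs => rw [hsup]
    apply B_sup
    intro u v h h'
    rw [hG] at h
    exact h.2 h'
  have hcard : 2 * (G.edgeSet.ncard : ℤ)
      = 2 * A.card * (Fintype.card V - A.card) + A.card * (A.card - 1) - 2 * i := by
    have h1 := hB 1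
    rw [B_one_one, B_one_one, B_one_one, hDc, hc] at h1
    linarith
  refine ⟨G, hcard, ?_, ?_⟩
  · intro v
    by_cases hv : v ∈ A
    · have : Aᶜ ⊆ univ.filter (fun u => G.Adj u v) := by
        intro u hu
        rw [mem_compl] at hu
        have hadj : G.Adj u v := by
          rw [hG]
          refine ⟨⟨?_, Or.inr hv⟩, fun h => hu (hDA u v h).1⟩
          rintro rfl; exact hu hv
        exact mem_filter.mpr ⟨mem_univ _, hadj⟩
      have h2 := card_le_card this
      rw [card_compl] at h2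
      omega
    · apply card_le_card
      intro u hu
      have hadj : G.Adj u v := by
        rw [hG]
        refine ⟨⟨?_, Or.inl hu⟩, fun h => hv (hDA u v h).2⟩
        rintro rfl; exact hv hu
      exact mem_filter.mpr ⟨mem_univ _, hadj⟩
  · intro S h1 h2
    obtain ⟨hx, hs⟩ := signing_of_bisection S h1 h2
    have e1 := GA_bound A _ hx hs
    have e2 := B_le D _ hx
    have e3 := hB (ind S - ind Sᶜ)
    rw [cr_formula, B_one_one, hcard]
    rw [hDc] at e2
    linarith

/-- Disjoint cliques with all cuts controlled. -/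
theorem cliques (s1 s2 s3 j3 : ℕ) (hsz : s1 + s2 + s3 ≤ Fintype.card V)
    (hj3 : 2 * j3 ≤ s3 * (s3 - 1)) :
    ∃ G : SimpleGraph V, 2 * (G.edgeSet.ncard : ℤ) = s1 * (s1 - 1) + s2 * (s2 - 1) + 2 * j3 ∧
      ∀ S : Finset V, 4 * (cr G S : ℤ) ≤ 2 * (G.edgeSet.ncard : ℤ)
          + 2 * ((s1 / 2 : ℕ) : ℤ) + 2 * ((s2 / 2 : ℕ) : ℤ) + 2 * j3 := by
  obtain ⟨X1, -, hX1⟩ := exists_subset_card_eq (s := (univ : Finset V)) (n := s1)
    (by rw [card_univ]; omega)
  obtain ⟨X2, hX2s, hX2⟩ := exists_subset_card_eq (s := X1ᶜ) (n := s2)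
    (by rw [card_compl]; omega)
  have d2 : Disjoint X1 X2 := disjoint_compl_right.mono_right hX2s
  obtain ⟨X3, hX3s, hX3⟩ := exists_subset_card_eq (s := (X1 ∪ X2)ᶜ) (n := s3)
    (by rw [card_compl, card_union_of_disjoint d2]; omega)
  have d3 : Disjoint (X1 ∪ X2) X3 := disjoint_compl_right.mono_right hX3s
  obtain ⟨G3, hG3, hG3c⟩ := exists_subgraph (GK X3) j3 (by
    have h1 := card_GK X3
    rw [hX3] at h1
    have h2 : 2 * ((GK X3).edgeSet.ncard : ℤ) = ((s3 * (s3 - 1) : ℕ) : ℤ) := by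
      rw [h1]
      rcases Nat.eq_zero_or_pos s3 with h | h
      · rw [h]; simp
      · push_cast [Nat.cast_sub (show 1 ≤ s3 from h)]; ring
    have h3 : 2 * (GK X3).edgeSet.ncard = s3 * (s3 - 1) := by exact_mod_cast h2
    omega)
  have b2 : ∀ v ∈ X1, v ∉ X2 := fun v hv h => disjoint_left.mp d2 hv h
  have b3 : ∀ v ∈ X1, v ∉ X3 := fun v hv h => disjoint_left.mp d3 (mem_union_left _ hv) h
  have c3 : ∀ v ∈ X2, v ∉ X3 := fun v hv h => disjoint_left.mp d3 (mem_union_right _ hv) h
  have hG3' : ∀ u v, G3.Adj u v → u ∈ X3 ∧ v ∈ X3 := fun u v h => (hG3 h).2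
  set G := GK X1 ⊔ GK X2 ⊔ G3 with hG
  have hB : ∀ x : V → ℤ, B G x x = B (GK X1) x x + B (GK X2) x x + B G3 x x := by
    intro x
    rw [hG, B_sup, B_sup]
    · rintro u v ⟨_, h3, _⟩ ⟨_, h1, _⟩
      exact b2 _ h3 h1
    · intro u v h h4
      obtain ⟨h1, h2⟩ := hG3' _ _ h4
      rw [SimpleGraph.sup_adj] at h
      rcases h with ⟨_, h3, _⟩ | ⟨_, h3, _⟩
      · exact b3 _ h3 h1
      · exact c3 _ h3 h1
  refine ⟨G, ?_, ?_⟩
  · rw [← B_one_one, hB 1, B_one_one, B_one_one, B_one_one, card_GK, card_GK,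
      hG3c, hX1, hX2]
  · intro S
    have hx : ∀ v, (ind S - ind Sᶜ : V → ℤ) v = 1 ∨ (ind S - ind Sᶜ : V → ℤ) v = -1 := by
      intro v
      by_cases hv : v ∈ S <;> simp [ind, hv]
    rw [cr_formula, B_one_one, hB]
    have e2 := GK_bound X1 _ hx
    have e3 := GK_bound X2 _ hx
    have e4 := B_ge G3 _ hx
    rw [hX1] at e2
    rw [hX2] at e3
    rw [hG3c] at e4
    linarith

end Pool.Agent.Helper996.MinDegUpper
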