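import Mathlib

/-! Core lemma for the nonexistence of strange groups at singular strong limit cardinals (MP_b18e8e_lc). -/

namespace Helper996.Strange

open Cardinal Set

universe u

variable {G : Type u} [Group G]

/-- `T y x = y x⁻¹ y`, the reflection of `x` in `y`. -/
def T (y x : G) : G := y * x⁻¹ * y

theorem T_T (y x : G) : T y (T y x) = x := by
  simp [T, mul_assoc]

theorem T_eq_iff {y x z : G} : T y x = z ↔ T y z = x := by
  constructor
  · rintro rfl; exact T_T y x
  · rintro rfl; exact T_T y z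

/-- good subsets -/
def IsGood (H : Set G) : Prop :=
  ∀ x ∈ H, ∀ y ∈ H, ∀ z ∈ H, x⁻¹ * y = y⁻¹ * z → x = z

theorem eq_T_iff {x y z : G} : x⁻¹ * y = y⁻¹ * z ↔ T y x = z := by
  unfold T
  constructor
  · intro h
    rw [mul_assoc, h]; simp
  · intro h
    rw [← h]; simp [mul_assoc]

/-- symmetric badness -/
def B (x y z : G) : Prop := T x y = z ∨ T y x = z ∨ T z x = y

theorem B_comm12 {x y z : G} (h : B x y z) : B y x z := by
  rcases h with h | h | h
  · exact Or.inr (Or.inl h)
  · exact Or.inl h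
  · exact Or.inr (Or.inr (T_eq_iff.1 h))

theorem B_comm23 {x y z : G} (h : B x y z) : B x z y := by
  rcases h with h | h | h
  · exact Or.inl (T_eq_iff.1 h)
  · exact Or.inr (Or.inr h)
  · exact Or.inr (Or.inl h)

/-- `H` has no bad triple -/
def NoBad (H : Set G) : Prop :=
  ∀ x ∈ H, ∀ y ∈ H, ∀ z ∈ H, x ≠ y → x ≠ z → y ≠ z → ¬ B x y z

theorem NoBad.isGood {H : Set G} (h : NoBad H) : IsGood H := by
  intro x hx y hy z hz e
  by_contra hxz
  have e' := eq_T_iff.1 e
  by_cases hxy : x = y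
  · subst hxy; apply hxz
    rw [← e']; simp [T]
  by_cases hyz : y = z
  · subst hyz
    apply hxy
    have : y * (x⁻¹ * y) = y * 1 := by rw [mul_one]; simpa [T, mul_assoc] using e'
    have := mul_left_cancel this
    exact (inv_mul_eq_one.1 this)
  · exact h x hx y hy z hz hxy hxz hyz (Or.inr (Or.inl e'))

section core

variable (ι : Type u) (c : ι → Cardinal.{u}) (M : ι → Set G) (δ : ι → G)

/-- union of the lower levels -/
def low (i : ι) : Set G := {x | ∃ j, c j < c i ∧ x ∈ M j}

/-- level set -/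
def N (i : ι) : Set G :=
  {v | v ∈ M i ∧ v ∉ low ι c M i ∧
    (∀ u ∈ low ι c M i, ∀ w ∈ low ι c M i, (T v u = w ↔ T (δ i) u = w)) ∧
    (∀ k, ∀ u ∈ low ι c M i, v ≠ T (δ k) u)}

/-- the Zorn property -/
structure P (H : Set G) : Prop where
  sub : ∀ x ∈ H, ∃ i, x ∈ N ι c M δ i
  free : ∀ k, ∀ u ∈ H, ∀ w ∈ H, u ∈ M k → w ∈ M k → u ≠ w → T (δ k) u ≠ w
  nobad : NoBad H
  lev : ∀ i, ∀ u ∈ H, ∀ w ∈ H, u ∈ N ι c M δ i → w ∈ N ι c M δ i → u ≠ w →
    ∀ x ∈ low ι c M i, ¬ B x u w

theorem exists_maximal_P : ∃ H : Set G, Maximal (P ι c M δ) H := by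
  have h := zorn_subset {H : Set G | P ι c M δ H} ?_
  · obtain ⟨H, hH⟩ := h
    exact ⟨H, hH⟩
  · intro C hC hchain
    refine ⟨⋃₀ C, ?_, fun s hs => subset_sUnion_of_mem hs⟩
    by_cases hne : C.Nonempty
    · -- two elements lie in a common member
      have two : ∀ x ∈ ⋃₀ C, ∀ y ∈ ⋃₀ C, ∃ s ∈ C, x ∈ s ∧ y ∈ s := by
        rintro x ⟨s, hs, hx⟩ y ⟨t, ht, hy⟩
        rcases hchain.total hs ht with h | h
        · exact ⟨t, ht, h hx, hy⟩
        · exact ⟨s, hs, hx, h hy⟩
      have three : ∀ x ∈ ⋃₀ C, ∀ y ∈ ⋃₀ C, ∀ z ∈ ⋃₀ C, ∃ s ∈ C, x ∈ s ∧ y ∈ s ∧ z ∈ s := by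
        rintro x hx y hy z ⟨t, ht, hz⟩
        obtain ⟨s, hs, hxs, hys⟩ := two x hx y hy
        rcases hchain.total hs ht with h | h
        · exact ⟨t, ht, h hxs, h hys, hz⟩
        · exact ⟨s, hs, hxs, hys, h hz⟩
      refine ⟨?_, ?_, ?_, ?_⟩
      · rintro x ⟨s, hs, hx⟩
        exact (hC hs).sub x hx
      · intro k u hu w hw
        obtain ⟨s, hs, h1, h2⟩ := two u hu w hw
        exact (hC hs).free k u h1 w h2
      · intro x hx y hy z hz
        obtain ⟨s, hs, h1, h2, h3⟩ := three x hx y hy z hz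
        exact (hC hs).nobad x h1 y h2 z h3
      · intro i u hu w hw
        obtain ⟨s, hs, h1, h2⟩ := two u hu w hw
        exact (hC hs).lev i u h1 w h2
    · rw [Set.not_nonempty_iff_eq_empty] at hne
      subst hne
      refine ⟨?_, ?_, ?_, ?_⟩ <;> simp [NoBad]

theorem core
    (h_eq : ∀ i j, c i = c j → M i = M j ∧ δ i = δ j)
    (h_mono : ∀ i j, c i ≤ c j → M i ⊆ M j)
    (h_T : ∀ i, ∀ u ∈ M i, ∀ v ∈ M i, T u v ∈ M i)
    (h_type : ∀ i, ∀ S ⊆ M i, #S ≤ c i → ∃ h ∈ M i, h ∉ S ∧ ∀ u ∈ S, ∀ v ∈ S,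
      (T h u = v ↔ T (δ i) u = v))
    (h_inf : ∀ i, ℵ₀ ≤ c i) (h_ι : ∀ i, #ι ≤ c i)
    (h_low : ∀ i, #(low ι c M i) ≤ c i) :
    ∃ H : Set G, IsGood H ∧ ∀ i, c i < #H := by
  obtain ⟨H, hH⟩ := exists_maximal_P ι c M δ
  have hP := hH.prop
  refine ⟨H, hP.nobad.isGood, ?_⟩
  intro i
  -- basic facts on low
  have low_T : ∀ j, ∀ u ∈ low ι c M j, ∀ v ∈ low ι c M j, T u v ∈ low ι c M j := by
    rintro j u ⟨a, ha, hu⟩ v ⟨b, hb, hv⟩
    rcases le_total (c a) (c b) with h | h
    · exact ⟨b, hb, h_T b u (h_mono _ _ h hu) v hv⟩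
    · exact ⟨a, ha, h_T a u hu v (h_mono _ _ h hv)⟩
  have low_sub : ∀ j, low ι c M j ⊆ M j := by
    rintro j u ⟨a, ha, hu⟩
    exact h_mono _ _ ha.le hu
  have low_eq : ∀ a b, c a = c b → low ι c M a = low ι c M b := by
    intro a b hab
    ext x
    simp [low, hab]
  have N_eq : ∀ a b, c a = c b → N ι c M δ a = N ι c M δ b := by
    intro a b hab
    unfold N
    rw [low_eq a b hab, (h_eq a b hab).1, (h_eq a b hab).2]
  by_contra hcon
  push Not at hcon
  -- the part of `H` in level `i`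
  set K : Set G := H ∩ N ι c M δ i with hK
  have hKcard : #K ≤ c i := (mk_le_mk_of_subset inter_subset_left).trans hcon
  set L : Set G := low ι c M i with hL
  set S1 : Set G := L ∪ K with hS1
  have hS1card : #S1 ≤ c i := by
    refine (mk_union_le _ _).trans ?_
    exact (Cardinal.add_le_of_le (h_inf i) (h_low i) hKcard)
  have hS1M : S1 ⊆ M i := by
    rintro x (hx | hx)
    · exact low_sub i hx
    · exact hx.2.1
  set S2 : Set G := {x | x ∈ M i ∧ ∃ k : ι, ∃ u ∈ S1, x = T (δ k) u} with hS2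
  have hS2card : #S2 ≤ c i := by
    have hsub : S2 ⊆ ⋃ k : ι, (fun u => T (δ k) u) '' S1 := by
      rintro x ⟨_, k, u, hu, rfl⟩
      exact mem_iUnion.2 ⟨k, ⟨u, hu, rfl⟩⟩
    refine (mk_le_mk_of_subset hsub).trans ?_
    refine (mk_iUnion_le _).trans ?_
    refine (mul_le_mul' (h_ι i) (ciSup_le' fun k => mk_image_le.trans hS1card)).trans ?_
    exact (Cardinal.mul_eq_self (h_inf i)).le
  set S3 : Set G := S1 ∪ S2 with hS3
  have hS3card : #S3 ≤ c i :=
    (mk_union_le _ _).trans (Cardinal.add_le_of_le (h_inf i) hS1card hS2card)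
  have hS3M : S3 ⊆ M i := by
    rintro x (hx | hx)
    · exact hS1M hx
    · exact hx.1
  set S4 : Set G := (fun p : G × G => T p.1 p.2) '' (S3 ×ˢ S3) with hS4
  have hS4card : #S4 ≤ c i := by
    refine mk_image_le.trans ?_
    have : #(S3 ×ˢ S3 : Set (G × G)) = #S3 * #S3 := by
      rw [mk_setProd]
    rw [this]
    exact (mul_le_mul' hS3card hS3card).trans (Cardinal.mul_eq_self (h_inf i)).le
  set S : Set G := S3 ∪ S4 with hS
  have hScard : #S ≤ c i :=
    (mk_union_le _ _).trans (Cardinal.add_le_of_le (h_inf i) hS3card hS4card)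
  have hSM : S ⊆ M i := by
    rintro x (hx | ⟨⟨p, q⟩, ⟨hp, hq⟩, rfl⟩)
    · exact hS3M hx
    · exact h_T i _ (hS3M hp) _ (hS3M hq)
  obtain ⟨h, hhM, hhS, htype⟩ := h_type i S hSM hScard
  have h1S : ∀ x ∈ S1, x ∈ S := fun x hx => Or.inl (Or.inl hx)
  have hTS : ∀ x ∈ S1, ∀ y ∈ S1, T x y ∈ S := fun x hx y hy =>
    Or.inr ⟨(x, y), ⟨Or.inl hx, Or.inl hy⟩, rfl⟩
  have hh1 : h ∉ S1 := fun hx => hhS (h1S h hx)
  have hhL : h ∉ L := fun hx => hh1 (Or.inl hx)
  have hδS : ∀ k, ∀ u ∈ S1, h ≠ T (δ k) u := by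
    intro k u hu he
    exact hhS (Or.inl (Or.inr ⟨hhM, k, u, hu, he⟩))
  have hhN : h ∈ N ι c M δ i := by
    refine ⟨hhM, hhL, ?_, ?_⟩
    · intro u hu w hw
      exact htype u (h1S _ (Or.inl hu)) w (h1S _ (Or.inl hw))
    · intro k u hu
      exact hδS k u (Or.inl hu)
  have hhH : h ∉ H := fun hx => hh1 (Or.inr ⟨hx, hhN⟩)
  -- level comparison
  have lev_in : ∀ u ∈ H, ∀ j, u ∈ N ι c M δ j → c j ≤ c i → u ∈ S1 := by
    intro u hu j hj hji
    rcases lt_or_eq_of_le hji with hlt | heq
    · exact Or.inl ⟨j, hlt, hj.1⟩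
    · exact Or.inr ⟨hu, by rw [← N_eq j i heq]; exact hj⟩
  have h_in_low : ∀ j, c i < c j → h ∈ low ι c M j := fun j hj => ⟨i, hj, hhM⟩
  have h_not_M : ∀ k, c k < c i → h ∉ M k := fun k hk hx => hhL ⟨k, hk, hx⟩
  -- freeness for pairs with `h`
  have free_h : ∀ k, ∀ u ∈ H, u ∈ M k → h ∈ M k → T (δ k) u ≠ h := by
    intro k u hu huk hhk he
    obtain ⟨j, hj⟩ := hP.sub u hu
    rcases le_or_gt (c j) (c i) with hji | hij
    · exact hδS k u (lev_in u hu j hj hji) he.symm
    · exact hj.2.2.2 k h (h_in_low j hij) (T_eq_iff.1 he).symm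
  -- the extended set
  have hP' : P ι c M δ (insert h H) := by
    refine ⟨?_, ?_, ?_, ?_⟩
    · rintro x (rfl | hx)
      · exact ⟨i, hhN⟩
      · exact hP.sub x hx
    · intro k u hu w hw huk hwk huw
      rcases hu with rfl | hu
      · rcases hw with rfl | hw
        · exact absurd rfl huw
        · intro he
          exact free_h k w hw hwk huk (T_eq_iff.1 he)
      · rcases hw with rfl | hw
        · exact free_h k u hu huk hwk
        · exact hP.free k u hu w hw huk hwk huw
    · -- no bad triple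
      have key : ∀ u ∈ H, ∀ w ∈ H, u ≠ w → ¬ B u w h := by
        -- first the ordered version
        have key' : ∀ u ∈ H, ∀ w ∈ H, u ≠ w → ∀ a b, u ∈ N ι c M δ a → w ∈ N ι c M δ b →
            c a ≤ c b → ¬ B u w h := by
          intro u hu w hw huw a b ha hb hab hbad
          rcases le_or_gt (c b) (c i) with hbi | hib
          · have hu1 := lev_in u hu a ha (hab.trans hbi)
            have hw1 := lev_in w hw b hb hbi
            rcases hbad with e | e | e
            · exact hhS (e ▸ hTS u hu1 w hw1)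
            · exact hhS (e ▸ hTS w hw1 u hu1)
            · rw [htype u (h1S u hu1) w (h1S w hw1)] at e
              exact hP.free i u hu w hw (hS1M hu1) (hS1M hw1) huw e
          · -- `w` above level i
            have hhb := h_in_low b hib
            rcases lt_or_eq_of_le hab with hlt | heq
            · have hub : u ∈ low ι c M b := ⟨a, hlt, ha.1⟩
              have hwb : w ∉ low ι c M b := hb.2.1
              rcases hbad with e | e | e
              · -- T u w = h → T u h = w
                exact hwb (T_eq_iff.1 e ▸ low_T b u hub h hhb)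
              · rw [hb.2.2.1 u hub h hhb] at e
                exact free_h b u hu (low_sub b hub) (low_sub b hhb) e
              · exact hwb (e ▸ low_T b h hhb u hub)
            · have hab' : u ∈ N ι c M δ b := by rw [← N_eq a b heq]; exact ha
              have := hP.lev b u hu w hw hab' hb huw h hhb
              exact this (B_comm12 (B_comm23 hbad))
        intro u hu w hw huw hbad
        obtain ⟨a, ha⟩ := hP.sub u hu
        obtain ⟨b, hb⟩ := hP.sub w hw
        rcases le_total (c a) (c b) with hab | hab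
        · exact key' u hu w hw huw a b ha hb hab hbad
        · exact key' w hw u hu huw.symm b a hb ha hab (B_comm12 hbad)
      rintro x hx y hy z hz hxy hxz hyz hbad
      rcases hx with rfl | hx
      · rcases hy with rfl | hy
        · exact hxy rfl
        rcases hz with rfl | hz
        · exact hxz rfl
        exact key y hy z hz hyz (B_comm23 (B_comm12 hbad))
      · rcases hy with rfl | hy
        · rcases hz with rfl | hz
          · exact hyz rfl
          exact key x hx z hz hxz (B_comm23 hbad)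
        · rcases hz with rfl | hz
          · exact key x hx y hy hxy hbad
          · exact hP.nobad x hx y hy z hz hxy hxz hyz hbad
    · -- level condition
      have key : ∀ j, ∀ u ∈ H, u ∈ N ι c M δ j → h ∈ N ι c M δ j →
          ∀ x ∈ low ι c M j, ¬ B x u h := by
        intro j u hu huj hhj x hx hbad
        -- c j = c i
        have hcj : c j = c i := by
          rcases lt_trichotomy (c j) (c i) with h1 | h1 | h1
          · exact absurd hhj.1 (h_not_M j h1)
          · exact h1
          · exact absurd (h_in_low j h1) hhj.2.1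
        rw [N_eq j i hcj] at huj
        rw [low_eq j i hcj] at hx
        have hu1 : u ∈ S1 := Or.inr ⟨hu, huj⟩
        have hx1 : x ∈ S1 := Or.inl hx
        rcases hbad with e | e | e
        · exact hhS (e ▸ hTS x hx1 u hu1)
        · exact hhS (e ▸ hTS u hu1 x hx1)
        · rw [htype x (h1S x hx1) u (h1S u hu1)] at e
          exact huj.2.2.2 i x hx e.symm
      intro j u hu w hw huj hwj huw x hx hbad
      rcases hu with rfl | hu
      · rcases hw with rfl | hw
        · exact huw rfl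
        · exact key j w hw hwj huj x hx (B_comm23 hbad)
      · rcases hw with rfl | hw
        · exact key j u hu huj hwj x hx hbad
        · exact hP.lev j u hu w hw huj hwj huw x hx hbad
  have := hH.le_of_ge hP' (subset_insert h H)
  exact hhH (this (mem_insert h H))

end core

end Helper996.Strange
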