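import Mathlib
import Pool.Agent.Helper996.StrangeCore

/-! Closure under `l`-types, and the two existence theorems. -/

namespace Helper996.Strange

open Cardinal Set

universe u

variable {G : Type u} [Group G]

section closure

variable (l : Cardinal.{u}) (L : Set G)

/-- constructors: elements of `L`, patterns on `l × l`, and the binary operation -/
def Op (l : Cardinal.{u}) (L : Set G) : Type u := L ⊕ (Set (l.out × l.out) ⊕ PUnit.{u+1})

def Ar (l : Cardinal.{u}) (L : Set G) : Op l L → Type u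
  | Sum.inl _ => PEmpty
  | Sum.inr (Sum.inl _) => l.out
  | Sum.inr (Sum.inr _) => ULift.{u} Bool

open Classical in
/-- realise a pattern -/
noncomputable def realise (p : Set (l.out × l.out)) (f : l.out → G) : G :=
  if h : ∃ g : G, (∀ i, g ≠ f i) ∧ ∀ i j, (T g (f i) = f j ↔ (i, j) ∈ p) then h.choose else 1

noncomputable def ev : (WType (Ar l L)) → G
  | WType.mk (Sum.inl x) _ => x.1
  | WType.mk (Sum.inr (Sum.inl p)) f => realise l p (fun i => ev (f i))
  | WType.mk (Sum.inr (Sum.inr _)) f => T (ev (f ⟨true⟩)) (ev (f ⟨false⟩))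

theorem mk_W_le (hl : ℵ₀ ≤ l) (hL : #L ≤ 2 ^ l) : #(WType (Ar l L)) ≤ 2 ^ l := by
  have h2 : ℵ₀ ≤ (2 : Cardinal.{u}) ^ l := hl.trans (cantor l).le
  have hll : ((2 : Cardinal.{u}) ^ l) ^ l = 2 ^ l := by
    rw [← power_mul, mul_eq_self hl]
  refine WType.cardinalMk_le_of_le ?_
  have hterm : ∀ a : Op l L, ((2 : Cardinal.{u}) ^ l) ^ #(Ar l L a) ≤ 2 ^ l := by
    intro a
    rcases a with x | p | q
    · show ((2 : Cardinal.{u}) ^ l) ^ #(PEmpty : Type u) ≤ 2 ^ l
      simp only [mk_pempty, power_zero]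
      exact (one_lt_aleph0.le).trans h2
    · show ((2 : Cardinal.{u}) ^ l) ^ #(l.out) ≤ 2 ^ l
      rw [mk_out, hll]
    · show ((2 : Cardinal.{u}) ^ l) ^ #(ULift.{u} Bool) ≤ 2 ^ l
      have : #(ULift.{u} Bool) ≤ l := (lt_aleph0_of_finite _).le.trans hl
      calc ((2 : Cardinal.{u}) ^ l) ^ #(ULift.{u} Bool) ≤ ((2 : Cardinal.{u}) ^ l) ^ l :=
            power_le_power_left (power_ne_zero _ two_ne_zero) this
        _ = 2 ^ l := hll
  have hOp : #(Op l L) ≤ 2 ^ l := by
    have : #(Op l L) = #L + (#(Set (l.out × l.out)) + 1) := by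
      unfold Op
      simp
    rw [this, mk_set, mk_prod]
    simp only [mk_out, lift_id]
    rw [mul_eq_self hl]
    exact add_le_of_le h2 hL (add_le_of_le h2 le_rfl (one_lt_aleph0.le.trans h2))
  calc Cardinal.sum (fun a : Op l L => ((2 : Cardinal.{u}) ^ l) ^ #(Ar l L a))
      ≤ Cardinal.sum (fun _ : Op l L => (2 : Cardinal.{u}) ^ l) := sum_le_sum _ _ hterm
    _ = #(Op l L) * 2 ^ l := by rw [sum_const']
    _ ≤ 2 ^ l * 2 ^ l := mul_le_mul' hOp le_rfl
    _ = 2 ^ l := mul_eq_self h2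

/-- Closure lemma, nonempty case. -/
theorem exists_closure_aux (hl : ℵ₀ ≤ l) (hL : #L ≤ 2 ^ l) (hLne : L.Nonempty) :
    ∃ M : Set G, L ⊆ M ∧ #M ≤ 2 ^ l ∧ (∀ u ∈ M, ∀ v ∈ M, T u v ∈ M) ∧
      ∀ δ : G, δ ∉ M → ∀ S ⊆ M, #S ≤ l → ∃ h ∈ M, h ∉ S ∧ ∀ u ∈ S, ∀ v ∈ S,
        (T h u = v ↔ T δ u = v) := by
  have hLM : L ⊆ range (ev l L) := by
    intro x hx
    exact ⟨WType.mk (Sum.inl ⟨x, hx⟩) (fun a => nomatch a), rfl⟩
  refine ⟨range (ev l L), hLM, mk_range_le.trans (mk_W_le l L hl hL), ?_, ?_⟩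
  · rintro _ ⟨a, rfl⟩ _ ⟨b, rfl⟩
    refine ⟨WType.mk (Sum.inr (Sum.inr PUnit.unit))
      (fun i : ULift.{u} Bool => if i.down then a else b), ?_⟩
    simp [ev]
  · intro δ hδ S hS hSl
    obtain ⟨m0, hm0⟩ := hLne
    set S' : Set G := insert m0 S with hS'
    have hS'M : S' ⊆ range (ev l L) := by
      rintro x (rfl | hx)
      · exact hLM hm0
      · exact hS hx
    have hS'l : #S' ≤ #(l.out) := by
      rw [mk_out]
      refine (mk_insert_le).trans ?_
      exact add_le_of_le hl hSl (one_lt_aleph0.le.trans hl)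
    haveI : Nonempty S' := ⟨⟨m0, mem_insert _ _⟩⟩
    obtain ⟨e⟩ := (le_def _ _).1 hS'l
    obtain ⟨f, hf⟩ : ∃ f : l.out → S', Function.Surjective f :=
      ⟨Function.invFun e, Function.invFun_surjective e.injective⟩
    have hch : ∀ i : l.out, ∃ w : WType (Ar l L), ev l L w = (f i : G) := by
      intro i
      exact hS'M (f i).2
    choose w hw using hch
    set p : Set (l.out × l.out) := {q | T δ (f q.1 : G) = (f q.2 : G)} with hp
    have hex : ∃ g : G, (∀ i, g ≠ ev l L (w i)) ∧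
        ∀ i j, (T g (ev l L (w i)) = ev l L (w j) ↔ (i, j) ∈ p) := by
      refine ⟨δ, ?_, ?_⟩
      · intro i he
        exact hδ ⟨w i, he.symm⟩
      · intro i j
        rw [hw i, hw j, hp]
        simp only [mem_ofPred_eq]
    refine ⟨realise l p (fun i => ev l L (w i)),
      ⟨WType.mk (Sum.inr (Sum.inl p)) w, by simp [ev]⟩, ?_, ?_⟩
    · intro hmem
      obtain ⟨i, hi⟩ := hf ⟨_, Or.inr hmem⟩
      have h1 := hex.choose_spec.1 i
      have h2 : realise l p (fun i => ev l L (w i)) = hex.choose := by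
        unfold realise
        rw [dif_pos hex]
      apply h1
      rw [← h2, hw i, hi]
    · intro x hx y hy
      obtain ⟨i, hi⟩ := hf ⟨x, Or.inr hx⟩
      obtain ⟨j, hj⟩ := hf ⟨y, Or.inr hy⟩
      have h2 : realise l p (fun i => ev l L (w i)) = hex.choose := by
        unfold realise
        rw [dif_pos hex]
      have h1 := hex.choose_spec.2 i j
      rw [hw i, hw j, hi, hj] at h1
      rw [h2]
      rw [h1, hp]
      simp only [mem_ofPred_eq]
      rw [hi, hj]

/-- Closure lemma. -/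
theorem exists_closure (hl : ℵ₀ ≤ l) (hL : #L ≤ 2 ^ l) :
    ∃ M : Set G, L ⊆ M ∧ #M ≤ 2 ^ l ∧ (∀ u ∈ M, ∀ v ∈ M, T u v ∈ M) ∧
      ∀ δ : G, δ ∉ M → ∀ S ⊆ M, #S ≤ l → ∃ h ∈ M, h ∉ S ∧ ∀ u ∈ S, ∀ v ∈ S,
        (T h u = v ↔ T δ u = v) := by
  have h2 : ℵ₀ ≤ (2 : Cardinal.{u}) ^ l := hl.trans (cantor l).le
  have : #(insert (1 : G) L : Set G) ≤ 2 ^ l :=
    mk_insert_le.trans (add_le_of_le h2 hL (one_lt_aleph0.le.trans h2))
  obtain ⟨M, h1, h2, h3, h4⟩ := exists_closure_aux l (insert (1 : G) L) hl this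
    (insert_nonempty _ _)
  exact ⟨M, (subset_insert _ _).trans h1, h2, h3, h4⟩

end closure

section families

/-- Existence of large good sets from a separated family of cardinals below `#G`. -/
theorem good_of_family (ι : Type u) (c : ι → Cardinal.{u})
    (h_inf : ∀ i, ℵ₀ ≤ c i) (h_ι : ∀ i, #ι ≤ c i)
    (h_sep : ∀ i j, c i < c j → 2 ^ c i ≤ c j)
    (h_big : ∀ i, 2 ^ c i < #G) :
    ∃ H : Set G, IsGood H ∧ ∀ i, c i < #H := by
  classical
  -- the closure operator
  have hcl : ∀ (l : Cardinal.{u}) (L : Set G), ∃ M : Set G, ℵ₀ ≤ l → #L ≤ 2 ^ l →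
      (L ⊆ M ∧ #M ≤ 2 ^ l ∧ (∀ u ∈ M, ∀ v ∈ M, T u v ∈ M) ∧
      ∀ δ : G, δ ∉ M → ∀ S ⊆ M, #S ≤ l → ∃ h ∈ M, h ∉ S ∧ ∀ u ∈ S, ∀ v ∈ S,
        (T h u = v ↔ T δ u = v)) := by
    intro l L
    by_cases h : ℵ₀ ≤ l ∧ #L ≤ 2 ^ l
    · obtain ⟨M, hM⟩ := exists_closure l L h.1 h.2
      exact ⟨M, fun _ _ => hM⟩
    · exact ⟨∅, fun a b => absurd ⟨a, b⟩ h⟩
  choose Cl hCl using hcl
  -- the recursion
  obtain ⟨MM, hMM⟩ : ∃ MM : Cardinal.{u} → Set G, ∀ a, MM a =
      Cl a {x | ∃ j : ι, c j < a ∧ x ∈ MM (c j)} := by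
    refine ⟨WellFounded.fix (C := fun _ : Cardinal.{u} => Set G) (Cardinal.lt_wf)
      (fun a ih => Cl a {x | ∃ (j : ι) (hj : c j < a), x ∈ ih (c j) hj}), ?_⟩
    intro a
    rw [WellFounded.fix_eq]
    congr 1
    ext x
    simp only [mem_ofPred_eq]
    constructor
    · rintro ⟨j, hj, hx⟩; exact ⟨j, hj, hx⟩
    · rintro ⟨j, hj, hx⟩; exact ⟨j, hj, hx⟩
  set M : ι → Set G := fun i => MM (c i) with hM
  have hMi : ∀ i, M i = Cl (c i) (low ι c M i) := by
    intro i
    show MM (c i) = _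
    rw [hMM (c i)]
    rfl
  -- size bounds by induction
  have key : ∀ a : Cardinal.{u}, ∀ i, c i = a → #(low ι c M i) ≤ c i ∧ #(M i) ≤ 2 ^ c i := by
    intro a
    induction a using WellFoundedLT.induction with
    | _ a ih =>
      intro i hi
      have hlow : #(low ι c M i) ≤ c i := by
        have hsub : low ι c M i ⊆ ⋃ j : {j : ι // c j < c i}, M j.1 := by
          rintro x ⟨j, hj, hx⟩
          exact mem_iUnion.2 ⟨⟨j, hj⟩, hx⟩
        refine (mk_le_mk_of_subset hsub).trans ?_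
        refine (mk_iUnion_le _).trans ?_
        have hsup : (⨆ j : {j : ι // c j < c i}, #(M j.1)) ≤ c i := by
          refine ciSup_le' fun j => ?_
          have := (ih (c j.1) (hi ▸ j.2) j.1 rfl).2
          exact this.trans (h_sep _ _ j.2)
        exact (mul_le_mul' ((mk_subtype_le _).trans (h_ι i)) hsup).trans
          (mul_eq_self (h_inf i)).le
      refine ⟨hlow, ?_⟩
      rw [hMi i]
      exact (hCl (c i) (low ι c M i) (h_inf i) (hlow.trans (cantor _).le)).2.1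
  have hlow : ∀ i, #(low ι c M i) ≤ c i := fun i => (key _ i rfl).1
  have hprop := fun i => hCl (c i) (low ι c M i) (h_inf i) ((hlow i).trans (cantor _).le)
  have hδ : ∀ a : Cardinal.{u}, ∃ δ : G, (∃ i, c i = a) → δ ∉ MM a := by
    intro a
    by_cases h : ∃ i, c i = a
    · obtain ⟨i, rfl⟩ := h
      have h1 : #(M i) < #G := (key _ i rfl).2.trans_lt (h_big i)
      have : M i ≠ Set.univ := by
        intro h
        rw [h, mk_univ] at h1
        exact lt_irrefl _ h1
      obtain ⟨δ, hδ⟩ := (ne_univ_iff_exists_notMem _).1 this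
      exact ⟨δ, fun _ => hδ⟩
    · exact ⟨1, fun h' => absurd h' h⟩
  choose Δ hΔ using hδ
  refine core ι c M (fun i => Δ (c i)) ?_ ?_ ?_ ?_ h_inf h_ι hlow
  · intro i j hij
    simp only [hM, hij, and_self]
  · intro i j hij
    rcases lt_or_eq_of_le hij with h | h
    · rw [hMi j]
      intro x hx
      exact (hprop j).1 (show x ∈ low ι c M j from ⟨i, h, hx⟩)
    · show MM (c i) ⊆ MM (c j)
      rw [h]
  · intro i u hu v hv
    rw [hMi i] at hu hv ⊢
    exact (hprop i).2.2.1 u hu v hv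
  · intro i S hS hSc
    have h1 := (hprop i).2.2.2 (Δ (c i)) (by
      rw [← hMi i]
      exact hΔ (c i) ⟨i, rfl⟩) S (by rw [← hMi i]; exact hS) hSc
    rw [← hMi i] at h1
    exact h1

/-- A group with more than `2 ^ l` elements has a good subset with more than `l` elements. -/
theorem good_of_two_power_lt (l : Cardinal.{u}) (hl : ℵ₀ ≤ l) (h : 2 ^ l < #G) :
    ∃ H : Set G, IsGood H ∧ l < #H := by
  obtain ⟨H, h1, h2⟩ := good_of_family (G := G) PUnit.{u+1} (fun _ => l) (fun _ => hl)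
    (fun _ => by simpa using (one_lt_aleph0.le.trans hl)) (fun _ _ h => absurd h (lt_irrefl _))
    (fun _ => h)
  exact ⟨H, h1, h2 PUnit.unit⟩

theorem exists_beth {k a : Cardinal.{u}} (hk : k.IsStrongLimit) (hk0 : ℵ₀ < k) (ha : a < k) :
    ∃ o : Ordinal.{u}, a ≤ beth o ∧ beth o < k := by
  have hne : {o : Ordinal.{u} | a ≤ beth o}.Nonempty := ⟨a.ord, le_beth_ord a⟩
  set o := sInf {o : Ordinal.{u} | a ≤ beth o} with ho
  have h1 : a ≤ beth o := csInf_mem hne
  have h2 : ∀ p < o, beth p < a := by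
    intro p hp
    by_contra hcon
    push Not at hcon
    exact absurd (csInf_le' (show p ∈ {o : Ordinal.{u} | a ≤ beth o} from hcon)) (not_le.2 hp)
  refine ⟨o, h1, ?_⟩
  clear_value o
  induction o using Ordinal.limitRecOn with
  | zero => rw [beth_zero]; exact hk0
  | add_one p _ =>
    rw [beth_add_one]
    exact hk.two_power_lt ((h2 p (by simp)).trans ha)
  | limit p hp _ =>
    rw [beth_limit hp]
    refine lt_of_le_of_lt (ciSup_le' fun q => ?_) ha
    exact (h2 q.1 q.2).le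

/-- No strange group at a singular strong limit cardinal. -/
theorem good_of_singular (hs : (#G).IsStrongLimit) (hsing : (#G).IsSingular) :
    ∃ H : Set G, IsGood H ∧ #H = #G := by
  set k := #G with hk
  obtain ⟨s, hs1, hs2⟩ := Order.exists_cof_eq (α := k.ord.ToType)
  have hcof : #s = k.ord.cof := by rw [hs2, Ordinal.cof_toType]
  have hcofk : k.ord.cof < k := hsing.cof_ord_lt
  have hcof0 : ℵ₀ ≤ k.ord.cof := Ordinal.aleph0_le_cof.2 (isSuccLimit_ord hs.aleph0_le)
  have hk0 : ℵ₀ < k := hcof0.trans_lt hcofk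
  have hex : ∀ i : s, ∃ o : Ordinal.{u},
      max (Ordinal.card ((Ordinal.ToType.toOrd i.1 : Set.Iio k.ord) : Ordinal.{u})) k.ord.cof
        ≤ beth o ∧ beth o < k := by
    intro i
    refine exists_beth hs hk0 (max_lt ?_ hcofk)
    have := (Ordinal.ToType.toOrd i.1 : Set.Iio k.ord).2
    exact lt_ord.1 this
  choose o ho1 ho2 using hex
  obtain ⟨H, hH1, hH2⟩ := good_of_family (G := G) s (fun i => beth (o i))
    (fun i => aleph0_le_beth _) (fun i => by
      rw [hcof]; exact (le_max_right _ _).trans (ho1 i))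
    (fun i j hij => by
      rw [beth_lt_beth] at hij
      rw [← beth_add_one]
      exact beth_mono (Order.add_one_le_of_lt hij))
    (fun i => hs.two_power_lt (ho2 i))
  refine ⟨H, hH1, le_antisymm (mk_set_le H) ?_⟩
  by_contra hcon
  push Not at hcon
  have h1 : (#H).ord < k.ord := ord_lt_ord.2 hcon
  obtain ⟨i, hi, hxi⟩ := hs1 (Ordinal.ToType.mk ⟨(#H).ord, h1⟩)
  have h2 : (#H).ord ≤ (Ordinal.ToType.toOrd i : Set.Iio k.ord) := by
    have := (Ordinal.ToType.mk (o := k.ord)).symm.monotone hxi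
    rw [OrderIso.symm_apply_apply] at this
    exact this
  have h3 : #H ≤ Ordinal.card ((Ordinal.ToType.toOrd i : Set.Iio k.ord) : Ordinal.{u}) :=
    ord_le.1 h2
  have h4 := hH2 ⟨i, hi⟩
  exact absurd (h4.trans_le (h3.trans ((le_max_left _ _).trans (ho1 ⟨i, hi⟩)))) (lt_irrefl _)

end families

end Helper996.Strange
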