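import Mathlib
import Pool.Agent.Helper996.StrangeClosure

/-! Saturated ideals, equations with chain condition, extensions, soluble groups. -/

namespace Helper996.Strange

open Cardinal Set
open scoped commutatorElement

universe u

variable {G : Type u} [Group G]

/-- `W x y = {z : z x⁻¹ z = y}` -/
def W (x y : G) : Set G := {z | T z x = y}

theorem W_symm (x y : G) : W x y = W y x := by
  ext z
  exact T_eq_iff

/-- Extending a set without bad triples by one element. -/
theorem NoBad.insert {H : Set G} (h : NoBad H) {z : G}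
    (h1 : ∀ x ∈ H, ∀ y ∈ H, z ≠ T x y) (h2 : ∀ x ∈ H, ∀ y ∈ H, x ≠ y → z ∉ W x y) :
    NoBad (insert z H) := by
  have key : ∀ x ∈ H, ∀ y ∈ H, x ≠ y → ¬ B x y z := by
    intro x hx y hy hxy hb
    rcases hb with e | e | e
    · exact h1 x hx y hy e.symm
    · exact h1 y hy x hx e.symm
    · exact h2 x hx y hy hxy e
  rintro a ha b hb c hc hab hac hbc hbad
  rcases ha with rfl | ha
  · rcases hb with rfl | hb
    · exact hab rfl
    rcases hc with rfl | hc
    · exact hac rfl
    exact key b hb c hc hbc (B_comm23 (B_comm12 hbad))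
  · rcases hb with rfl | hb
    · rcases hc with rfl | hc
      · exact hbc rfl
      exact key a ha c hc hac (B_comm23 hbad)
    · rcases hc with rfl | hc
      · exact key a ha b hb hab hbad
      · exact h a ha b hb c hc hab hac hbc hbad

/-- General Zorn lemma: maximal subset of `X` without bad triples and with all pairs in a symmetric
relation `R`. -/
theorem exists_maximal_pair (X : Set G) (R : G → G → Prop) :
    ∃ H : Set G, Maximal (fun H : Set G => H ⊆ X ∧ NoBad H ∧ ∀ x ∈ H, ∀ y ∈ H, x ≠ y → R x y) H := by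
  have h := zorn_subset {H : Set G | H ⊆ X ∧ NoBad H ∧ ∀ x ∈ H, ∀ y ∈ H, x ≠ y → R x y} ?_
  · obtain ⟨H, hH⟩ := h
    exact ⟨H, hH⟩
  · intro C hC hchain
    refine ⟨⋃₀ C, ?_, fun s hs => subset_sUnion_of_mem hs⟩
    have two : ∀ x ∈ ⋃₀ C, ∀ y ∈ ⋃₀ C, ∃ s ∈ C, x ∈ s ∧ y ∈ s := by
      rintro x ⟨s, hs, hx⟩ y ⟨t, ht, hy⟩
      rcases hchain.total hs ht with h | h
      · exact ⟨t, ht, h hx, hy⟩
      · exact ⟨s, hs, hx, h hy⟩
    have three : ∀ x ∈ ⋃₀ C, ∀ y ∈ ⋃₀ C, ∀ z ∈ ⋃₀ C, ∃ s ∈ C, x ∈ s ∧ y ∈ s ∧ z ∈ s := by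
      rintro x hx y hy z ⟨t, ht, hz⟩
      obtain ⟨s, hs, hxs, hys⟩ := two x hx y hy
      rcases hchain.total hs ht with h | h
      · exact ⟨t, ht, h hxs, h hys, hz⟩
      · exact ⟨s, hs, hxs, hys, h hz⟩
    refine ⟨?_, ?_, ?_⟩
    · rintro x ⟨s, hs, hx⟩
      exact (hC hs).1 hx
    · intro x hx y hy z hz
      obtain ⟨s, hs, h1, h2, h3⟩ := three x hx y hy z hz
      exact (hC hs).2.1 x h1 y h2 z h3
    · intro x hx y hy
      obtain ⟨s, hs, h1, h2⟩ := two x hx y hy
      exact (hC hs).2.2 x h1 y h2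

/-- Saturated ideals. -/
theorem good_of_ideal (I : Set (Set G)) (l : Cardinal.{u}) (hl0 : ℵ₀ ≤ l) (hl : l < #G)
    (hproper : Set.univ ∉ I) (hsing : ∀ x : G, {x} ∈ I)
    (hmono : ∀ A B : Set G, A ⊆ B → B ∈ I → A ∈ I)
    (hunion : ∀ F : Set (Set G), #F < #G → (∀ A ∈ F, A ∈ I) → ⋃₀ F ∈ I)
    (hsat : ∀ F : Set (Set G), (∀ A ∈ F, A ∉ I) → (F.Pairwise Disjoint) → #F ≤ l) :
    ∃ H : Set G, IsGood H ∧ #H = #G := by
  classical
  obtain ⟨H, hH⟩ := exists_maximal_pair (G := G) Set.univ (fun x y => W x y ∈ I)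
  obtain ⟨-, hnb, hI⟩ := hH.prop
  refine ⟨H, hnb.isGood, le_antisymm (mk_set_le H) ?_⟩
  by_contra hcon
  push Not at hcon
  have h0 : ℵ₀ ≤ #G := hl0.trans hl.le
  -- neighbours of x
  set N : G → Set G := fun x => {y | W x y ∉ I} with hN
  have hNcard : ∀ x, #(N x) ≤ l := by
    intro x
    have hinj : Function.Injective (fun y : N x => W x (y : G)) := by
      intro y y' hyy
      have hne : (W x (y : G)).Nonempty := by
        by_contra hemp
        rw [Set.not_nonempty_iff_eq_empty] at hemp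
        apply y.2
        rw [hemp]
        exact hmono ∅ {x} (empty_subset _) (hsing x)
      obtain ⟨z, hz⟩ := hne
      have hz' : z ∈ W x (y' : G) := by
        have : W x (y : G) = W x (y' : G) := hyy
        rw [← this]; exact hz
      exact Subtype.ext ((show T z x = y from hz).symm.trans hz')
    have : #(range (fun y : N x => W x (y : G))) ≤ l := by
      apply hsat
      · rintro _ ⟨y, rfl⟩
        exact y.2
      · rintro _ ⟨y, rfl⟩ _ ⟨y', rfl⟩ hne
        show Disjoint (W x (y : G)) (W x (y' : G))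
        rw [Set.disjoint_left]
        intro z hz hz'
        apply hne
        have : (y : G) = y' := (show T z x = y from hz).symm.trans hz'
        show W x (y : G) = W x (y' : G)
        rw [this]
    rwa [mk_range_eq _ hinj] at this
  -- small sets are in `I`
  have hsmall : ∀ A : Set G, #A < #G → A ∈ I := by
    intro A hA
    have : A = ⋃₀ ((fun x : G => ({x} : Set G)) '' A) := by
      ext x; simp
    rw [this]
    apply hunion
    · exact mk_image_le.trans_lt hA
    · rintro _ ⟨x, _, rfl⟩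
      exact hsing x
  have hUnion2 : ∀ A B : Set G, A ∈ I → B ∈ I → A ∪ B ∈ I := by
    intro A B hA hB
    have : A ∪ B = ⋃₀ ({A, B} : Set (Set G)) := by simp
    rw [this]
    apply hunion
    · exact ((Set.toFinite ({A, B} : Set (Set G))).lt_aleph0).trans_le h0
    · rintro C (rfl | rfl)
      · exact hA
      · exact hB
  set m := max #H l with hm
  have hm0 : ℵ₀ ≤ m := hl0.trans (le_max_right _ _)
  have hmG : m < #G := max_lt hcon hl
  -- the avoid set
  have hA1 : ((fun p : G × G => T p.1 p.2) '' (H ×ˢ H)) ∈ I := by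
    apply hsmall
    refine mk_image_le.trans_lt (lt_of_le_of_lt ?_ hmG)
    rw [mk_setProd]
    exact (mul_le_mul' (le_max_left _ _) (le_max_left _ _)).trans (mul_eq_self hm0).le
  have hA2 : (⋃ x : H, N x.1) ∈ I := by
    apply hsmall
    refine ((mk_iUnion_le _).trans (mul_le_mul' (le_max_left _ l) (ciSup_le' fun x =>
      (hNcard _).trans (le_max_right #H l)))).trans_lt ?_
    exact (mul_eq_self hm0).le.trans_lt hmG
  have hA3 : (⋃₀ {A : Set G | ∃ x ∈ H, ∃ y ∈ H, x ≠ y ∧ A = W x y}) ∈ I := by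
    apply hunion
    · have hsub : {A : Set G | ∃ x ∈ H, ∃ y ∈ H, x ≠ y ∧ A = W x y} ⊆
          (fun p : G × G => W p.1 p.2) '' (H ×ˢ H) := by
        rintro A ⟨x, hx, y, hy, _, rfl⟩
        exact ⟨(x, y), ⟨hx, hy⟩, rfl⟩
      refine (mk_le_mk_of_subset hsub).trans_lt (mk_image_le.trans_lt (lt_of_le_of_lt ?_ hmG))
      rw [mk_setProd]
      exact (mul_le_mul' (le_max_left _ _) (le_max_left _ _)).trans (mul_eq_self hm0).le
    · rintro A ⟨x, hx, y, hy, hxy, rfl⟩
      exact hI x hx y hy hxy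
  have hAll := hUnion2 _ _ (hUnion2 _ _ hA1 hA2) (hUnion2 _ _ hA3 (hsmall H hcon))
  have : ∃ z : G, z ∉ ((fun p : G × G => T p.1 p.2) '' (H ×ˢ H) ∪ ⋃ x : H, N x.1) ∪
      (⋃₀ {A : Set G | ∃ x ∈ H, ∃ y ∈ H, x ≠ y ∧ A = W x y} ∪ H) := by
    by_contra hno
    push Not at hno
    apply hproper
    exact hmono _ _ (fun z _ => hno z) hAll
  obtain ⟨z, hz⟩ := this
  simp only [mem_union, not_or] at hz
  obtain ⟨⟨hz1, hz2⟩, hz3, hz4⟩ := hz
  have hnew : NoBad (insert z H) := by
    apply hnb.insert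
    · intro x hx y hy e
      exact hz1 ⟨(x, y), ⟨hx, hy⟩, e.symm⟩
    · intro x hx y hy hxy hzW
      exact hz3 ⟨W x y, ⟨x, hx, y, hy, hxy, rfl⟩, hzW⟩
  have hWz : ∀ x ∈ H, W x z ∈ I := by
    intro x hx
    by_contra hcon'
    exact hz2 (mem_iUnion.2 ⟨⟨x, hx⟩, hcon'⟩)
  have hle := hH.le_of_ge (y := insert z H) ⟨subset_univ _, hnew, ?_⟩ (subset_insert z H)
  · exact hz4 (hle (mem_insert z H))
  · intro x hx y hy hxy
    rcases hx with rfl | hx
    · rcases hy with rfl | hy
      · exact absurd rfl hxy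
      · rw [W_symm]; exact hWz y hy
    · rcases hy with rfl | hy
      · exact hWz x hx
      · exact hI x hx y hy hxy

/-- In a set `Y` of regular cardinality without large good subsets there are `x ≠ y` with
many solutions of `z x⁻¹ z = y`. -/
theorem exists_large_W {k : Cardinal.{u}} (hk : k.IsRegular) (Y : Set G) (hY : #Y = k)
    (hno : ¬ ∃ H ⊆ Y, IsGood H ∧ #H = k) :
    ∃ x ∈ Y, ∃ y ∈ Y, x ≠ y ∧ #(Y ∩ W x y : Set G) = k := by
  classical
  by_contra hcon
  push Not at hcon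
  have hlt : ∀ x ∈ Y, ∀ y ∈ Y, x ≠ y → #(Y ∩ W x y : Set G) < k := by
    intro x hx y hy hxy
    refine lt_of_le_of_ne ?_ (hcon x hx y hy hxy)
    rw [← hY]
    exact mk_le_mk_of_subset inter_subset_left
  obtain ⟨H, hH⟩ := exists_maximal_pair (G := G) Y (fun _ _ => True)
  obtain ⟨hHY, hnb, -⟩ := hH.prop
  apply hno
  refine ⟨H, hHY, hnb.isGood, le_antisymm (hY ▸ mk_le_mk_of_subset hHY) ?_⟩
  by_contra hc
  push Not at hc
  have hk0 := hk.aleph0_le
  set A1 : Set G := (fun p : G × G => T p.1 p.2) '' (H ×ˢ H) with hA1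
  have hpair : #(H ×ˢ H : Set (G × G)) < k := by
    rw [mk_setProd]
    exact mul_lt_of_lt hk0 hc hc
  have h1 : #A1 < k := mk_image_le.trans_lt hpair
  set A2 : Set G := ⋃ p : (H ×ˢ H : Set (G × G)), (if p.1.1 ≠ p.1.2 then Y ∩ W p.1.1 p.1.2 else ∅)
    with hA2
  have h2 : #A2 < k := by
    refine (mk_iUnion_le_sum_mk).trans_lt ?_
    apply sum_lt_of_isRegular hk hpair
    intro p
    split_ifs with hp
    · exact hlt _ (hHY p.2.1) _ (hHY p.2.2) hp
    · simpa using hk.pos
  have hsub : Y ⊆ (H ∪ A1) ∪ A2 := by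
    intro z hz
    by_contra hz'
    simp only [mem_union, not_or] at hz'
    obtain ⟨⟨hzH, hz1⟩, hz2⟩ := hz'
    have hnew : NoBad (insert z H) := by
      apply hnb.insert
      · intro x hx y hy e
        exact hz1 ⟨(x, y), ⟨hx, hy⟩, e.symm⟩
      · intro x hx y hy hxy hzW
        apply hz2
        rw [hA2]
        refine mem_iUnion.2 ⟨⟨(x, y), ⟨hx, hy⟩⟩, ?_⟩
        rw [if_pos hxy]
        exact ⟨hz, hzW⟩
    have hle := hH.le_of_ge (y := insert z H)
      ⟨insert_subset hz hHY, hnew, fun _ _ _ _ _ => trivial⟩ (subset_insert z H)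
    exact hzH (hle (mem_insert z H))
  have h3 : #Y < k := by
    refine (mk_le_mk_of_subset hsub).trans_lt ?_
    refine (mk_union_le _ _).trans_lt (add_lt_of_lt hk0 ?_ h2)
    exact (mk_union_le _ _).trans_lt (add_lt_of_lt hk0 hc h1)
  exact absurd hY h3.ne

/-- The chain condition on solution sets of the equations `z x⁻¹ z = y`. -/
def Chain (G : Type u) [Group G] : Prop :=
  ∀ x y : ℕ → G, ∃ n, ∀ z : G, (∀ i < n, z * (x i)⁻¹ * z = y i) → z * (x n)⁻¹ * z = y n

theorem good_of_chain (hch : Chain G) (hk : (#G).IsRegular) :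
    ∃ H : Set G, IsGood H ∧ #H = #G := by
  classical
  by_contra hno
  have step : ∀ Y : {Y : Set G // #Y = #G}, ∃ p : G × G, p.1 ∈ Y.1 ∧ p.1 ≠ p.2 ∧
      #(Y.1 ∩ W p.1 p.2 : Set G) = #G := by
    rintro ⟨Y, hY⟩
    obtain ⟨x, hx, y, -, hxy, hc⟩ := exists_large_W hk Y hY (by
      rintro ⟨H, -, h1, h2⟩
      exact hno ⟨H, h1, h2⟩)
    exact ⟨(x, y), hx, hxy, hc⟩
  choose p hp1 hp2 hp3 using step
  let Y : ℕ → {Y : Set G // #Y = #G} := fun n =>
    Nat.rec ⟨Set.univ, mk_univ⟩ (fun _ Y => ⟨Y.1 ∩ W (p Y).1 (p Y).2, hp3 Y⟩) n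
  have hYs : ∀ n, (Y (n + 1)).1 = (Y n).1 ∩ W (p (Y n)).1 (p (Y n)).2 := fun n => rfl
  have hYsub : ∀ n, ∀ z ∈ (Y n).1, ∀ i < n, T z (p (Y i)).1 = (p (Y i)).2 := by
    intro n
    induction n with
    | zero => intro z _ i hi; exact absurd hi (Nat.not_lt_zero i)
    | succ n ih =>
      intro z hz i hi
      rw [hYs] at hz
      rcases Nat.lt_succ_iff_lt_or_eq.1 hi with h | h
      · exact ih z hz.1 i h
      · rw [h]; exact hz.2
  obtain ⟨n, hn⟩ := hch (fun i => (p (Y i)).1) (fun i => (p (Y i)).2)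
  have := hn (p (Y n)).1 (fun i hi => hYsub n _ (hp1 (Y n)) i hi)
  apply hp2 (Y n)
  simpa using this

/-- Linear groups over Noetherian commutative rings satisfy the chain condition. -/
theorem chain_of_linear {R : Type*} [CommRing R] [IsNoetherianRing R] {m : ℕ}
    (φ : G →* Matrix (Fin m) (Fin m) R) (hφ : Function.Injective φ) : Chain G := by
  classical
  intro x y
  let P : ℕ → Fin m → Fin m → MvPolynomial (Fin m × Fin m) R := fun i a b =>
    (∑ c, ∑ d, MvPolynomial.X (a, c) * MvPolynomial.C (φ (x i)⁻¹ c d) * MvPolynomial.X (d, b)) -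
      MvPolynomial.C (φ (y i) a b)
  have hP : ∀ (z : G) i a b, MvPolynomial.eval (fun q : Fin m × Fin m => φ z q.1 q.2) (P i a b) =
      (φ (z * (x i)⁻¹ * z) - φ (y i)) a b := by
    intro z i a b
    simp only [P, map_sub, map_sum, map_mul, MvPolynomial.eval_X, MvPolynomial.eval_C,
      Matrix.sub_apply, Matrix.mul_apply, Finset.sum_mul]
    congr 1
    rw [Finset.sum_comm]
  have hPz : ∀ (z : G) i, z * (x i)⁻¹ * z = y i ↔
      ∀ a b, MvPolynomial.eval (fun q : Fin m × Fin m => φ z q.1 q.2) (P i a b) = 0 := by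
    intro z i
    constructor
    · intro h a b
      rw [hP, h]; simp
    · intro h
      apply hφ
      rw [← sub_eq_zero]
      ext a b
      rw [← hP]
      exact h a b
  let J : ℕ →o Ideal (MvPolynomial (Fin m × Fin m) R) :=
    ⟨fun k => Ideal.span {f | ∃ i < k, ∃ a b, f = P i a b}, by
      intro k l hkl
      apply Ideal.span_mono
      rintro f ⟨i, hi, a, b, rfl⟩
      exact ⟨i, hi.trans_le hkl, a, b, rfl⟩⟩
  obtain ⟨n, hn⟩ := monotone_stabilizes_iff_noetherian.2
    (inferInstance : IsNoetherian (MvPolynomial (Fin m × Fin m) R) (MvPolynomial (Fin m × Fin m) R)) J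
  refine ⟨n, ?_⟩
  intro z hz
  rw [hPz]
  intro a b
  have h1 : P n a b ∈ J (n + 1) := Ideal.subset_span ⟨n, Nat.lt_succ_self n, a, b, rfl⟩
  rw [← hn (n + 1) (Nat.le_succ n)] at h1
  have h2 : J n ≤ RingHom.ker (MvPolynomial.eval (fun q : Fin m × Fin m => φ z q.1 q.2)) := by
    refine Ideal.span_le.2 ?_
    rintro f ⟨i, hi, a, b, rfl⟩
    exact (hPz z i).1 (hz i hi) a b
  exact h2 h1

/-- good sets lift from quotients -/
theorem good_lift {Q : Type u} [Group Q] (φ : G →* Q) (hφ : Function.Surjective φ)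
    (H : Set Q) (hH : IsGood H) : ∃ K : Set G, IsGood K ∧ #K = #H := by
  choose s hs using hφ
  refine ⟨s '' H, ?_, ?_⟩
  · rintro _ ⟨a, ha, rfl⟩ _ ⟨b, hb, rfl⟩ _ ⟨c, hc, rfl⟩ e
    have := congrArg φ e
    simp only [map_mul, map_inv, hs] at this
    rw [hH a ha b hb c hc this]
  · exact mk_image_eq (Function.LeftInverse.injective hs)

theorem good_of_subgroup (N : Subgroup G) (H : Set N) (hH : IsGood H) :
    ∃ K : Set G, IsGood K ∧ #K = #H := by
  refine ⟨Subtype.val '' H, ?_, mk_image_eq Subtype.val_injective⟩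
  rintro _ ⟨a, ha, rfl⟩ _ ⟨b, hb, rfl⟩ _ ⟨c, hc, rfl⟩ e
  rw [hH a ha b hb c hc (Subtype.ext (by simpa using e))]

theorem good_of_comm (hcomm : ∀ a b : G, a * b = b * a) (hinf : ℵ₀ ≤ #G) :
    ∃ H : Set G, IsGood H ∧ #H = #G := by
  classical
  set A2 : Set G := {a | a * a = 1} with hA2
  have hT : ∀ a b : G, T a b = a * a * b⁻¹ := by
    intro a b
    unfold T
    rw [mul_assoc, hcomm b⁻¹ a, ← mul_assoc]
  rcases lt_or_eq_of_le (mk_set_le A2) with hlt | heq
  · obtain ⟨H, hH⟩ := exists_maximal_pair (G := G) Set.univ (fun _ _ => True)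
    obtain ⟨-, hnb, -⟩ := hH.prop
    refine ⟨H, hnb.isGood, le_antisymm (mk_set_le H) ?_⟩
    by_contra hc
    push Not at hc
    have hpair : #(H ×ˢ H : Set (G × G)) < #G := by
      rw [mk_setProd]
      exact mul_lt_of_lt hinf hc hc
    set B1 : Set G := (fun p : G × G => T p.1 p.2) '' (H ×ˢ H) with hB1
    have h1 : #B1 < #G := mk_image_le.trans_lt hpair
    set B2 : Set G := {z | ∃ x ∈ H, ∃ y ∈ H, T z x = y} with hB2
    have hroot : ∀ c : G, ∃ r : G, ∀ z, z * z = c → ∃ t ∈ A2, z = r * t := by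
      intro c
      by_cases h : ∃ r : G, r * r = c
      · obtain ⟨r, hr⟩ := h
        refine ⟨r, fun z hz => ⟨r⁻¹ * z, ?_, by simp⟩⟩
        show r⁻¹ * z * (r⁻¹ * z) = 1
        have : r⁻¹ * z * (r⁻¹ * z) = (r * r)⁻¹ * (z * z) := by
          calc r⁻¹ * z * (r⁻¹ * z) = r⁻¹ * (z * r⁻¹) * z := by group
            _ = r⁻¹ * (r⁻¹ * z) * z := by rw [hcomm z]
            _ = (r * r)⁻¹ * (z * z) := by group
        rw [this, hr, hz, inv_mul_cancel]
      · exact ⟨1, fun z hz => absurd ⟨z, hz⟩ h⟩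
    choose r hr using hroot
    have h2 : #B2 < #G := by
      have hsub : B2 ⊆ (fun q : (G × G) × G => r (q.1.1 * q.1.2) * q.2) '' ((H ×ˢ H) ×ˢ A2) := by
        rintro z ⟨x, hx, y, hy, e⟩
        rw [hT] at e
        have e' : z * z = x * y := by
          rw [← e, hcomm x, mul_assoc, inv_mul_cancel, mul_one]
        obtain ⟨t, ht, hzt⟩ := hr (x * y) z e'
        exact ⟨((x, y), t), ⟨⟨hx, hy⟩, ht⟩, hzt.symm⟩
      refine (mk_le_mk_of_subset hsub).trans_lt (mk_image_le.trans_lt ?_)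
      rw [mk_setProd]
      exact mul_lt_of_lt hinf hpair hlt
    have hsub : (Set.univ : Set G) ⊆ (H ∪ B1) ∪ B2 := by
      intro z _
      by_contra hz'
      simp only [mem_union, not_or] at hz'
      obtain ⟨⟨hzH, hz1⟩, hz2⟩ := hz'
      have hnew : NoBad (insert z H) := by
        apply hnb.insert
        · intro x hx y hy e
          exact hz1 ⟨(x, y), ⟨hx, hy⟩, e.symm⟩
        · intro x hx y hy _ hzW
          exact hz2 ⟨x, hx, y, hy, hzW⟩
      have hle := hH.le_of_ge (y := insert z H)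
        ⟨subset_univ _, hnew, fun _ _ _ _ _ => trivial⟩ (subset_insert z H)
      exact hzH (hle (mem_insert z H))
    have h3 : #(Set.univ : Set G) < #G := by
      refine (mk_le_mk_of_subset hsub).trans_lt ?_
      refine (mk_union_le _ _).trans_lt (add_lt_of_lt hinf ?_ h2)
      exact (mk_union_le _ _).trans_lt (add_lt_of_lt hinf hc h1)
    exact absurd mk_univ h3.ne
  · refine ⟨A2, ?_, heq⟩
    intro x hx y hy z hz e
    rw [eq_T_iff, hT] at e
    have hy' : y * y = 1 := hy
    have hx' : x * x = 1 := hx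
    rw [hy', one_mul] at e
    rw [← e]
    exact (inv_eq_of_mul_eq_one_left hx').symm

theorem good_of_derived (n : ℕ) : ∀ (G : Type u) [Group G], derivedSeries G n = ⊥ → ℵ₀ ≤ #G →
    ∃ H : Set G, IsGood H ∧ #H = #G := by
  induction n with
  | zero =>
    intro G _ h hinf
    rw [derivedSeries_zero] at h
    have : Subsingleton G := by
      refine ⟨fun a b => ?_⟩
      have ha : a ∈ (⊥ : Subgroup G) := h ▸ Subgroup.mem_top a
      have hb : b ∈ (⊥ : Subgroup G) := h ▸ Subgroup.mem_top b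
      rw [Subgroup.mem_bot] at ha hb
      rw [ha, hb]
    exact absurd hinf (not_le.2 (lt_aleph0_of_finite G))
  | succ n ih =>
    intro G _ h hinf
    set N : Subgroup G := derivedSeries G n with hN
    have hmul : #G = #(G ⧸ N) * #N := by
      rw [mk_congr (Subgroup.groupEquivQuotientProdSubgroup (s := N)), mk_prod, lift_id, lift_id]
    have hQle : #(G ⧸ N) ≤ #G := mk_quotient_le
    have hNle : #N ≤ #G := mk_subtype_le _
    rcases lt_or_eq_of_le hNle with hNlt | hNeq
    · rcases lt_or_eq_of_le hQle with hQlt | hQeq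
      · exact absurd hmul (mul_lt_of_lt hinf hQlt hNlt).ne'
      · haveI : N.Normal := derivedSeries_normal G n
        have hder : derivedSeries (G ⧸ N) n = ⊥ := by
          rw [← map_derivedSeries_eq (QuotientGroup.mk'_surjective N) n]
          rw [← hN]
          exact (QuotientGroup.map_mk'_self N)
        obtain ⟨H, hH1, hH2⟩ := ih (G ⧸ N) hder (hQeq ▸ hinf)
        obtain ⟨K, hK1, hK2⟩ := good_lift (QuotientGroup.mk' N) (QuotientGroup.mk'_surjective N) H hH1
        exact ⟨K, hK1, by rw [hK2, hH2, hQeq]⟩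
    · have hcomm : ∀ a b : N, a * b = b * a := by
        intro a b
        have h1 : ⁅(a : G), (b : G)⁆ ∈ derivedSeries G (n + 1) :=
          Subgroup.commutator_mem_commutator a.2 b.2
        rw [h, Subgroup.mem_bot, commutatorElement_eq_one_iff_mul_comm] at h1
        exact Subtype.ext h1
      obtain ⟨H, hH1, hH2⟩ := good_of_comm hcomm (hNeq ▸ hinf)
      obtain ⟨K, hK1, hK2⟩ := good_of_subgroup N H hH1
      exact ⟨K, hK1, by rw [hK2, hH2, hNeq]⟩

theorem good_of_solvable (hs : Group.IsSolvable G) (hinf : ℵ₀ ≤ #G) :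
    ∃ H : Set G, IsGood H ∧ #H = #G := by
  obtain ⟨n, hn⟩ := hs.solvable
  exact good_of_derived n G hn hinf

end Helper996.Strange
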