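import Mathlib
import Pool.Agent.Helper996.StrangeMore

/-! A class of groups all of whose subsets of regular size `k` have good subsets of size `k`. -/

namespace Helper996.Strange

open Cardinal Set

universe u

/-- every subset of size `k` has a good subset of size `k` -/
def Her (k : Cardinal.{u}) (G : Type u) [Group G] : Prop :=
  ∀ X : Set G, #X = k → ∃ H ⊆ X, IsGood H ∧ #H = k

theorem her_of_chain {k : Cardinal.{u}} (hk : k.IsRegular) {G : Type u} [Group G]
    (hch : Chain G) : Her k G := by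
  classical
  intro X hX
  by_contra hno
  have step : ∀ Y : {Y : Set G // Y ⊆ X ∧ #Y = k}, ∃ p : G × G, p.1 ∈ Y.1 ∧ p.1 ≠ p.2 ∧
      #(Y.1 ∩ W p.1 p.2 : Set G) = k := by
    rintro ⟨Y, hYX, hY⟩
    obtain ⟨x, hx, y, -, hxy, hc⟩ := exists_large_W hk Y hY (by
      rintro ⟨H, h0, h1, h2⟩
      exact hno ⟨H, h0.trans hYX, h1, h2⟩)
    exact ⟨(x, y), hx, hxy, hc⟩
  choose p hp1 hp2 hp3 using step
  let Y : ℕ → {Y : Set G // Y ⊆ X ∧ #Y = k} := fun n =>
    Nat.rec ⟨X, Subset.rfl, hX⟩ (fun _ Y => ⟨Y.1 ∩ W (p Y).1 (p Y).2,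
      inter_subset_left.trans Y.2.1, hp3 Y⟩) n
  have hYs : ∀ n, (Y (n + 1)).1 = (Y n).1 ∩ W (p (Y n)).1 (p (Y n)).2 := fun n => rfl
  have hYsub : ∀ n, ∀ z ∈ (Y n).1, ∀ i < n, T z (p (Y i)).1 = (p (Y i)).2 := by
    intro n
    induction n with
    | zero => intro z _ i hi; exact absurd hi (Nat.not_lt_zero i)
    | succ n ih =>
      intro z hz i hi
      rw [hYs] at hz
      rcases Nat.lt_succ_iff_lt_or_eq.1 hi with h | h
      · exact ih z hz.1 i h
      · rw [h]; exact hz.2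
  obtain ⟨n, hn⟩ := hch (fun i => (p (Y i)).1) (fun i => (p (Y i)).2)
  have := hn (p (Y n)).1 (fun i hi => hYsub n _ (hp1 (Y n)) i hi)
  apply hp2 (Y n)
  simpa using this

theorem her_ext {k : Cardinal.{u}} (hk : k.IsRegular) {G : Type u} [Group G] (N : Subgroup G)
    [N.Normal] (h1 : Her k N) (h2 : Her k (G ⧸ N)) : Her k G := by
  classical
  intro X hX
  set π : G → G ⧸ N := fun g => (QuotientGroup.mk g : G ⧸ N) with hπ
  rcases lt_or_eq_of_le ((mk_image_le (f := π) (s := X)).trans hX.le) with hlt | heq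
  · -- few cosets: one coset contains many elements
    have hpig := infinite_pigeonhole (β := X) (α := π '' X) (fun x => ⟨π x, x, x.2, rfl⟩)
      (by rw [hX]; exact hk.aleph0_le) (by rw [hX, hk.cof_ord]; exact hlt)
    obtain ⟨⟨_, g, hgX, rfl⟩, hfib⟩ := hpig
    set Y : Set G := {x | x ∈ X ∧ π x = π g} with hY
    have hYk : #Y = k := by
      rw [← hX, ← hfib]
      refine mk_congr ⟨fun y => ⟨⟨y.1, y.2.1⟩, ?_⟩, fun y => ⟨y.1.1, y.1.2, ?_⟩, ?_, ?_⟩
      · show (⟨π y.1, _⟩ : π '' X) = ⟨π g, _⟩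
        exact Subtype.ext y.2.2
      · exact congrArg Subtype.val (show (⟨π y.1.1, _⟩ : π '' X) = ⟨π g, _⟩ from y.2)
      · intro y; rfl
      · intro y; rfl
    set Z : Set N := {n | g * (n : G) ∈ Y} with hZ
    have hZk : #Z = k := by
      rw [← hYk]
      refine mk_congr ⟨fun n => ⟨g * (n.1 : G), n.2⟩, fun y => ⟨⟨g⁻¹ * y.1, ?_⟩, ?_⟩, ?_, ?_⟩
      · have : π g = π y.1 := y.2.2.symm
        exact QuotientGroup.eq.1 this
      · show g * (g⁻¹ * y.1) ∈ Y
        rw [mul_inv_cancel_left]; exact y.2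
      · intro n
        apply Subtype.ext; apply Subtype.ext
        simp
      · intro y
        apply Subtype.ext
        simp
    obtain ⟨H, hHZ, hHg, hHk⟩ := h1 Z hZk
    refine ⟨(fun n : N => g * (n : G)) '' H, ?_, ?_, ?_⟩
    · rintro _ ⟨n, hn, rfl⟩
      exact (hHZ hn).1
    · rintro _ ⟨a, ha, rfl⟩ _ ⟨b, hb, rfl⟩ _ ⟨c, hc, rfl⟩ e
      have : a = c := by
        apply hHg a ha b hb c hc
        apply Subtype.ext
        simp only [mul_inv_rev] at e
        have e' : (a : G)⁻¹ * b = (b : G)⁻¹ * c := by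
          have h1 : (a : G)⁻¹ * g⁻¹ * (g * b) = (a : G)⁻¹ * b := by group
          have h2 : (b : G)⁻¹ * g⁻¹ * (g * c) = (b : G)⁻¹ * c := by group
          rw [← h1, ← h2]; exact e
        simpa using e'
      rw [this]
    · rw [mk_image_eq, hHk]
      intro a b hab
      exact Subtype.ext (mul_left_cancel hab)
  · obtain ⟨H, hHX, hHg, hHk⟩ := h2 (π '' X) heq
    have hch : ∀ q : H, ∃ x ∈ X, π x = q := fun q => hHX q.2
    choose s hsX hs using hch
    refine ⟨range s, ?_, ?_, ?_⟩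
    · rintro _ ⟨q, rfl⟩; exact hsX q
    · rintro _ ⟨a, rfl⟩ _ ⟨b, rfl⟩ _ ⟨c, rfl⟩ e
      have e' := congrArg (QuotientGroup.mk' N) e
      simp only [map_mul, map_inv] at e'
      have ha : QuotientGroup.mk' N (s a) = a := hs a
      have hb : QuotientGroup.mk' N (s b) = b := hs b
      have hc : QuotientGroup.mk' N (s c) = c := hs c
      rw [ha, hb, hc] at e'
      have := hHg a a.2 b b.2 c c.2 e'
      rw [Subtype.ext this]
    · rw [mk_range_eq, hHk]
      intro a b hab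
      apply Subtype.ext
      rw [← hs a, ← hs b, hab]

theorem her_union {k : Cardinal.{u}} (hk : k.IsRegular) {G : Type u} [Group G] (ι : Type u)
    (hι : #ι < k) (K : ι → Subgroup G) (hK : ∀ g, ∃ i, g ∈ K i) (h : ∀ i, Her k (K i)) :
    Her k G := by
  classical
  intro X hX
  choose j hj using hK
  have hpig := infinite_pigeonhole (β := X) (α := ι) (fun x => j x)
      (by rw [hX]; exact hk.aleph0_le) (by rw [hX, hk.cof_ord]; exact hι)
  obtain ⟨i, hfib⟩ := hpig
  set Z : Set (K i) := {n | (n : G) ∈ X ∧ j (n : G) = i} with hZ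
  have hZk : #Z = k := by
    rw [← hX, ← hfib]
    refine mk_congr ⟨fun n => ⟨⟨(n.1 : G), n.2.1⟩, n.2.2⟩, fun y => ⟨⟨y.1.1, ?_⟩, ?_⟩, ?_, ?_⟩
    · have h1 := hj y.1.1
      have h2 : j y.1.1 = i := y.2
      rw [h2] at h1; exact h1
    · exact ⟨y.1.2, y.2⟩
    · intro n; rfl
    · intro y; rfl
  obtain ⟨H, hHZ, hHg, hHk⟩ := h i Z hZk
  refine ⟨Subtype.val '' H, ?_, ?_, ?_⟩
  · rintro _ ⟨n, hn, rfl⟩
    exact (hHZ hn).1
  · rintro _ ⟨a, ha, rfl⟩ _ ⟨b, hb, rfl⟩ _ ⟨c, hc, rfl⟩ e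
    rw [hHg a ha b hb c hc (Subtype.ext (by simpa using e))]
  · rw [mk_image_eq Subtype.val_injective, hHk]

/-- commutative groups satisfy the chain condition -/
theorem chain_of_comm {G : Type u} [Group G] (hc : ∀ a b : G, a * b = b * a) : Chain G := by
  intro x y
  have key : ∀ z a b : G, z * a⁻¹ * z = b ↔ z * z = a * b := by
    intro z a b
    have h1 : z * a⁻¹ * z = a⁻¹ * (z * z) := by rw [hc z a⁻¹, mul_assoc]
    rw [h1, inv_mul_eq_iff_eq_mul]
  by_cases h : x 0 * y 0 = x 1 * y 1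
  · refine ⟨1, fun z hz => ?_⟩
    have := hz 0 (by norm_num)
    rw [key] at this ⊢
    rw [this, h]
  · refine ⟨2, fun z hz => ?_⟩
    exfalso
    apply h
    have h0 := (key _ _ _).1 (hz 0 (by norm_num))
    have h1 := (key _ _ _).1 (hz 1 (by norm_num))
    rw [← h0, ← h1]

theorem her_of_small {k : Cardinal.{u}} {G : Type u} [Group G] (h : #G < k) : Her k G := by
  intro X hX
  exact absurd hX ((mk_set_le X).trans_lt h).ne

/-- groups in which nontrivial elements have few square roots -/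
theorem her_of_roots {k : Cardinal.{u}} (hk : k.IsRegular) {G : Type u} [Group G]
    (h : ∀ a : G, a ≠ 1 → #{v : G | v * v = a} < k) : Her k G := by
  intro X hX
  by_contra hno
  obtain ⟨x, hx, y, -, hxy, hc⟩ := exists_large_W hk X hX hno
  have hne : y * x⁻¹ ≠ 1 := by
    intro e
    exact hxy (mul_inv_eq_one.1 e).symm
  have hle : #(X ∩ W x y : Set G) ≤ #{v : G | v * v = y * x⁻¹} := by
    refine mk_le_of_injective (f := fun z => ⟨z.1 * x⁻¹, ?_⟩) ?_
    · show z.1 * x⁻¹ * (z.1 * x⁻¹) = y * x⁻¹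
      have : z.1 * x⁻¹ * z.1 = y := z.2.2
      rw [← mul_assoc, this]
    · intro a b hab
      have := congrArg Subtype.val hab
      exact Subtype.ext (mul_right_cancel this)
  exact absurd hc (hle.trans_lt (h _ hne)).ne

/-- good subset of full size for every group in the hereditary class -/
theorem good_of_her {G : Type u} [Group G] (h : Her #G G) : ∃ H : Set G, IsGood H ∧ #H = #G := by
  obtain ⟨H, -, h1, h2⟩ := h Set.univ mk_univ
  exact ⟨H, h1, h2⟩

end Helper996.Strange
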